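import Pool.Agent.Helper11.GT.Basic

/-!
# Module ASP1: the dual of the span of countably many nodes is separable
-/

set_option autoImplicit false

open Set Filter Topology

namespace Pool.Agent.Helper11.GT

namespace Asp

/-! ## limits of functionals along ultrafilters -/

theorem exists_ulim {α V : Type*} [NormedAddCommGroup V] [NormedSpace ℝ V] (𝒰 : Ultrafilter α)
    (f : α → V →L[ℝ] ℝ) (C : ℝ) (hf : ∀ a, ‖f a‖ ≤ C) :
    ∃ L : V →L[ℝ] ℝ, ‖L‖ ≤ C ∧ ∀ x, Tendsto (fun a => f a x) 𝒰 (𝓝 (L x)) := by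
  classical
  have hC : 0 ≤ C := by
    obtain ⟨a⟩ := 𝒰.neBot.nonempty
    exact le_trans (norm_nonneg _) (hf a)
  have h1 : ∀ x : V, ∃ l : ℝ, ‖l‖ ≤ C * ‖x‖ ∧ Tendsto (fun a => f a x) 𝒰 (𝓝 l) := by
    intro x
    have hc : IsCompact (Metric.closedBall (0 : ℝ) (C * ‖x‖)) := isCompact_closedBall _ _
    have hle : ((𝒰.map (fun a => f a x) : Ultrafilter ℝ) : Filter ℝ) ≤
        𝓟 (Metric.closedBall (0 : ℝ) (C * ‖x‖)) := by
      rw [le_principal_iff, Ultrafilter.coe_map, mem_map]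
      refine Filter.univ_mem' (fun a => ?_)
      simp only [mem_preimage, Metric.mem_closedBall, dist_zero_right]
      exact le_trans ((f a).le_opNorm x) (mul_le_mul_of_nonneg_right (hf a) (norm_nonneg x))
    obtain ⟨l, hl, hl'⟩ := hc.ultrafilter_le_nhds _ hle
    refine ⟨l, by simpa using hl, ?_⟩
    rw [Ultrafilter.coe_map] at hl'
    exact hl'
  choose l hl hlt using h1
  let L₀ : V →ₗ[ℝ] ℝ :=
    { toFun := l
      map_add' := by
        intro x y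
        have h2 := (hlt x).add (hlt y)
        have h3 := hlt (x + y)
        simp only [map_add] at h3
        exact tendsto_nhds_unique h3 h2
      map_smul' := by
        intro c x
        have h2 := (hlt x).const_mul c
        have h3 := hlt (c • x)
        simp only [map_smul, smul_eq_mul] at h3
        exact tendsto_nhds_unique h3 h2 }
  refine ⟨L₀.mkContinuous C hl, LinearMap.mkContinuous_norm_le _ hC _, fun x => hlt x⟩

theorem apply_le_norm {V : Type*} [NormedAddCommGroup V] [NormedSpace ℝ V] (ξ : V →L[ℝ] ℝ)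
    {x : V} (hx : ‖x‖ ≤ 1) : ξ x ≤ ‖ξ‖ := by
  calc ξ x ≤ ‖ξ x‖ := le_abs_self _
    _ ≤ ‖ξ‖ * ‖x‖ := ξ.le_opNorm _
    _ ≤ ‖ξ‖ * 1 := mul_le_mul_of_nonneg_left hx (norm_nonneg _)
    _ = ‖ξ‖ := mul_one _

/-- evaluation at a point -/
noncomputable def ev (n : ℕ) : E →L[ℝ] ℝ := BoundedContinuousFunction.evalCLM ℝ n

@[simp] lemma ev_apply (n : ℕ) (f : E) : ev n f = f n := rfl

lemma norm_ev_le (n : ℕ) : ‖ev n‖ ≤ 1 := by
  refine ContinuousLinearMap.opNorm_le_bound _ zero_le_one (fun f => ?_)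
  rw [ev_apply, one_mul]
  exact f.norm_coe_le_norm n

variable {T : Type} [GTree T]

lemma root_lt {u : T} (h : u ≠ GTree.root) : GTree.root < u :=
  lt_of_le_of_ne (GTree.root_le u) (Ne.symm h)

/-! ## the two ultrafilters -/

theorem exists_U {u : T} (hu : u ≠ GTree.root) : ∃ 𝒰 : Ultrafilter ℕ, (𝒰 : Filter ℕ) ≤ cofinite ∧
    ∀ s, s < u → GTree.A u \ GTree.A s ∈ (𝒰 : Filter ℕ) := by
  have hne : Nonempty {s : T // s < u} := ⟨⟨GTree.root, root_lt hu⟩⟩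
  have h1 : (⨅ s : {s : T // s < u}, (cofinite ⊓ 𝓟 (GTree.A u \ GTree.A s.1) : Filter ℕ)).NeBot := by
    refine Filter.iInf_neBot_of_directed' ?_ ?_
    · intro s s'
      have key : ∀ a b : {s : T // s < u}, a.1 ≤ b.1 →
          (cofinite ⊓ 𝓟 (GTree.A u \ GTree.A b.1) : Filter ℕ) ≤
            cofinite ⊓ 𝓟 (GTree.A u \ GTree.A a.1) := by
        intro a b hab
        refine le_inf inf_le_left ?_
        rw [le_principal_iff]
        have h2 : (GTree.A a.1 \ GTree.A b.1)ᶜ ∈ (cofinite : Filter ℕ) := by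
          rw [mem_cofinite, compl_compl]; exact GTree.sub _ _ hab
        have h3 : (GTree.A u \ GTree.A b.1) ∈ 𝓟 (GTree.A u \ GTree.A b.1) := mem_principal_self _
        refine Filter.mem_of_superset (Filter.inter_mem_inf h2 h3) ?_
        rintro k ⟨hk1, hk2, hk3⟩
        refine ⟨hk2, fun hk4 => hk1 ⟨hk4, hk3⟩⟩
      rcases GTree.chain s.1 s'.1 u s.2.le s'.2.le with h | h
      · exact ⟨s', key s s' h, le_refl _⟩
      · exact ⟨s, le_refl _, key s' s h⟩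
    · intro s
      rw [cofinite_inf_principal_neBot_iff]
      exact GTree.inf _ _ s.2
  refine ⟨Ultrafilter.of (⨅ s : {s : T // s < u},
    (cofinite ⊓ 𝓟 (GTree.A u \ GTree.A s.1) : Filter ℕ)), le_trans (Ultrafilter.of_le _) ?_, ?_⟩
  · exact le_trans (iInf_le _ ⟨GTree.root, root_lt hu⟩) inf_le_left
  · intro s hs
    have h2 : ((Ultrafilter.of (⨅ s : {s : T // s < u},
        (cofinite ⊓ 𝓟 (GTree.A u \ GTree.A s.1) : Filter ℕ)) : Ultrafilter ℕ) : Filter ℕ) ≤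
        𝓟 (GTree.A u \ GTree.A s) :=
      le_trans (Ultrafilter.of_le _) (le_trans (iInf_le _ ⟨s, hs⟩) inf_le_right)
    exact le_principal_iff.1 h2

theorem exists_V {u : T} (hu : u ≠ GTree.root) : ∃ 𝒱 : Ultrafilter T,
    ∀ v, v < u → Set.Ico v u ∈ (𝒱 : Filter T) := by
  have hne : Nonempty {s : T // s < u} := ⟨⟨GTree.root, root_lt hu⟩⟩
  have h1 : (⨅ s : {s : T // s < u}, (𝓟 (Set.Ico s.1 u) : Filter T)).NeBot := by
    refine Filter.iInf_neBot_of_directed' ?_ ?_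
    · intro s s'
      rcases GTree.chain s.1 s'.1 u s.2.le s'.2.le with h | h
      · refine ⟨s', ?_, le_refl _⟩
        exact principal_mono.2 (Ico_subset_Ico_left h)
      · refine ⟨s, le_refl _, ?_⟩
        exact principal_mono.2 (Ico_subset_Ico_left h)
    · intro s
      exact principal_neBot_iff.2 (Set.nonempty_Ico.2 s.2)
  refine ⟨Ultrafilter.of (⨅ s : {s : T // s < u}, (𝓟 (Set.Ico s.1 u) : Filter T)), ?_⟩
  intro s hs
  have h2 : ((Ultrafilter.of (⨅ s : {s : T // s < u}, (𝓟 (Set.Ico s.1 u) : Filter T)) :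
      Ultrafilter T) : Filter T) ≤ 𝓟 (Set.Ico s u) :=
    le_trans (Ultrafilter.of_le _)
      (iInf_le (fun s : {s : T // s < u} => (𝓟 (Set.Ico s.1 u) : Filter T)) ⟨s, hs⟩)
  exact le_principal_iff.1 h2

/-! ## the functionals `φ_u` -/

theorem exists_phi {u : T} (hu : u ≠ GTree.root) : ∃ φ : E →L[ℝ] ℝ, ‖φ‖ ≤ 1 ∧
    (∀ f ∈ FS, φ f = 0) ∧ (∀ t, u ≤ t → φ (av t) = 1) ∧ (∀ t, ¬ u ≤ t → φ (av t) = 0) := by
  obtain ⟨𝒰, h𝒰, h𝒰'⟩ := exists_U hu
  obtain ⟨φ, hφ, hφt⟩ := exists_ulim 𝒰 ev 1 norm_ev_le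
  refine ⟨φ, hφ, ?_, ?_, ?_⟩
  · rintro f ⟨m, hm⟩
    have h1 : ∀ᶠ k in (𝒰 : Filter ℕ), ev k f = 0 := by
      have h2 : {k : ℕ | k < m}ᶜ ∈ (cofinite : Filter ℕ) := by
        rw [mem_cofinite, compl_compl]; exact finite_lt_nat m
      filter_upwards [h𝒰 h2] with k hk
      exact hm k (not_lt.1 hk)
    exact tendsto_nhds_unique (hφt f) ((tendsto_congr' h1).2 tendsto_const_nhds)
  · intro t ht
    have h1 : ∀ᶠ k in (𝒰 : Filter ℕ), ev k (av t) = 1 := by
      have h2 : (GTree.A u \ GTree.A t)ᶜ ∈ (cofinite : Filter ℕ) := by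
        rw [mem_cofinite, compl_compl]; exact GTree.sub _ _ ht
      filter_upwards [h𝒰 h2, h𝒰' _ (root_lt hu)] with k hk1 hk2
      have hk3 : k ∈ GTree.A t := by
        by_contra hk3
        exact hk1 ⟨hk2.1, hk3⟩
      rw [ev_apply, av_apply, indicator_of_mem hk3]
    exact tendsto_nhds_unique (hφt (av t)) ((tendsto_congr' h1).2 tendsto_const_nhds)
  · intro t ht
    have h1 : ∀ᶠ k in (𝒰 : Filter ℕ), ev k (av t) = 0 := by
      rcases GTree.meet u t with h | h | ⟨w, i, j, hij, hi, hj⟩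
      · exact absurd h ht
      · have htu : t < u := lt_of_le_of_ne h (fun h' => ht (h' ▸ le_refl _))
        filter_upwards [h𝒰' _ htu] with k hk
        rw [ev_apply, av_apply, indicator_of_notMem hk.2]
      · have hwu : w < u := lt_of_lt_of_le (GTree.lt_sc w i) hi
        have h2 : ((GTree.A u \ GTree.A w) ∩ (GTree.A t \ GTree.A w))ᶜ ∈
            (cofinite : Filter ℕ) := by
          rw [mem_cofinite, compl_compl]; exact GTree.ad w i j hij u t hi hj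
        filter_upwards [h𝒰 h2, h𝒰' _ hwu] with k hk1 hk2
        rw [ev_apply, av_apply, indicator_of_notMem]
        intro hk3
        exact hk1 ⟨hk2, hk3, hk2.2⟩
    exact tendsto_nhds_unique (hφt (av t)) ((tendsto_congr' h1).2 tendsto_const_nhds)

/-! ## the masses -/

/-- separation of the segments below two different nodes -/
theorem exists_sep {u u' : T} (hu : u ≠ GTree.root) (hu' : u' ≠ GTree.root) (h : u ≠ u') :
    ∃ v, v < u ∧ ∃ v', v' < u' ∧ ∀ s s', v ≤ s → v' ≤ s' →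
      ((GTree.A u \ GTree.A s) ∩ (GTree.A u' \ GTree.A s')).Finite := by
  rcases GTree.meet u u' with h1 | h1 | ⟨w, i, j, hij, hi, hj⟩
  · refine ⟨GTree.root, root_lt hu, u, lt_of_le_of_ne h1 h, fun s s' _ hs' => ?_⟩
    refine (GTree.sub u s' hs').subset ?_
    rintro k ⟨hk1, hk2⟩
    exact ⟨hk1.1, hk2.2⟩
  · refine ⟨u', lt_of_le_of_ne h1 (Ne.symm h), GTree.root, root_lt hu', fun s s' hs _ => ?_⟩
    refine (GTree.sub u' s hs).subset ?_
    rintro k ⟨hk1, hk2⟩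
    exact ⟨hk2.1, hk1.2⟩
  · refine ⟨w, lt_of_lt_of_le (GTree.lt_sc w i) hi, w, lt_of_lt_of_le (GTree.lt_sc w j) hj,
      fun s s' hs hs' => ?_⟩
    refine ((GTree.ad w i j hij u u' hi hj).union
      ((GTree.sub w s hs).union (GTree.sub w s' hs'))).subset ?_
    rintro k ⟨hk1, hk2⟩
    by_cases hk : k ∈ GTree.A w
    · exact Or.inr (Or.inl ⟨hk, hk1.2⟩)
    · exact Or.inl ⟨⟨hk1.1, hk⟩, ⟨hk2.1, hk⟩⟩

/-- a functional vanishing on `FS` has total variation at most its norm over almost disjoint sets -/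
lemma sum_abs_le {ι : Type*} (F : Finset ι) (ξ : E →L[ℝ] ℝ) (h0 : ∀ f ∈ FS, ξ f = 0)
    (B : ι → Set ℕ) (hB : ∀ i ∈ F, ∀ j ∈ F, i ≠ j → (B i ∩ B j).Finite) :
    ∑ i ∈ F, |ξ (ch (B i))| ≤ ‖ξ‖ := by
  classical
  have h1 : ∃ m : ℕ, ∀ i ∈ F, ∀ j ∈ F, i ≠ j → ∀ k, m ≤ k → ¬ (k ∈ B i ∧ k ∈ B j) := by
    have h2 : (⋃ i ∈ F, ⋃ j ∈ F, {k | i ≠ j ∧ k ∈ B i ∧ k ∈ B j}).Finite := by
      refine F.finite_toSet.biUnion (fun i hi => F.finite_toSet.biUnion (fun j hj => ?_))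
      by_cases hij : i = j
      · refine finite_empty.subset ?_
        rintro k ⟨hk, _⟩
        exact absurd hij hk
      · refine (hB i hi j hj hij).subset ?_
        rintro k ⟨_, hk1, hk2⟩
        exact ⟨hk1, hk2⟩
    obtain ⟨m, hm⟩ := h2.bddAbove
    refine ⟨m + 1, fun i hi j hj hij k hk hk' => ?_⟩
    have h3 : k ∈ (⋃ i ∈ F, ⋃ j ∈ F, {k | i ≠ j ∧ k ∈ B i ∧ k ∈ B j}) := by
      simp only [mem_iUnion]
      exact ⟨i, hi, j, hj, hij, hk'⟩
    have := hm h3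
    omega
  obtain ⟨m, hm⟩ := h1
  set σ : ι → ℝ := fun i => if 0 ≤ ξ (ch (B i)) then 1 else -1 with hσ
  have hσ1 : ∀ i, |σ i| = 1 := by
    intro i
    simp only [hσ]
    split_ifs <;> simp
  have hσ2 : ∀ i, σ i * ξ (ch (B i)) = |ξ (ch (B i))| := by
    intro i
    simp only [hσ]
    split_ifs with h
    · rw [one_mul, abs_of_nonneg h]
    · rw [abs_of_neg (not_le.1 h)]; ring
  set h : E := ∑ i ∈ F, σ i • ch (B i) with hh
  have hn : ‖tl m h‖ ≤ 1 := by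
    rw [BoundedContinuousFunction.norm_le zero_le_one]
    intro k
    rw [tl_apply]
    by_cases hk : m ≤ k
    · rw [if_pos hk]
      have h2 : h k = ∑ i ∈ F, σ i * (B i).indicator (fun _ => (1 : ℝ)) k := by
        rw [hh, BoundedContinuousFunction.sum_apply]
        rfl
      rw [h2]
      by_cases h3 : ∃ i ∈ F, k ∈ B i
      · obtain ⟨i, hi, hki⟩ := h3
        rw [Finset.sum_eq_single_of_mem i hi, indicator_of_mem hki, mul_one, Real.norm_eq_abs,
          hσ1 i]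
        intro j hj hji
        rw [indicator_of_notMem, mul_zero]
        intro hkj
        exact hm j hj i hi hji k hk ⟨hkj, hki⟩
      · push Not at h3
        rw [Finset.sum_eq_zero, norm_zero]
        · exact zero_le_one
        · intro i hi
          rw [indicator_of_notMem (h3 i hi), mul_zero]
    · rw [if_neg hk, norm_zero]; exact zero_le_one
  have h4 : ξ (tl m h) = ∑ i ∈ F, |ξ (ch (B i))| := by
    have h5 := h0 _ (sub_tl_mem_FS m h)
    rw [map_sub, sub_eq_zero] at h5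
    rw [← h5, hh, map_sum]
    refine Finset.sum_congr rfl (fun i _ => ?_)
    rw [map_smul, smul_eq_mul, hσ2 i]
  rw [← h4]
  exact apply_le_norm ξ hn

/-- the nodes different from the root -/
abbrev NR (T : Type) [GTree T] := {u : T // u ≠ GTree.root}

lemma mass_le (𝒱 : NR T → Ultrafilter T)
    (h𝒱 : ∀ u : NR T, ∀ v, v < u.1 → Set.Ico v u.1 ∈ (𝒱 u : Filter T))
    (ξ : E →L[ℝ] ℝ) (h0 : ∀ f ∈ FS, ξ f = 0) (μ : NR T → ℝ)
    (hμ : ∀ u : NR T,
      Tendsto (fun s : T => ξ (av u.1) - ξ (av s)) (𝒱 u : Filter T) (𝓝 (μ u)))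
    (F : Finset (NR T)) :
    ∑ u ∈ F, |μ u| ≤ ‖ξ‖ := by
  classical
  refine le_of_forall_pos_le_add (fun ε hε => ?_)
  have hsep : ∀ u u' : NR T, ∃ v, v < u.1 ∧ ∃ v', v' < u'.1 ∧ (u ≠ u' → ∀ s s', v ≤ s → v' ≤ s' →
      ((GTree.A u.1 \ GTree.A s) ∩ (GTree.A u'.1 \ GTree.A s')).Finite) := by
    intro u u'
    by_cases h : u = u'
    · exact ⟨GTree.root, root_lt u.2, GTree.root, root_lt u'.2, fun h' => absurd h h'⟩
    · obtain ⟨v, hv, v', hv', H⟩ := exists_sep u.2 u'.2 (fun h' => h (Subtype.ext h'))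
      exact ⟨v, hv, v', hv', fun _ => H⟩
  choose V hV V' hV' hsep using hsep
  set c : ℝ := ε / (F.card + 1) with hc
  have hcpos : 0 < c := by rw [hc]; positivity
  have hs : ∀ u : NR T, ∃ s : T, s < u.1 ∧ (∀ u' ∈ F, V u u' ≤ s ∧ V' u' u ≤ s) ∧
      |μ u| ≤ |ξ (av u.1) - ξ (av s)| + c := by
    intro u
    have h1 : ∀ᶠ s in (𝒱 u : Filter T), s < u.1 := by
      filter_upwards [h𝒱 u _ (root_lt u.2)] with s hs
      exact hs.2
    have h2 : ∀ᶠ s in (𝒱 u : Filter T), ∀ u' ∈ F, V u u' ≤ s ∧ V' u' u ≤ s := by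
      rw [Filter.eventually_all_finset]
      intro u' _
      filter_upwards [h𝒱 u _ (hV u u'), h𝒱 u _ (hV' u' u)] with s hs hs'
      exact ⟨hs.1, hs'.1⟩
    have h3 : ∀ᶠ s in (𝒱 u : Filter T), |μ u| - c < |ξ (av u.1) - ξ (av s)| :=
      (hμ u).abs.eventually_const_lt (by linarith)
    obtain ⟨s, hs1, hs2, hs3⟩ := (h1.and (h2.and h3)).exists
    exact ⟨s, hs1, hs2, by linarith⟩
  choose s hs1 hs2 hs3 using hs
  have h4 : ∀ u : NR T, ξ (ch (GTree.A u.1 \ GTree.A (s u))) = ξ (av u.1) - ξ (av (s u)) := by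
    intro u
    have h5 := h0 _ (ch_diff_sub_mem_FS (S := GTree.A u.1) (S' := GTree.A (s u))
      (GTree.sub _ _ (hs1 u).le))
    rw [map_sub, map_sub, sub_eq_zero] at h5
    exact h5.symm
  have h6 := sum_abs_le F ξ h0 (fun u : NR T => GTree.A u.1 \ GTree.A (s u)) (by
    intro u hu u' hu' huu'
    exact hsep u u' huu' (s u) (s u') (hs2 u u' hu').1 (hs2 u' u hu).2)
  have h7 : ∑ u ∈ F, |μ u| ≤ ∑ u ∈ F, (|ξ (ch (GTree.A u.1 \ GTree.A (s u)))| + c) := by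
    refine Finset.sum_le_sum (fun u _ => ?_)
    rw [h4 u]; exact hs3 u
  rw [Finset.sum_add_distrib, Finset.sum_const, nsmul_eq_mul] at h7
  have h8 : (F.card : ℝ) * c ≤ ε := by
    rw [hc, mul_div_assoc', div_le_iff₀ (by positivity)]
    nlinarith
  linarith

/-- the point masses -/
lemma sum_ev_le (ξ : E →L[ℝ] ℝ) (F : Finset ℕ) : ∑ n ∈ F, |ξ (ch {n})| ≤ ‖ξ‖ := by
  classical
  set σ : ℕ → ℝ := fun i => if 0 ≤ ξ (ch {i}) then 1 else -1 with hσ
  have hσ1 : ∀ i, |σ i| = 1 := by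
    intro i
    simp only [hσ]
    split_ifs <;> simp
  have hσ2 : ∀ i, σ i * ξ (ch {i}) = |ξ (ch {i})| := by
    intro i
    simp only [hσ]
    split_ifs with h
    · rw [one_mul, abs_of_nonneg h]
    · rw [abs_of_neg (not_le.1 h)]; ring
  set h : E := ∑ i ∈ F, σ i • ch {i} with hh
  have hn : ‖h‖ ≤ 1 := by
    rw [BoundedContinuousFunction.norm_le zero_le_one]
    intro k
    have h2 : h k = ∑ i ∈ F, σ i * ({i} : Set ℕ).indicator (fun _ => (1 : ℝ)) k := by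
      rw [hh, BoundedContinuousFunction.sum_apply]
      rfl
    rw [h2]
    by_cases h3 : k ∈ F
    · rw [Finset.sum_eq_single_of_mem k h3, indicator_of_mem (mem_singleton k), mul_one,
        Real.norm_eq_abs, hσ1 k]
      intro j hj hji
      rw [indicator_of_notMem, mul_zero]
      intro hkj
      exact hji (mem_singleton_iff.1 hkj).symm
    · rw [Finset.sum_eq_zero, norm_zero]
      · exact zero_le_one
      · intro i hi
        rw [indicator_of_notMem, mul_zero]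
        intro hki
        exact h3 ((mem_singleton_iff.1 hki) ▸ hi)
  have h4 : ξ h = ∑ i ∈ F, |ξ (ch {i})| := by
    rw [hh, map_sum]
    refine Finset.sum_congr rfl (fun i _ => ?_)
    rw [map_smul, smul_eq_mul, hσ2 i]
  rw [← h4]
  exact apply_le_norm ξ hn

/-- a finitely supported sequence is a combination of unit vectors -/
lemma FS_repr {f : E} (hf : f ∈ FS) : ∃ m : ℕ, (∀ n, m ≤ n → ev n f = 0) ∧
    f = ∑ n ∈ Finset.range m, ev n f • ch {n} := by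
  obtain ⟨m, hm⟩ := hf
  refine ⟨m, fun n hn => hm n hn, ?_⟩
  ext k
  rw [BoundedContinuousFunction.sum_apply]
  have h7 : ∀ n, (ev n f • ch {n}) k = f n * ({n} : Set ℕ).indicator (fun _ => (1 : ℝ)) k :=
    fun n => rfl
  simp only [h7]
  by_cases hk : k < m
  · rw [Finset.sum_eq_single_of_mem k (Finset.mem_range.2 hk),
      indicator_of_mem (mem_singleton k), mul_one]
    intro j _ hj
    rw [indicator_of_notMem, mul_zero]
    intro hkj
    exact hj (mem_singleton_iff.1 hkj).symm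
  · rw [hm k (not_lt.1 hk), Finset.sum_eq_zero]
    intro j hj
    rw [indicator_of_notMem, mul_zero]
    intro hkj
    rw [mem_singleton_iff] at hkj
    exact hk (hkj ▸ Finset.mem_range.1 hj)

end Asp

/-! ## the abstract argument -/

section abs

variable {V : Type*} [NormedAddCommGroup V] [NormedSpace ℝ V]

open Asp

/-- removing the point masses -/
lemma Asp.exists_point_part (F : Submodule ℝ V) (dl : ℕ → V →L[ℝ] ℝ) (hdl : ∀ n, ‖dl n‖ ≤ 1)
    (e : ℕ → V) (hF : ∀ f ∈ F, ∃ m : ℕ, (∀ n, m ≤ n → dl n f = 0) ∧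
      f = ∑ n ∈ Finset.range m, dl n f • e n)
    (ξ : V →L[ℝ] ℝ) (hξ : ∀ s : Finset ℕ, ∑ n ∈ s, |ξ (e n)| ≤ ‖ξ‖) : ∃ ψ : V →L[ℝ] ℝ,
    ψ ∈ (Submodule.span ℝ (Set.range dl)).topologicalClosure ∧ ∀ f ∈ F, (ξ - ψ) f = 0 := by
  classical
  have h1 : Summable (fun n : ℕ => |ξ (e n)|) :=
    summable_of_sum_le (fun n => abs_nonneg _) hξ
  have h2 : Summable (fun n : ℕ => ξ (e n) • dl n) := by
    refine Summable.of_norm_bounded h1 (fun n => ?_)
    rw [norm_smul, Real.norm_eq_abs]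
    calc |ξ (e n)| * ‖dl n‖ ≤ |ξ (e n)| * 1 :=
          mul_le_mul_of_nonneg_left (hdl n) (abs_nonneg _)
      _ = _ := mul_one _
  refine ⟨∑' n : ℕ, ξ (e n) • dl n, ?_, ?_⟩
  · refine tsum_mem (Submodule.isClosed_topologicalClosure _) (fun n => ?_)
    exact Submodule.smul_mem _ _
      (Submodule.le_topologicalClosure _ (Submodule.subset_span ⟨n, rfl⟩))
  · intro f hf
    obtain ⟨m, hm, h6⟩ := hF f hf
    have h3 := ContinuousLinearMap.map_tsum (ContinuousLinearMap.apply ℝ ℝ f) h2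
    have h4 : (∑' n : ℕ, ξ (e n) • dl n) f = ∑ n ∈ Finset.range m, ξ (e n) * dl n f := by
      have h5 : (∑' n : ℕ, ξ (e n) • dl n) f = ∑' n : ℕ, ξ (e n) * dl n f := h3
      rw [h5, tsum_eq_sum (s := Finset.range m)]
      intro n hn
      rw [hm n (by simpa using hn), mul_zero]
    have h8 : ξ f = ∑ n ∈ Finset.range m, ξ (e n) * dl n f := by
      conv_lhs => rw [h6]
      rw [map_sum]
      refine Finset.sum_congr rfl (fun n _ => ?_)
      rw [map_smul, smul_eq_mul, mul_comm]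
    show ξ f - (∑' n : ℕ, ξ (e n) • dl n) f = 0
    rw [h4, h8, sub_self]

/-- the abstract form of the theorem -/
theorem Asp.core_abs {T : Type} [GTree T] (S : Set T) (hS : S.Countable)
    (F : Submodule ℝ V) (dl : ℕ → V →L[ℝ] ℝ) (hdl : ∀ n, ‖dl n‖ ≤ 1)
    (e : ℕ → V) (hF : ∀ f ∈ F, ∃ m : ℕ, (∀ n, m ≤ n → dl n f = 0) ∧
      f = ∑ n ∈ Finset.range m, dl n f • e n)
    (hpt : ∀ ξ : V →L[ℝ] ℝ, ∀ s : Finset ℕ, ∑ n ∈ s, |ξ (e n)| ≤ ‖ξ‖)
    (a : T → V) (ha : ∀ s t, ‖a s - a t‖ ≤ 1) (har : a GTree.root ∈ F)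
    (φ : NR T → V →L[ℝ] ℝ) (hφn : ∀ u, ‖φ u‖ ≤ 1) (hφF : ∀ u, ∀ f ∈ F, φ u f = 0)
    (hφ1 : ∀ (u : NR T) (t : T), u.1 ≤ t → φ u (a t) = 1)
    (hφ2 : ∀ (u : NR T) (t : T), ¬ u.1 ≤ t → φ u (a t) = 0)
    (𝒱 : NR T → Ultrafilter T)
    (h𝒱 : ∀ u : NR T, ∀ v, v < u.1 → Set.Ico v u.1 ∈ (𝒱 u : Filter T))
    (hmass : ∀ ξ : V →L[ℝ] ℝ, (∀ f ∈ F, ξ f = 0) → ∀ μ : NR T → ℝ,
      (∀ u : NR T, Tendsto (fun s : T => ξ (a u.1) - ξ (a s)) (𝒱 u : Filter T) (𝓝 (μ u))) →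
      ∀ s : Finset (NR T), ∑ u ∈ s, |μ u| ≤ ‖ξ‖) :
    ∃ W : Set (V →L[ℝ] ℝ), W.Countable ∧ ∀ ξ : V →L[ℝ] ℝ, ∀ η > 0, ∃ w ∈ W,
      ∀ x ∈ (F ⊔ Submodule.span ℝ {x | ∃ t ∈ S, x = a t}).topologicalClosure,
        |ξ x - w x| ≤ η * ‖x‖ := by
  classical
  have hμ0 : ∀ u : NR T, ∃ μ : (V →L[ℝ] ℝ) →L[ℝ] ℝ, ∀ ξ : V →L[ℝ] ℝ,
        Tendsto (fun s : T => ξ (a u.1) - ξ (a s)) (𝒱 u : Filter T) (𝓝 (μ ξ)) := by
    intro u
    have hb : ∀ s : T, ‖ContinuousLinearMap.apply ℝ ℝ (a u.1) -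
        ContinuousLinearMap.apply ℝ ℝ (a s)‖ ≤ 1 := by
      intro s
      refine ContinuousLinearMap.opNorm_le_bound _ zero_le_one (fun ξ => ?_)
      have h1 : (ContinuousLinearMap.apply ℝ ℝ (a u.1) -
        ContinuousLinearMap.apply ℝ ℝ (a s)) ξ = ξ (a u.1 - a s) := by
        rw [map_sub]; rfl
      rw [h1, one_mul]
      refine le_trans (ξ.le_opNorm _) ?_
      calc ‖ξ‖ * ‖a u.1 - a s‖ ≤ ‖ξ‖ * 1 :=
            mul_le_mul_of_nonneg_left (ha u.1 s) (norm_nonneg _)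
        _ = ‖ξ‖ := mul_one _
    obtain ⟨μ, _, hμ⟩ := exists_ulim (𝒱 u) (fun s : T => ContinuousLinearMap.apply ℝ ℝ (a u.1) -
        ContinuousLinearMap.apply ℝ ℝ (a s)) 1 hb
    exact ⟨μ, fun ξ => hμ ξ⟩
  choose μ hμ using hμ0
  -- the index set
  let I : Type := {u : NR T // ∃ t ∈ S, u.1 ≤ t}
  have hI : Countable I := by
    have h1 : (⋃ t ∈ S, Set.Iic t).Countable := hS.biUnion (fun t _ => GTree.cnt t)
    have h2 : Function.Injective (fun u : I => (⟨u.1.1, by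
        obtain ⟨t, ht, hut⟩ := u.2
        simp only [mem_iUnion]
        exact ⟨t, ht, hut⟩⟩ : (⋃ t ∈ S, Set.Iic t : Set T))) := by
      intro u v huv
      have := Subtype.ext_iff.1 huv
      exact Subtype.ext (Subtype.ext this)
    have := h1.to_subtype
    exact h2.countable
  set G : Submodule ℝ (V →L[ℝ] ℝ) :=
    Submodule.span ℝ (Set.range dl ∪ Set.range (fun u : I => φ u.1)) with hG
  have hsep : TopologicalSpace.IsSeparable (G.topologicalClosure : Set (V →L[ℝ] ℝ)) := by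
    rw [Submodule.topologicalClosure_coe]
    refine TopologicalSpace.IsSeparable.closure ?_
    refine TopologicalSpace.IsSeparable.span ?_
    exact ((countable_range _).union (countable_range _)).isSeparable
  obtain ⟨W, hW, hWd⟩ := hsep
  refine ⟨W, hW, fun ξ η hη => ?_⟩
  obtain ⟨ψ₁, hψ₁, hξ'⟩ := exists_point_part F dl hdl e hF ξ (hpt ξ)
  have hψ₁' : ψ₁ ∈ G.topologicalClosure :=
    Submodule.topologicalClosure_mono (Submodule.span_mono subset_union_left) hψ₁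
  set ξ' : V →L[ℝ] ℝ := ξ - ψ₁ with hξ'd
  have h1 : Summable (fun u : NR T => |μ u ξ'|) :=
    summable_of_sum_le (fun n => abs_nonneg _)
      (hmass ξ' hξ' (fun u => μ u ξ') (fun u => hμ u ξ'))
  have h2 : Summable (fun u : I => μ u.1 ξ' • φ u.1) := by
    refine Summable.of_norm_bounded (h1.comp_injective (i := fun u : I => u.1)
      (fun u v huv => Subtype.ext huv)) (fun n => ?_)
    rw [norm_smul, Real.norm_eq_abs]
    calc |μ n.1 ξ'| * ‖φ n.1‖ ≤ |μ n.1 ξ'| * 1 :=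
          mul_le_mul_of_nonneg_left (hφn n.1) (abs_nonneg _)
      _ = _ := mul_one _
  set ψ₂ : V →L[ℝ] ℝ := ∑' u : I, μ u.1 ξ' • φ u.1 with hψ₂d
  have hψ₂ : ψ₂ ∈ G.topologicalClosure := by
    refine tsum_mem (Submodule.isClosed_topologicalClosure _) (fun u => ?_)
    exact Submodule.smul_mem _ _
      (Submodule.le_topologicalClosure _ (Submodule.subset_span (Or.inr ⟨u, rfl⟩)))
  set ζ : V →L[ℝ] ℝ := ξ' - ψ₂ with hζ
  have hζF : ∀ f ∈ F, ζ f = 0 := by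
    intro f hf
    have h3 := ContinuousLinearMap.map_tsum (ContinuousLinearMap.apply ℝ ℝ f) h2
    have h4 : ψ₂ f = 0 := by
      have h5 : ψ₂ f = ∑' u : I, μ u.1 ξ' * φ u.1 f := h3
      rw [h5]
      have h6 : ∀ u : I, μ u.1 ξ' * φ u.1 f = 0 := fun u => by rw [hφF u.1 f hf, mul_zero]
      simp only [h6, tsum_zero]
    show ξ' f - ψ₂ f = 0
    rw [h4, hξ' f hf, sub_zero]
  have hμφ : ∀ u v : NR T, μ u (φ v) = if u = v then 1 else 0 := by
    intro u v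
    refine tendsto_nhds_unique (hμ u (φ v)) ?_
    refine (tendsto_congr' ?_).2 tendsto_const_nhds
    by_cases huv : u = v
    · subst huv
      filter_upwards [h𝒱 u _ (root_lt u.2)] with s hs
      rw [if_pos rfl, hφ1 u u.1 (le_refl _), hφ2 u s (fun h => absurd hs.2 (not_lt_of_ge h)),
        sub_zero]
    · rw [if_neg huv]
      by_cases hvu : v.1 ≤ u.1
      · have hvu' : v.1 < u.1 := lt_of_le_of_ne hvu (fun h => huv (Subtype.ext h.symm))
        filter_upwards [h𝒱 u _ hvu'] with s hs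
        rw [hφ1 v u.1 hvu, hφ1 v s hs.1, sub_self]
      · filter_upwards [h𝒱 u _ (root_lt u.2)] with s hs
        rw [hφ2 v u.1 hvu, hφ2 v s (fun h => hvu (le_trans h hs.2.le)), sub_self]
  have hμζ : ∀ u : I, μ u.1 ζ = 0 := by
    intro u
    have h3 := ContinuousLinearMap.map_tsum (μ u.1) h2
    have h4 : μ u.1 ψ₂ = μ u.1 ξ' := by
      rw [hψ₂d, h3, tsum_eq_single u]
      · rw [map_smul, hμφ, if_pos rfl, smul_eq_mul, mul_one]
      · intro v hv
        rw [map_smul, hμφ, if_neg (fun h => hv (Subtype.ext h.symm)), smul_zero]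
    rw [hζ, map_sub, h4, sub_self]
  have hζa : ∀ t : T, (∃ r ∈ S, t ≤ r) → ζ (a t) = 0 := by
    by_contra hcon
    push Not at hcon
    obtain ⟨t₀, ht₀, ht₀'⟩ := hcon
    obtain ⟨t, ⟨htS, ht⟩, hmin⟩ := GTree.wf {t : T | (∃ r ∈ S, t ≤ r) ∧ ζ (a t) ≠ 0}
      ⟨t₀, ht₀, ht₀'⟩
    have htr : t ≠ GTree.root := by
      intro h
      apply ht
      rw [h]
      exact hζF _ har
    have h3 := hμ ⟨t, htr⟩ ζ
    have h4 : μ ⟨t, htr⟩ ζ = 0 := hμζ ⟨⟨t, htr⟩, htS⟩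
    rw [h4] at h3
    apply ht
    refine tendsto_nhds_unique ?_ h3
    refine (tendsto_congr' ?_).2 tendsto_const_nhds
    filter_upwards [h𝒱 ⟨t, htr⟩ _ (root_lt htr)] with s hs
    have h5 : ζ (a s) = 0 := by
      by_contra h6
      obtain ⟨r, hr, htr'⟩ := htS
      exact hmin s ⟨⟨r, hr, le_trans hs.2.le htr'⟩, h6⟩ hs.2
    show ζ (a t) - ζ (a s) = ζ (a t)
    rw [h5, sub_zero]
  have hker : (F ⊔ Submodule.span ℝ {x | ∃ t ∈ S, x = a t}).topologicalClosure ≤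
      LinearMap.ker (ζ : V →ₗ[ℝ] ℝ) := by
    refine Submodule.topologicalClosure_minimal _ ?_ ζ.isClosed_ker
    refine sup_le (fun f hf => hζF f hf) (Submodule.span_le.2 ?_)
    rintro x ⟨t, ht, rfl⟩
    exact hζa t ⟨t, ht, le_refl _⟩
  have hψ : ψ₁ + ψ₂ ∈ closure W := hWd (G.topologicalClosure.add_mem hψ₁' hψ₂)
  obtain ⟨w, hw, hwd⟩ := Metric.mem_closure_iff.1 hψ η hη
  refine ⟨w, hw, fun x hx => ?_⟩
  have h3 : ζ x = 0 := hker hx
  have h4 : ξ x - w x = (ψ₁ + ψ₂ - w) x := by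
    have h5 : ζ x = ξ x - ψ₁ x - ψ₂ x := rfl
    rw [h5] at h3
    show ξ x - w x = ψ₁ x + ψ₂ x - w x
    linarith
  rw [h4]
  refine le_trans ((ψ₁ + ψ₂ - w).le_opNorm x) ?_
  refine mul_le_mul_of_nonneg_right ?_ (norm_nonneg x)
  rw [← dist_eq_norm]
  exact hwd.le

end abs

open Asp

theorem asp_core {T : Type} [GTree T] (S : Set T) (hS : S.Countable) :
    ∃ W : Set (E →L[ℝ] ℝ), W.Countable ∧ ∀ ξ : E →L[ℝ] ℝ, ∀ η > 0, ∃ w ∈ W,
      ∀ x ∈ (FS ⊔ Submodule.span ℝ {x | ∃ t ∈ S, x = av t}).topologicalClosure,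
        |ξ x - w x| ≤ η * ‖x‖ := by
  classical
  have hφ0 : ∀ u : NR T, ∃ φ : E →L[ℝ] ℝ, ‖φ‖ ≤ 1 ∧ (∀ f ∈ FS, φ f = 0) ∧
      (∀ t, u.1 ≤ t → φ (av t) = 1) ∧ (∀ t, ¬ u.1 ≤ t → φ (av t) = 0) := fun u => exists_phi u.2
  choose φ hφn hφF hφ1 hφ2 using hφ0
  have hV0 : ∀ u : NR T, ∃ 𝒱 : Ultrafilter T,
      (∀ v, v < u.1 → Set.Ico v u.1 ∈ (𝒱 : Filter T)) := fun u => exists_V u.2
  choose 𝒱 h𝒱 using hV0
  have har : av (GTree.root : T) ∈ FS := by
    show ch (GTree.A (GTree.root : T)) ∈ FS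
    rw [GTree.A_root]
    exact ch_mem_FS finite_empty
  exact core_abs (V := E) S hS FS ev norm_ev_le (fun n => ch {n}) (fun f hf => FS_repr hf)
    (fun ξ s => sum_ev_le ξ s) av norm_av_sub_le har φ hφn hφF hφ1 hφ2 𝒱 h𝒱
    (fun ξ h0 μ hμ s => mass_le 𝒱 h𝒱 ξ h0 μ hμ s)

end Pool.Agent.Helper11.GT
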