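import Pool.Agent.Helper11.GT.Basic

/-!
# Separable subspaces have separable duals
-/

set_option autoImplicit false
open Set Filter Topology
namespace Pool.Agent.Helper11.GT

/-- the closed span of the finitely supported sequences and the nodes in `S` -/
noncomputable def ZZ {T : Type} [GTree T] (S : Set T) : Submodule ℝ E :=
  (FS ⊔ Submodule.span ℝ {x | ∃ t ∈ S, x = av t}).topologicalClosure

theorem ZZ_mono {T : Type} [GTree T] {S S' : Set T} (h : S ⊆ S') : ZZ S ≤ ZZ S' := by
  refine closure_sup_le (Submodule.isClosed_topologicalClosure _)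
    (le_trans le_sup_left (Submodule.le_topologicalClosure _)) ?_
  rintro x ⟨t, ht, rfl⟩
  exact Submodule.le_topologicalClosure _
    (Submodule.mem_sup_right (Submodule.subset_span ⟨t, h ht, rfl⟩))

/-- every element of `XX T` is in the closed span of countably many nodes -/
theorem exists_countable_mem_ZZ {T : Type} [GTree T] {x : E} (hx : x ∈ XX T) :
    ∃ S : Set T, S.Countable ∧ x ∈ ZZ S := by
  let K : Submodule ℝ E :=
    { carrier := {x | ∃ S : Set T, S.Countable ∧ x ∈ ZZ S}
      add_mem' := by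
        rintro x y ⟨S, hS, hx⟩ ⟨S', hS', hy⟩
        exact ⟨S ∪ S', hS.union hS', (ZZ _).add_mem (ZZ_mono subset_union_left hx)
          (ZZ_mono subset_union_right hy)⟩
      zero_mem' := ⟨∅, countable_empty, (ZZ _).zero_mem⟩
      smul_mem' := by
        rintro c x ⟨S, hS, hx⟩
        exact ⟨S, hS, (ZZ _).smul_mem c hx⟩ }
  have hK : IsClosed (K : Set E) := by
    rw [← isSeqClosed_iff_isClosed]
    intro u x hu hux
    choose S hS hmem using hu
    refine ⟨⋃ n, S n, countable_iUnion hS, ?_⟩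
    have hcl : IsClosed ((ZZ (⋃ n, S n) : Submodule ℝ E) : Set E) :=
      Submodule.isClosed_topologicalClosure _
    exact hcl.mem_of_tendsto hux
      (Eventually.of_forall fun n => ZZ_mono (subset_iUnion S n) (hmem n))
  have hle : XX T ≤ K := by
    refine closure_sup_le hK ?_ ?_
    · intro f hf
      exact ⟨∅, countable_empty, Submodule.le_topologicalClosure _ (Submodule.mem_sup_left hf)⟩
    · rintro _ ⟨t, rfl⟩
      exact ⟨{t}, countable_singleton t, Submodule.le_topologicalClosure _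
        (Submodule.mem_sup_right (Submodule.subset_span ⟨t, rfl, rfl⟩))⟩
  exact hle hx

theorem asplund_of_core (T : Type) [GTree T]
    (asp_core : ∀ S : Set T, S.Countable → ∃ W : Set (E →L[ℝ] ℝ), W.Countable ∧
      ∀ ξ : E →L[ℝ] ℝ, ∀ η > 0, ∃ w ∈ W,
        ∀ x ∈ (FS ⊔ Submodule.span ℝ {x | ∃ t ∈ S, x = av t}).topologicalClosure,
          |ξ x - w x| ≤ η * ‖x‖) (X : Type) [NormedAddCommGroup X] [NormedSpace ℝ X]
    (i : X →ₗᵢ[ℝ] E) (hi : ∀ x, i x ∈ XX T) (Y : Submodule ℝ X)
    (hY : TopologicalSpace.SeparableSpace Y) :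
    TopologicalSpace.SeparableSpace (Y →L[ℝ] ℝ) := by
  obtain ⟨D, hDc, hDd⟩ := TopologicalSpace.exists_countable_dense Y
  choose S hSc hS using fun y : Y => exists_countable_mem_ZZ (hi y)
  set S' : Set T := ⋃ y ∈ D, S y with hS'
  have hS'c : S'.Countable := hDc.biUnion fun y _ => hSc y
  let j : Y →ₗᵢ[ℝ] E := i.comp Y.subtypeₗᵢ
  have hj : ∀ y : Y, j y = i y := fun y => rfl
  have hmem : ∀ y : Y, j y ∈ ZZ S' := by
    have hcl : IsClosed {y : Y | j y ∈ ZZ S'} :=
      (Submodule.isClosed_topologicalClosure _).preimage j.continuous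
    have hsub : D ⊆ {y : Y | j y ∈ ZZ S'} := fun y hy =>
      ZZ_mono (subset_biUnion_of_mem hy) (hS y)
    exact fun y => (hcl.closure_subset_iff.2 hsub) (hDd y)
  obtain ⟨W, hWc, hW⟩ := asp_core S' hS'c
  refine ⟨⟨(fun w : E →L[ℝ] ℝ => w.comp j.toContinuousLinearMap) '' W, hWc.image _, ?_⟩⟩
  intro φ
  refine (Metric.mem_closure_iff (α := Y →L[ℝ] ℝ)).2 fun ε hε => ?_
  obtain ⟨ξ, hξ, -⟩ := exists_extension_norm_eq (𝕜 := ℝ) (LinearMap.range j.toLinearMap)
    (φ.comp j.equivRange.symm.toContinuousLinearEquiv.toContinuousLinearMap)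
  have hξ' : ∀ y : Y, ξ (j y) = φ y := by
    intro y
    have h1 := hξ (j.equivRange y)
    have h2 : ((j.equivRange y : LinearMap.range j.toLinearMap) : E) = j y := rfl
    rw [h2] at h1
    rw [h1]
    show φ (j.equivRange.symm (j.equivRange y)) = φ y
    rw [LinearIsometryEquiv.symm_apply_apply]
  obtain ⟨w, hw, hwξ⟩ := hW ξ (ε / 2) (by positivity)
  refine ⟨_, ⟨w, hw, rfl⟩, ?_⟩
  have hd : dist φ (w.comp j.toContinuousLinearMap) = ‖φ - w.comp j.toContinuousLinearMap‖ :=
    dist_eq_norm (E := Y →L[ℝ] ℝ) _ _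
  refine lt_of_le_of_lt (hd.le.trans ?_) (half_lt_self hε)
  refine (ContinuousLinearMap.opNorm_le_bound _ (by positivity : 0 ≤ ε / 2) ?_)
  intro y
  have h1 := hwξ (j y) (hmem y)
  rw [hξ' y, j.norm_map] at h1
  exact h1

end Pool.Agent.Helper11.GT
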