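import Pool.Agent.Helper11.GT.ASP1
import Pool.Agent.Helper11.GT.ASP2Pre

/-!
# Separable subspaces have separable duals
-/

set_option autoImplicit false
open Set Filter Topology
namespace Pool.Agent.Helper11.GT

theorem asplund (T : Type) [GTree T] (X : Type) [NormedAddCommGroup X] [NormedSpace ℝ X]
    (i : X →ₗᵢ[ℝ] E) (hi : ∀ x, i x ∈ XX T) (Y : Submodule ℝ X)
    (hY : TopologicalSpace.SeparableSpace Y) :
    TopologicalSpace.SeparableSpace (Y →L[ℝ] ℝ) :=
  asplund_of_core T (fun S hS => asp_core S hS) X i hi Y hY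

end Pool.Agent.Helper11.GT
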