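import Pool.Agent.Helper11.GT.Basic

/-!
# σ-closed orders: a Baire category argument and stabilisation
-/

set_option autoImplicit false
open Set Filter Topology
namespace Pool.Agent.Helper11.GT

theorem baire {P : Type} [Preorder P] (hub : ∀ f : ℕ → P, Monotone f → ∃ b, ∀ n, f n ≤ b)
    {ι : Type} [Countable ι] (U : ι → P → Prop) (hup : ∀ i p q, p ≤ q → U i p → U i q)
    (p₀ : P) (hd : ∀ i p, p₀ ≤ p → ∃ q, p ≤ q ∧ U i q) : ∃ p, p₀ ≤ p ∧ ∀ i, U i p := by
  classical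
  rcases isEmpty_or_nonempty ι with hι | hι
  · exact ⟨p₀, le_rfl, fun i => (hι.false i).elim⟩
  obtain ⟨e, he⟩ := exists_surjective_nat ι
  choose! nx hnx using hd
  let f : ℕ → P := fun n => Nat.rec p₀ (fun n p => nx (e n) p) n
  have hf0 : ∀ n, p₀ ≤ f n := by
    intro n
    induction n with
    | zero => exact le_rfl
    | succ n ih => exact ih.trans (hnx (e n) (f n) ih).1
  have hf : Monotone f := monotone_nat_of_le_succ fun n => (hnx (e n) (f n) (hf0 n)).1
  obtain ⟨b, hb⟩ := hub f hf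
  refine ⟨b, (hf0 0).trans (hb 0), fun i => ?_⟩
  obtain ⟨n, rfl⟩ := he i
  exact hup _ _ _ (hb (n + 1)) (hnx (e n) (f n) (hf0 n)).2

theorem stab {P : Type} [Preorder P] (hub : ∀ f : ℕ → P, Monotone f → ∃ b, ∀ n, f n ≤ b)
    {ι : Type} [Countable ι] {Z : Type} [TopologicalSpace Z] [TopologicalSpace.SeparableSpace Z]
    (J : ι → Z → P → ℝ) (hmono : ∀ i z p q, p ≤ q → J i z p ≤ J i z q)
    (hbd : ∀ i z, ∃ B, ∀ p, J i z p ≤ B) (hcont : ∀ i p, Continuous (fun z => J i z p))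
    (p₀ : P) : ∃ p, p₀ ≤ p ∧ ∀ i z q, p ≤ q → J i z q = J i z p := by
  obtain ⟨S, hSc, hSd⟩ := TopologicalSpace.exists_countable_dense Z
  have : Countable S := hSc.to_subtype
  obtain ⟨p, hp0, hp⟩ := baire hub (ι := ι × S × ℕ)
    (fun k p => ∀ q, p ≤ q → J k.1 k.2.1 q ≤ J k.1 k.2.1 p + 1 / ((k.2.2 : ℝ) + 1))
    (fun k p q hpq hU q' hq' => (hU q' (hpq.trans hq')).trans
      (by have := hmono k.1 k.2.1 p q hpq; linarith)) p₀
    (by
      rintro ⟨i, z, j⟩ p -
      obtain ⟨B, hB⟩ := hbd i z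
      have hne : (J i z '' Ici p).Nonempty := ⟨_, p, self_mem_Ici, rfl⟩
      have hbdd : BddAbove (J i z '' Ici p) := ⟨B, by rintro _ ⟨q, -, rfl⟩; exact hB q⟩
      have hpos : (0 : ℝ) < 1 / ((j : ℝ) + 1) := by positivity
      obtain ⟨_, ⟨q, hq, rfl⟩, hlt⟩ :=
        exists_lt_of_lt_csSup hne (sub_lt_self (sSup (J i z '' Ici p)) hpos)
      refine ⟨q, hq, fun q' hq' => ?_⟩
      have h1 : J i z q' ≤ sSup (J i z '' Ici p) :=
        le_csSup hbdd ⟨q', mem_Ici.2 (le_trans (mem_Ici.1 hq) hq'), rfl⟩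
      simp only
      linarith)
  refine ⟨p, hp0, fun i z q hpq => ?_⟩
  have hcl : IsClosed {z | J i z q = J i z p} := isClosed_eq (hcont i q) (hcont i p)
  have hsub : S ⊆ {z | J i z q = J i z p} := by
    intro z hz
    refine le_antisymm ?_ (hmono i z p q hpq)
    refine le_of_forall_pos_le_add fun ε hε => ?_
    obtain ⟨n, hn⟩ := exists_nat_one_div_lt hε
    exact (hp (i, ⟨z, hz⟩, n) q hpq).trans (by simp only; linarith)
  have := hcl.closure_subset_iff.2 hsub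
  exact this (hSd z)

end Pool.Agent.Helper11.GT
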