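import Pool.Agent.Helper11.GT.Defs

/-!
# Basic facts
-/

set_option autoImplicit false

open Set Filter Topology

namespace Pool.Agent.Helper11.GT

/-! ## finite modifications -/

lemma sub_tl_mem_FS (m : ℕ) (f : E) : f - tl m f ∈ FS := by
  refine ⟨m, fun k hk => ?_⟩
  rw [BoundedContinuousFunction.sub_apply, tl_apply, if_pos hk, sub_self]

lemma norm_tl_le (m : ℕ) (f : E) : ‖tl m f‖ ≤ ‖f‖ := by
  rw [BoundedContinuousFunction.norm_le (norm_nonneg f)]
  intro k
  rw [tl_apply]
  by_cases h : m ≤ k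
  · rw [if_pos h]; exact f.norm_coe_le_norm k
  · rw [if_neg h, norm_zero]; exact norm_nonneg f

lemma tl_add (m : ℕ) (f g : E) : tl m (f + g) = tl m f + tl m g := by
  ext k
  simp only [tl_apply, BoundedContinuousFunction.add_apply]
  split_ifs <;> simp

lemma tl_smul (m : ℕ) (c : ℝ) (f : E) : tl m (c • f) = c • tl m f := by
  ext k
  have h1 : (c • f) k = c * f k := rfl
  have h2 : (c • tl m f) k = c * tl m f k := rfl
  rw [tl_apply, h1, h2, tl_apply]
  split_ifs <;> simp

lemma tl_sub (m : ℕ) (f g : E) : tl m (f - g) = tl m f - tl m g := by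
  ext k
  simp only [tl_apply, BoundedContinuousFunction.sub_apply]
  split_ifs <;> simp

lemma ch_mem_FS {S : Set ℕ} (h : S.Finite) : ch S ∈ FS := by
  obtain ⟨m, hm⟩ := h.bddAbove
  refine ⟨m + 1, fun k hk => ?_⟩
  rw [ch_apply, indicator_of_notMem]
  intro hk'
  have := hm hk'
  omega

lemma ch_sub_mem_FS {S S' : Set ℕ} (h : (S \ S').Finite) (h' : (S' \ S).Finite) :
    ch S - ch S' ∈ FS := by
  have : ch S - ch S' = ch (S \ S') - ch (S' \ S) := by
    ext k
    simp only [BoundedContinuousFunction.sub_apply, ch_apply]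
    by_cases h1 : k ∈ S <;> by_cases h2 : k ∈ S' <;> simp [h1, h2]
  rw [this]
  exact FS.sub_mem (ch_mem_FS h) (ch_mem_FS h')

/-- mod finite, the difference of the indicators is the indicator of the difference -/
lemma ch_diff_sub_mem_FS {S S' : Set ℕ} (h : (S' \ S).Finite) :
    (ch S - ch S') - ch (S \ S') ∈ FS := by
  have : (ch S - ch S') - ch (S \ S') = - ch (S' \ S) := by
    ext k
    show (ch S k - ch S' k) - ch (S \ S') k = - ch (S' \ S) k
    simp only [ch_apply]
    by_cases h1 : k ∈ S <;> by_cases h2 : k ∈ S' <;> simp [h1, h2]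
  rw [this]
  exact FS.neg_mem (ch_mem_FS h)

variable {T : Type} [GTree T]

lemma av_apply (t : T) (k : ℕ) : av t k = (GTree.A t).indicator (fun _ => (1 : ℝ)) k := rfl

lemma av_nonneg (t : T) (k : ℕ) : 0 ≤ av t k := by
  rw [av_apply]; by_cases h : k ∈ GTree.A t <;> simp [h]

lemma av_le_one (t : T) (k : ℕ) : av t k ≤ 1 := by
  rw [av_apply]; by_cases h : k ∈ GTree.A t <;> simp [h]

lemma norm_av_le (t : T) : ‖av t‖ ≤ 1 := by
  rw [BoundedContinuousFunction.norm_le zero_le_one]
  intro k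
  rw [Real.norm_eq_abs, abs_of_nonneg (av_nonneg t k)]
  exact av_le_one t k

lemma abs_av_sub_le (s t : T) (k : ℕ) : |av s k - av t k| ≤ 1 := by
  have h1 := av_nonneg s k
  have h2 := av_le_one s k
  have h3 := av_nonneg t k
  have h4 := av_le_one t k
  rw [abs_le]; constructor <;> linarith

lemma norm_av_sub_le (s t : T) : ‖av s - av t‖ ≤ 1 := by
  rw [BoundedContinuousFunction.norm_le zero_le_one]
  intro k
  exact abs_av_sub_le s t k

/-! ## the subspaces -/

lemma FS_le_XX : FS ≤ XX T := le_trans le_sup_left (Submodule.le_topologicalClosure _)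
lemma FS_le_YY (s : T) : FS ≤ YY s := le_trans le_sup_left (Submodule.le_topologicalClosure _)
lemma FS_le_XT (t : T) : FS ≤ XT t := le_trans le_sup_left (Submodule.le_topologicalClosure _)
lemma FS_le_XI (t : T) (i : ℕ) : FS ≤ XI t i :=
  le_trans le_sup_left (Submodule.le_topologicalClosure _)

lemma isClosed_XX : IsClosed (XX T : Set E) := Submodule.isClosed_topologicalClosure _
lemma isClosed_YY (s : T) : IsClosed (YY s : Set E) := Submodule.isClosed_topologicalClosure _
lemma isClosed_XT (t : T) : IsClosed (XT t : Set E) := Submodule.isClosed_topologicalClosure _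
lemma isClosed_XI (t : T) (i : ℕ) : IsClosed (XI t i : Set E) :=
  Submodule.isClosed_topologicalClosure _

lemma av_mem_XX (t : T) : av t ∈ XX T :=
  Submodule.le_topologicalClosure _ (Submodule.mem_sup_right (Submodule.subset_span ⟨t, rfl⟩))

lemma av_mem_YY {u s : T} (h : u ≤ s) : av u ∈ YY s :=
  Submodule.le_topologicalClosure _ (Submodule.mem_sup_right (Submodule.subset_span ⟨u, h, rfl⟩))

lemma sub_mem_XT {t r : T} (h : t ≤ r) : av r - av t ∈ XT t :=
  Submodule.le_topologicalClosure _ (Submodule.mem_sup_right (Submodule.subset_span ⟨r, h, rfl⟩))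

lemma sub_mem_XI {t r : T} {i : ℕ} (h : GTree.sc t i ≤ r) : av r - av t ∈ XI t i :=
  Submodule.le_topologicalClosure _ (Submodule.mem_sup_right (Submodule.subset_span ⟨r, h, rfl⟩))

/-- a general principle: closed submodules containing generators -/
lemma closure_sup_le {S : Set E} {K : Submodule ℝ E} (hK : IsClosed (K : Set E)) (hF : FS ≤ K)
    (hS : ∀ x ∈ S, x ∈ K) : (FS ⊔ Submodule.span ℝ S).topologicalClosure ≤ K := by
  refine Submodule.topologicalClosure_minimal _ ?_ hK
  exact sup_le hF (Submodule.span_le.2 hS)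

lemma YY_le_XX (s : T) : YY s ≤ XX T := by
  refine closure_sup_le isClosed_XX FS_le_XX ?_
  rintro x ⟨u, _, rfl⟩
  exact av_mem_XX u

lemma XT_le_XX (t : T) : XT t ≤ XX T := by
  refine closure_sup_le isClosed_XX FS_le_XX ?_
  rintro x ⟨r, _, rfl⟩
  exact (XX T).sub_mem (av_mem_XX r) (av_mem_XX t)

lemma XI_le_XX (t : T) (i : ℕ) : XI t i ≤ XX T := by
  refine closure_sup_le isClosed_XX FS_le_XX ?_
  rintro x ⟨r, _, rfl⟩
  exact (XX T).sub_mem (av_mem_XX r) (av_mem_XX t)

lemma YY_mono {s t : T} (h : s ≤ t) : YY s ≤ YY t := by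
  refine closure_sup_le (isClosed_YY t) (FS_le_YY t) ?_
  rintro x ⟨u, hu, rfl⟩
  exact av_mem_YY (le_trans hu h)

lemma XT_anti {s t : T} (h : s ≤ t) : XT t ≤ XT s := by
  refine closure_sup_le (isClosed_XT s) (FS_le_XT s) ?_
  rintro x ⟨r, hr, rfl⟩
  have h1 := (XT s).sub_mem (sub_mem_XT (le_trans h hr)) (sub_mem_XT h)
  have h2 : av r - av t = (av r - av s) - (av t - av s) := by abel
  rw [h2]; exact h1

lemma XT_sc_le_XI (t : T) (i : ℕ) : XT (GTree.sc t i) ≤ XI t i := by
  refine closure_sup_le (isClosed_XI t i) (FS_le_XI t i) ?_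
  rintro x ⟨r, hr, rfl⟩
  have h1 := (XI t i).sub_mem (sub_mem_XI hr) (sub_mem_XI (le_refl (GTree.sc t i)))
  have h2 : av r - av (GTree.sc t i) = (av r - av t) - (av (GTree.sc t i) - av t) := by abel
  rw [h2]; exact h1

lemma tl_mem {K : Submodule ℝ E} (hF : FS ≤ K) {f : E} (hf : f ∈ K) (m : ℕ) : tl m f ∈ K := by
  have h1 := K.sub_mem hf (hF (sub_tl_mem_FS m f))
  have h2 : f - (f - tl m f) = tl m f := by abel
  rwa [h2] at h1

/-! ## the norm -/

section norm

variable {N : E → ℝ} {m M : ℝ}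

lemma EqN.nonneg (h : EqN T N m M) {x : E} (hx : x ∈ XX T) : 0 ≤ N x :=
  le_trans (mul_nonneg h.mpos.le (norm_nonneg x)) (h.lo x hx)

lemma EqN.Mpos (h : EqN T N m M) : 0 < M := by
  have h1 : ch {0} ∈ XX T := FS_le_XX (ch_mem_FS (finite_singleton 0))
  have h2 : 0 < ‖ch {0}‖ := by
    rw [norm_pos_iff]
    intro h3
    have h4 : ch {0} 0 = 0 := by rw [h3]; rfl
    simp at h4
  have h3 := h.lo _ h1
  have h4 := h.hi _ h1
  have h5 := h.mpos
  by_contra hcon
  have : M * ‖ch {0}‖ ≤ 0 := mul_nonpos_of_nonpos_of_nonneg (not_lt.1 hcon) h2.le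
  have : 0 < m * ‖ch {0}‖ := mul_pos h5 h2
  linarith

lemma EqN.sub_le (h : EqN T N m M) {x y : E} (hx : x ∈ XX T) (hy : y ∈ XX T) :
    N x ≤ N y + M * ‖x - y‖ := by
  have h1 := h.add (x - y) ((XX T).sub_mem hx hy) y hy
  have h2 := h.hi (x - y) ((XX T).sub_mem hx hy)
  rw [sub_add_cancel] at h1
  linarith

lemma EqN.abs_sub_le (h : EqN T N m M) {x y : E} (hx : x ∈ XX T) (hy : y ∈ XX T) :
    |N x - N y| ≤ M * ‖x - y‖ := by
  rw [abs_le]
  have h1 := h.sub_le hx hy
  have h2 := h.sub_le hy hx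
  rw [norm_sub_rev] at h2
  constructor <;> linarith

/-- averages -/
lemma EqN.avg_le (h : EqN T N m M) {L : ℕ} (hL : 0 < L) (y : ℕ → E) (hy : ∀ l, y l ∈ XX T)
    (R : ℝ) (hR : ∀ l, N (y l) ≤ R) :
    N ((L : ℝ)⁻¹ • ∑ l ∈ Finset.range L, y l) ≤ R := by
  have hsum : ∀ n : ℕ, N (∑ l ∈ Finset.range n, y l) ≤ n * R := by
    intro n
    induction n with
    | zero =>
      have h0 := h.hi 0 (XX T).zero_mem
      simp only [norm_zero, mul_zero] at h0
      simpa using h0
    | succ n ih =>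
      rw [Finset.sum_range_succ]
      have h1 := h.add _ ((XX T).sum_mem (fun l (_ : l ∈ Finset.range n) => hy l)) _ (hy n)
      have h2 := hR n
      push_cast
      linarith
  have hL' : (0 : ℝ) < L := by exact_mod_cast hL
  rw [h.smul _ _ ((XX T).sum_mem (fun l _ => hy l)), abs_of_pos (inv_pos.2 hL')]
  have h1 := hsum L
  calc (L : ℝ)⁻¹ * N (∑ l ∈ Finset.range L, y l) ≤ (L : ℝ)⁻¹ * (L * R) :=
        mul_le_mul_of_nonneg_left h1 (inv_pos.2 hL').le
    _ = R := by field_simp

end norm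

end Pool.Agent.Helper11.GT
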