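import Pool.Agent.Helper11.GT.Basic

/-!
# Basic properties of the infima `JJ`
-/

set_option autoImplicit false

open Set Filter Topology

namespace Pool.Agent.Helper11.GT

variable {T : Type} [GTree T]

/-- `FS` is the closed-span-free union of finite dimensional spaces: it is separable -/
lemma sep_FS : ∃ C : Set E, C.Countable ∧ FS = Submodule.span ℝ C := by
  refine ⟨Set.range (fun k : ℕ => ch {k}), Set.countable_range _, ?_⟩
  apply le_antisymm
  · rintro f ⟨m, hm⟩
    have : f = ∑ k ∈ Finset.range m, f k • ch {k} := by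
      ext j
      rw [BoundedContinuousFunction.coe_sum, Finset.sum_apply]
      have h1 : ∀ k, (f k • ch {k}) j = if k = j then f k else 0 := by
        intro k
        show f k * ch {k} j = _
        rw [ch_apply]
        by_cases h : k = j
        · simp [h]
        · have : j ∉ ({k} : Set ℕ) := fun hj => h (by simpa using hj.symm)
          rw [indicator_of_notMem this]
          simp [h]
      rw [Finset.sum_congr rfl (fun k _ => h1 k), Finset.sum_ite_eq' (Finset.range m) j]
      by_cases hj : j ∈ Finset.range m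
      · rw [if_pos hj]
      · rw [if_neg hj]
        exact hm j (by simpa using hj)
    rw [this]
    exact Submodule.sum_mem _ (fun k _ => Submodule.smul_mem _ _ (Submodule.subset_span ⟨k, rfl⟩))
  · rw [Submodule.span_le]
    rintro _ ⟨k, rfl⟩
    exact ch_mem_FS (finite_singleton k)

theorem sep_YY (s : T) : TopologicalSpace.SeparableSpace (YY s) := by
  obtain ⟨C, hC, hFS⟩ := sep_FS
  have hD : {x : E | ∃ u : T, u ≤ s ∧ x = av u}.Countable := by
    have h1 : ((fun u : T => av u) '' (Set.Iic s)).Countable := (GTree.cnt s).image _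
    refine h1.mono ?_
    rintro x ⟨u, hu, rfl⟩
    exact ⟨u, hu, rfl⟩
  have h1 : (YY s : Set E) = closure (Submodule.span ℝ (C ∪ {x : E | ∃ u : T, u ≤ s ∧ x = av u}) : Set E) := by
    rw [Submodule.span_union, ← hFS]
    rfl
  have h2 : TopologicalSpace.IsSeparable (C ∪ {x : E | ∃ u : T, u ≤ s ∧ x = av u}) :=
    (hC.union hD).isSeparable
  have h3 : TopologicalSpace.IsSeparable (YY s : Set E) := by
    rw [h1]
    exact (TopologicalSpace.IsSeparable.span (R := ℝ) h2).closure
  exact h3.separableSpace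

section JB

variable {N : E → ℝ} {m M : ℝ}

theorem Cls_mem_XX {n : ℕ} {α g : E} {c : ℝ} {t : T} (hg : g ∈ XX T) {y : E}
    (hy : y ∈ Cls n α g c t) : y ∈ XX T := by
  have h1 := XT_le_XX t hy.1
  have h2 : y = (y - g - c • av t) + g + c • av t := by abel
  rw [h2]
  exact (XX T).add_mem ((XX T).add_mem h1 hg) ((XX T).smul_mem _ (av_mem_XX t))

theorem Cls_anti {n : ℕ} {α g : E} {c : ℝ} {t t' : T} (h : t ≤ t') :
    Cls n α g c t' ⊆ Cls n α g c t := by
  rintro y ⟨h1, h2⟩
  refine ⟨?_, h2⟩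
  have h3 := XT_anti h h1
  have h4 : y - g - c • av t = (y - g - c • av t') + c • (av t' - av t) := by
    rw [smul_sub]; abel
  rw [h4]
  exact (XT t).add_mem h3 ((XT t).smul_mem _ (sub_mem_XT h))

/-- the canonical element of the class -/
theorem exists_Cls (n : ℕ) (α g : E) (c : ℝ) (t : T) :
    ∃ y ∈ Cls n α g c t, ‖y‖ ≤ ‖α‖ + ‖g‖ + |c| := by
  refine ⟨tl n (g + c • av t) + (α - tl n α), ⟨?_, ?_⟩, ?_⟩
  · have h1 : tl n (g + c • av t) + (α - tl n α) - g - c • av t
        = (α - tl n α) - ((g + c • av t) - tl n (g + c • av t)) := by abel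
    rw [h1]
    exact FS_le_XT t (FS.sub_mem (sub_tl_mem_FS n α) (sub_tl_mem_FS n _))
  · intro k hk
    rw [BoundedContinuousFunction.add_apply, BoundedContinuousFunction.sub_apply, tl_apply,
      tl_apply, if_neg (not_le.2 hk), if_neg (not_le.2 hk)]
    ring
  · rw [BoundedContinuousFunction.norm_le (by positivity)]
    intro k
    rw [BoundedContinuousFunction.add_apply, BoundedContinuousFunction.sub_apply, tl_apply,
      tl_apply]
    by_cases h : n ≤ k
    · rw [if_pos h, if_pos h, sub_self, add_zero]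
      have h1 : ‖(g + c • av t) k‖ ≤ ‖g + c • av t‖ :=
        BoundedContinuousFunction.norm_coe_le_norm _ k
      have h2 : ‖g + c • av t‖ ≤ ‖g‖ + |c| := by
        refine (norm_add_le _ _).trans ?_
        rw [norm_smul, Real.norm_eq_abs]
        have := mul_le_mul_of_nonneg_left (norm_av_le t) (abs_nonneg c)
        linarith
      have := norm_nonneg α
      linarith
    · rw [if_neg h, if_neg h, sub_zero, zero_add]
      have h1 : ‖α k‖ ≤ ‖α‖ := α.norm_coe_le_norm k
      have h2 := norm_nonneg g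
      have h3 := abs_nonneg c
      linarith

lemma bddBelow_image (h : EqN T N m M) {n : ℕ} {α g : E} {c : ℝ} {t : T} (hg : g ∈ XX T) :
    BddBelow (N '' Cls n α g c t) := by
  refine ⟨0, ?_⟩
  rintro _ ⟨y, hy, rfl⟩
  exact h.nonneg (Cls_mem_XX hg hy)

lemma nonempty_image (n : ℕ) (α g : E) (c : ℝ) (t : T) :
    (N '' Cls n α g c t).Nonempty := by
  obtain ⟨y, hy, _⟩ := exists_Cls n α g c t
  exact ⟨N y, y, hy, rfl⟩

theorem JJ_le_N (h : EqN T N m M) {n : ℕ} {α g : E} {c : ℝ} {t : T} (hg : g ∈ XX T) {y : E}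
    (hy : y ∈ Cls n α g c t) : JJ N n α g c t ≤ N y :=
  csInf_le (bddBelow_image h hg) ⟨y, hy, rfl⟩

theorem JJ_nonneg (h : EqN T N m M) {n : ℕ} {α g : E} {c : ℝ} {t : T} (hg : g ∈ XX T) :
    0 ≤ JJ N n α g c t := by
  refine le_csInf (nonempty_image n α g c t) ?_
  rintro _ ⟨y, hy, rfl⟩
  exact h.nonneg (Cls_mem_XX hg hy)

theorem exists_Cls_lt (_h : EqN T N m M) {n : ℕ} {α g : E} {c : ℝ} {t : T} (_hg : g ∈ XX T)
    {R : ℝ} (hR : JJ N n α g c t < R) : ∃ y ∈ Cls n α g c t, N y < R := by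
  obtain ⟨_, ⟨y, hy, rfl⟩, h2⟩ := exists_lt_of_csInf_lt (nonempty_image n α g c t) hR
  exact ⟨y, hy, h2⟩

theorem JJ_mono (h : EqN T N m M) {n : ℕ} {α g : E} {c : ℝ} {t t' : T} (hg : g ∈ XX T)
    (htt : t ≤ t') : JJ N n α g c t ≤ JJ N n α g c t' := by
  refine le_csInf (nonempty_image n α g c t') ?_
  rintro _ ⟨y, hy, rfl⟩
  exact JJ_le_N h hg (Cls_anti htt hy)

theorem JJ_bdd (h : EqN T N m M) {n : ℕ} {α g : E} {c : ℝ} {t : T} (hg : g ∈ XX T) :
    JJ N n α g c t ≤ M * (‖α‖ + ‖g‖ + |c|) := by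
  obtain ⟨y, hy, hy2⟩ := exists_Cls n α g c t
  refine (JJ_le_N h hg hy).trans ((h.hi y (Cls_mem_XX hg hy)).trans ?_)
  exact mul_le_mul_of_nonneg_left hy2 h.Mpos.le

theorem JJ_lip (h : EqN T N m M) {n : ℕ} {α g α' g' : E} {c c' : ℝ} {t : T} (hg : g ∈ XX T)
    (hg' : g' ∈ XX T) :
    JJ N n α g c t ≤ JJ N n α' g' c' t + M * (‖α - α'‖ + 2 * ‖g - g'‖ + 2 * |c - c'|) := by
  rw [← sub_le_iff_le_add]
  refine le_csInf (nonempty_image n α' g' c' t) ?_
  rintro _ ⟨y, hy, rfl⟩
  rw [sub_le_iff_le_add]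
  -- the corrected element
  have hyX := Cls_mem_XX hg' hy
  set w : E := tl n ((g - g') + (c - c') • av t) + ((α - α') - tl n (α - α')) with hw
  have hmem : y + w ∈ Cls n α g c t := by
    refine ⟨?_, ?_⟩
    · have h1 : y + w - g - c • av t = (y - g' - c' • av t)
          + (((α - α') - tl n (α - α'))
            - (((g - g') + (c - c') • av t) - tl n ((g - g') + (c - c') • av t))) := by
        have h0 : (c - c') • av t = c • av t - c' • av t := sub_smul c c' (av t)
        rw [hw, h0]; abel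
      rw [h1]
      exact (XT t).add_mem hy.1 (FS_le_XT t (FS.sub_mem (sub_tl_mem_FS n _) (sub_tl_mem_FS n _)))
    · intro k hk
      rw [hw, BoundedContinuousFunction.add_apply, BoundedContinuousFunction.add_apply,
        BoundedContinuousFunction.sub_apply, BoundedContinuousFunction.sub_apply, tl_apply,
        tl_apply, if_neg (not_le.2 hk), if_neg (not_le.2 hk), hy.2 k hk]
      ring
  have h1 := JJ_le_N h hg hmem
  have h2 := h.sub_le (Cls_mem_XX hg hmem) hyX
  have h3 : y + w - y = w := by abel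
  rw [h3] at h2
  have h4 : ‖w‖ ≤ ‖α - α'‖ + 2 * ‖g - g'‖ + 2 * |c - c'| := by
    have h5 : ‖w‖ ≤ ‖tl n ((g - g') + (c - c') • av t)‖ + ‖(α - α') - tl n (α - α')‖ :=
      norm_add_le _ _
    have h6 : ‖tl n ((g - g') + (c - c') • av t)‖ ≤ ‖g - g'‖ + |c - c'| := by
      refine (norm_tl_le _ _).trans ((norm_add_le _ _).trans ?_)
      rw [norm_smul, Real.norm_eq_abs]
      have := mul_le_mul_of_nonneg_left (norm_av_le t) (abs_nonneg (c - c'))
      linarith
    have h7 : ‖(α - α') - tl n (α - α')‖ ≤ ‖α - α'‖ := by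
      rw [BoundedContinuousFunction.norm_le (norm_nonneg _)]
      intro k
      rw [BoundedContinuousFunction.sub_apply, tl_apply]
      by_cases hk : n ≤ k
      · rw [if_pos hk, sub_self, norm_zero]; exact norm_nonneg _
      · rw [if_neg hk, sub_zero]; exact BoundedContinuousFunction.norm_coe_le_norm _ k
    have h8 := norm_nonneg (g - g')
    have h9 := abs_nonneg (c - c')
    linarith
  have h5 := mul_le_mul_of_nonneg_left h4 h.Mpos.le
  linarith

theorem St.mono {s t t' : T} (h : St N s t) (htt : t ≤ t') : St N s t' := by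
  refine ⟨le_trans h.1 htt, fun n α g c hα hg t'' ht'' => ?_⟩
  rw [h.2 n α g c hα hg t'' (le_trans htt ht''), h.2 n α g c hα hg t' htt]

theorem JJ_cont (h : EqN T N m M) (s : T) (n : ℕ) (t : T) :
    Continuous (fun z : (YY s) × (YY s) × ℝ => JJ N n (z.1 : E) (z.2.1 : E) z.2.2 t) := by
  rw [continuous_iff_continuousAt]
  intro z
  rw [ContinuousAt, Metric.tendsto_nhds]
  intro ε hε
  have hM := h.Mpos
  rw [Metric.eventually_nhds_iff]
  refine ⟨ε / (5 * M + 1), by positivity, fun z' hz' => ?_⟩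
  have hd : M * (5 * dist z' z) < ε := by
    have h1 : (5 * M + 1) * dist z' z < ε := by
      rwa [lt_div_iff₀ (by positivity), mul_comm] at hz'
    have h2 : 0 ≤ dist z' z := dist_nonneg
    nlinarith
  have e1 : ‖(z'.1 : E) - (z.1 : E)‖ ≤ dist z' z := by
    have : dist z'.1 z.1 ≤ dist z' z := le_max_left _ _
    rwa [Subtype.dist_eq, dist_eq_norm] at this
  have e2 : ‖(z'.2.1 : E) - (z.2.1 : E)‖ ≤ dist z' z := by
    have : dist z'.2.1 z.2.1 ≤ dist z' z := (le_max_left _ _).trans (le_max_right _ _)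
    rwa [Subtype.dist_eq, dist_eq_norm] at this
  have e3 : |z'.2.2 - z.2.2| ≤ dist z' z := by
    have : dist z'.2.2 z.2.2 ≤ dist z' z := (le_max_right _ _).trans (le_max_right _ _)
    rwa [Real.dist_eq] at this
  have g1 : (z'.2.1 : E) ∈ XX T := YY_le_XX s z'.2.1.2
  have g2 : (z.2.1 : E) ∈ XX T := YY_le_XX s z.2.1.2
  have k1 := JJ_lip h (n := n) (α := (z'.1 : E)) (α' := (z.1 : E)) (c := z'.2.2) (c' := z.2.2)
    (t := t) g1 g2
  have k2 := JJ_lip h (n := n) (α := (z.1 : E)) (α' := (z'.1 : E)) (c := z.2.2) (c' := z'.2.2)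
    (t := t) g2 g1
  rw [norm_sub_rev (z.1 : E), norm_sub_rev (z.2.1 : E), abs_sub_comm z.2.2] at k2
  have k3 : M * (‖(z'.1 : E) - (z.1 : E)‖ + 2 * ‖(z'.2.1 : E) - (z.2.1 : E)‖
      + 2 * |z'.2.2 - z.2.2|) ≤ M * (5 * dist z' z) := by
    refine mul_le_mul_of_nonneg_left ?_ hM.le
    linarith
  rw [Real.dist_eq, abs_lt]
  constructor <;> linarith

end JB

end Pool.Agent.Helper11.GT
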