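import Pool.Agent.Helper11.GT.W
import Pool.Agent.Helper11.GT.JB

/-!
# Module CLAIM1
-/

set_option autoImplicit false

open Set Filter Topology

namespace Pool.Agent.Helper11.GT

/-! ## the `ℓ_1` part of a functional -/

lemma cut_eq_sum (n : ℕ) (f : E) :
    f - tl n f = ∑ k ∈ Finset.range n, f k • ch {k} := by
  ext j
  have hsum : (∑ k ∈ Finset.range n, f k • ch {k}) j
      = ∑ k ∈ Finset.range n, (f k • ch {k}) j := by
    rw [BoundedContinuousFunction.coe_sum, Finset.sum_apply]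
  rw [hsum, BoundedContinuousFunction.sub_apply, tl_apply]
  have hterm : ∀ k ∈ Finset.range n, (f k • ch {k}) j = if k = j then f j else 0 := by
    intro k _
    show f k * ch {k} j = _
    rw [ch_apply]
    by_cases hkj : k = j
    · subst hkj
      simp
    · have : j ∉ ({k} : Set ℕ) := fun h => hkj (Set.mem_singleton_iff.1 h).symm
      rw [indicator_of_notMem this, mul_zero, if_neg hkj]
  rw [Finset.sum_congr rfl hterm, Finset.sum_ite_eq']
  by_cases hj : n ≤ j
  · have : j ∉ Finset.range n := by simpa using hj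
    rw [if_pos hj, if_neg this, sub_self]
  · have : j ∈ Finset.range n := by simpa using hj
    rw [if_neg hj, if_pos this, sub_zero]

lemma map_cut (ξ : E →L[ℝ] ℝ) (n : ℕ) (f : E) :
    ξ (f - tl n f) = ∑ k ∈ Finset.range n, f k * ξ (ch {k}) := by
  rw [cut_eq_sum, map_sum]
  refine Finset.sum_congr rfl fun k _ => ?_
  rw [map_smul, smul_eq_mul]

/-- the bounded sequence of signs -/
noncomputable def sg (μ : ℕ → ℝ) : E :=
  BoundedContinuousFunction.ofNormedAddCommGroupDiscrete (fun k => (SignType.sign (μ k) : ℝ)) 1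
    (by
      intro k
      rcases lt_trichotomy (μ k) 0 with h | h | h
      · simp [sign_neg h]
      · simp [h]
      · simp [sign_pos h])

lemma sg_apply (μ : ℕ → ℝ) (k : ℕ) : sg μ k = (SignType.sign (μ k) : ℝ) := rfl

lemma norm_cut_le (n : ℕ) (f : E) : ‖f - tl n f‖ ≤ ‖f‖ := by
  rw [BoundedContinuousFunction.norm_le (norm_nonneg f)]
  intro k
  rw [BoundedContinuousFunction.sub_apply, tl_apply]
  by_cases h : n ≤ k
  · rw [if_pos h, sub_self, norm_zero]; exact norm_nonneg f
  · rw [if_neg h, sub_zero]; exact f.norm_coe_le_norm k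

lemma sum_abs_le (ξ : E →L[ℝ] ℝ) (n : ℕ) :
    ∑ k ∈ Finset.range n, |ξ (ch {k})| ≤ ‖ξ‖ := by
  have h1 := map_cut ξ n (sg (fun k => ξ (ch {k})))
  have h2 : ∑ k ∈ Finset.range n, sg (fun k => ξ (ch {k})) k * ξ (ch {k})
      = ∑ k ∈ Finset.range n, |ξ (ch {k})| := by
    refine Finset.sum_congr rfl fun k _ => ?_
    rw [sg_apply]
    exact sign_mul_self (ξ (ch {k}))
  rw [h2] at h1
  rw [← h1]
  refine le_trans (le_abs_self _) ?_
  rw [← Real.norm_eq_abs]
  refine le_trans (ξ.le_opNorm _) ?_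
  have h3 : ‖sg (fun k => ξ (ch {k}))‖ ≤ 1 := by
    rw [BoundedContinuousFunction.norm_le zero_le_one]
    intro k
    rw [sg_apply, Real.norm_eq_abs]
    rcases lt_trichotomy (ξ (ch {k})) 0 with h | h | h
    · simp [sign_neg h]
    · simp [h]
    · simp [sign_pos h]
  calc ‖ξ‖ * _ ≤ ‖ξ‖ * 1 :=
        mul_le_mul_of_nonneg_left (le_trans (norm_cut_le _ _) h3) (norm_nonneg ξ)
    _ = ‖ξ‖ := mul_one _

lemma summable_abs (ξ : E →L[ℝ] ℝ) : Summable (fun k => |ξ (ch {k})|) :=
  summable_of_sum_range_le (fun _ => abs_nonneg _) (sum_abs_le ξ)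

/-! ## one-sided derivative estimates -/

lemma eventually_of_deriv {φ : ℝ → ℝ} {a e : ℝ} (hφ : HasDerivAt φ a 0) (he : 0 < e) :
    ∃ δ₀ : ℝ, 0 < δ₀ ∧ ∀ δ : ℝ, |δ| ≤ δ₀ → |φ δ - φ 0 - δ * a| ≤ e * |δ| := by
  have h1 := hφ.isLittleO
  have h2 := (Asymptotics.isLittleO_iff.1 h1) he
  rw [Metric.eventually_nhds_iff] at h2
  obtain ⟨r, hr, h3⟩ := h2
  refine ⟨r / 2, by positivity, fun δ hδ => ?_⟩
  have h4 := h3 (y := δ) (by rw [Real.dist_eq, sub_zero]; linarith)
  simp only [Real.norm_eq_abs, sub_zero, smul_eq_mul] at h4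
  exact h4

variable {T : Type} [GTree T]

section JB
variable {N : E → ℝ} {m M : ℝ}

/-- the gradient inequality -/
lemma grad_le (h : EqN T N m M) {z x : E} (hz : z ∈ XX T) (hx : x ∈ XX T) {a : ℝ}
    (hd : HasDerivAt (fun r : ℝ => N (z + r • x)) a 0) : N z + a ≤ N (z + x) := by
  refine le_of_forall_pos_le_add fun e he => ?_
  obtain ⟨δ₀, hδ₀, h1⟩ := eventually_of_deriv hd he
  set δ := min δ₀ 1 with hδ
  have hδpos : 0 < δ := lt_min hδ₀ one_pos
  have hδ1 : δ ≤ 1 := min_le_right _ _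
  have h2 := h1 δ (by rw [abs_of_pos hδpos]; exact min_le_left _ _)
  simp only [zero_smul, add_zero] at h2
  rw [abs_of_pos hδpos] at h2
  have h3 := (abs_le.1 h2).1
  have h4 : z + δ • x = (1 - δ) • z + δ • (z + x) := by
    ext k
    show z k + δ * x k = (1 - δ) * z k + δ * (z k + x k)
    ring
  have h5 : N (z + δ • x) ≤ (1 - δ) * N z + δ * N (z + x) := by
    rw [h4]
    refine le_trans (h.add _ ((XX T).smul_mem _ hz) _ ((XX T).smul_mem _ ((XX T).add_mem hz hx))) ?_
    rw [h.smul _ _ hz, h.smul _ _ ((XX T).add_mem hz hx), abs_of_pos hδpos,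
      abs_of_nonneg (by linarith : (0 : ℝ) ≤ 1 - δ)]
  have h6 : δ * (N z + a) ≤ δ * (N (z + x) + e) := by nlinarith
  exact le_of_mul_le_mul_left h6 hδpos

/-- the key lower bound -/
lemma claim1_aux (h : EqN T N m M) {s s' t : T} {z g : E} {c : ℝ} (hs : St N s s')
    (ht : s' ≤ t) (hg : g ∈ YY s) (hz : z = g + c • av t) (ξ : E →L[ℝ] ℝ)
    (hξ : ∀ x ∈ XX T, HasDerivAt (fun r : ℝ => N (z + r • x)) (ξ x) 0) (p : ℕ) {θ : ℝ}
    (hθ : 0 < θ) :
    N z - θ * ∑' k, |ξ (ch {k + p})| ≤ N (z + (-θ) • tl p (av t - av s')) := by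
  set v : E := tl p (av t - av s') with hv
  set w : E := z + (-θ) • v with hw
  have hgX : g ∈ XX T := YY_le_XX s hg
  have hzX : z ∈ XX T := by
    rw [hz]; exact (XX T).add_mem hgX ((XX T).smul_mem _ (av_mem_XX t))
  have hvT : v ∈ XT s' := tl_mem (FS_le_XT s') (sub_mem_XT ht) p
  have hwX : w ∈ XX T :=
    (XX T).add_mem hzX ((XX T).smul_mem _ (XT_le_XX s' hvT))
  -- the approximating vectors
  have hex : ∀ n : ℕ, ∃ y : E, y ∈ Cls n (w - tl n w) g c (GTree.sc t n) ∧
      N y < N w + 1 / ((n : ℝ) + 1) := by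
    intro n
    have hmem : w ∈ Cls n (w - tl n w) g c s' := by
      refine ⟨?_, fun k hk => ?_⟩
      · have h1 : w - g - c • av s' = c • (av t - av s') + (-θ) • v := by
          rw [hw, hz, smul_sub]; abel
        rw [h1]
        exact (XT s').add_mem ((XT s').smul_mem _ (sub_mem_XT ht)) ((XT s').smul_mem _ hvT)
      · rw [BoundedContinuousFunction.sub_apply, tl_apply, if_neg (not_le.2 hk), sub_zero]
    have h1 : JJ N n (w - tl n w) g c s' ≤ N w := JJ_le_N h hgX hmem
    have h2 : JJ N n (w - tl n w) g c (GTree.sc t n) = JJ N n (w - tl n w) g c s' :=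
      hs.2 n _ g c (FS_le_YY s (sub_tl_mem_FS n w)) hg _ (le_trans ht (GTree.lt_sc t n).le)
    have h3 : JJ N n (w - tl n w) g c (GTree.sc t n) < N w + 1 / ((n : ℝ) + 1) := by
      rw [h2]
      have : (0 : ℝ) < 1 / ((n : ℝ) + 1) := by positivity
      linarith
    exact exists_Cls_lt h hgX h3
  choose y hyC hyN using hex
  have hyX : ∀ n, y n ∈ XX T := fun n => Cls_mem_XX hgX (hyC n)
  set f : ℕ → E := fun n => tl n (y n - z) with hf
  have hyI : ∀ n, y n - z ∈ XI t n := by
    intro n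
    have h1 : y n - z = (y n - g - c • av (GTree.sc t n)) + c • (av (GTree.sc t n) - av t) := by
      rw [hz, smul_sub]; abel
    rw [h1]
    exact (XI t n).add_mem (XT_sc_le_XI t n (hyC n).1)
      ((XI t n).smul_mem _ (sub_mem_XI (le_refl _)))
  have hfI : ∀ n, f n ∈ XI t (id n) := fun n => tl_mem (FS_le_XI t n) (hyI n) n
  have hbound : ∀ n, ‖f n‖ ≤ (N w + 1) / m + ‖z‖ := by
    intro n
    have h1 : ‖f n‖ ≤ ‖y n - z‖ := norm_tl_le _ _
    have h2 : ‖y n - z‖ ≤ ‖y n‖ + ‖z‖ := norm_sub_le _ _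
    have h3 := h.lo _ (hyX n)
    have h4 := hyN n
    have h5 : (1 : ℝ) / ((n : ℝ) + 1) ≤ 1 := by
      rw [div_le_one (by positivity)]
      have : (0 : ℝ) ≤ n := Nat.cast_nonneg n
      linarith
    have h6 : ‖y n‖ ≤ (N w + 1) / m := by
      rw [le_div_iff₀ h.mpos]; linarith
    linarith
  have hzero : ∀ n, ∀ k < n, f n k = 0 := by
    intro n k hk
    show tl n (y n - z) k = 0
    rw [tl_apply, if_neg (not_le.2 hk)]
  have hlim : Tendsto (fun n => ξ (f n)) atTop (𝓝 0) :=
    weak_null (i := id) Function.injective_id ξ f hfI hbound hzero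
  have hkey : ∀ n, N z + ξ (f n) - θ * ∑' k, |ξ (ch {k + p})| ≤ N w + 1 / ((n : ℝ) + 1) := by
    intro n
    have h1 : N z + ξ (y n - z) ≤ N (z + (y n - z)) :=
      grad_le h hzX ((XX T).sub_mem (hyX n) hzX) (hξ _ ((XX T).sub_mem (hyX n) hzX))
    have h2 : z + (y n - z) = y n := by abel
    rw [h2] at h1
    have h3 : y n - z = f n + ((-θ) • v - tl n ((-θ) • v)) := by
      ext k
      show (y n - z) k = tl n (y n - z) k + (((-θ) • v) k - tl n ((-θ) • v) k)
      rw [tl_apply, tl_apply]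
      by_cases hk : n ≤ k
      · rw [if_pos hk, if_pos hk]; ring
      · rw [if_neg hk, if_neg hk]
        have h4 := (hyC n).2 k (not_le.1 hk)
        rw [BoundedContinuousFunction.sub_apply, tl_apply, if_neg hk, sub_zero] at h4
        rw [BoundedContinuousFunction.sub_apply, h4, hw, BoundedContinuousFunction.add_apply]
        ring
    have h4 : ξ (y n - z) = ξ (f n) + ∑ k ∈ Finset.range n, ((-θ) • v) k * ξ (ch {k}) := by
      rw [h3, map_add, map_cut]
    have h5 : -(θ * ∑' k, |ξ (ch {k + p})|) ≤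
        ∑ k ∈ Finset.range n, ((-θ) • v) k * ξ (ch {k}) := by
      have h6 : ∀ k ∈ Finset.range n, -(θ * (if p ≤ k then |ξ (ch {k})| else 0)) ≤
          ((-θ) • v) k * ξ (ch {k}) := by
        intro k _
        have h7 : ((-θ) • v) k = -θ * v k := rfl
        rw [h7, hv, tl_apply]
        by_cases hk : p ≤ k
        · rw [if_pos hk, if_pos hk]
          have h8 : |(av t - av s') k * ξ (ch {k})| ≤ |ξ (ch {k})| := by
            rw [abs_mul]
            have h9 : |(av t - av s') k| ≤ 1 := by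
              rw [BoundedContinuousFunction.sub_apply]; exact abs_av_sub_le t s' k
            calc _ ≤ 1 * |ξ (ch {k})| := mul_le_mul_of_nonneg_right h9 (abs_nonneg _)
              _ = _ := one_mul _
          have h10 := (abs_le.1 h8).2
          nlinarith
        · rw [if_neg hk, if_neg hk]; simp
      refine le_trans ?_ (Finset.sum_le_sum h6)
      rw [Finset.sum_neg_distrib, ← Finset.mul_sum]
      refine neg_le_neg (mul_le_mul_of_nonneg_left ?_ hθ.le)
      have hsm : Summable (fun k => |ξ (ch {k + p})|) :=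
        (summable_nat_add_iff p).2 (summable_abs ξ)
      have h11 : ∑ k ∈ Finset.range n, (if p ≤ k then |ξ (ch {k})| else 0)
          ≤ ∑ k ∈ Finset.range n, |ξ (ch {k + p})| := by
        rcases le_total n p with hnp | hnp
        · refine Finset.sum_le_sum fun k hk => ?_
          have : ¬ p ≤ k := by
            have := Finset.mem_range.1 hk; omega
          rw [if_neg this]; exact abs_nonneg _
        · obtain ⟨d, rfl⟩ := Nat.exists_eq_add_of_le hnp
          rw [Finset.sum_range_add]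
          have h12 : ∑ k ∈ Finset.range p, (if p ≤ k then |ξ (ch {k})| else 0) = 0 := by
            refine Finset.sum_eq_zero fun k hk => ?_
            have : ¬ p ≤ k := by
              have := Finset.mem_range.1 hk; omega
            rw [if_neg this]
          rw [h12, zero_add]
          have h13 : ∑ k ∈ Finset.range d, (if p ≤ p + k then |ξ (ch {p + k})| else 0)
              = ∑ k ∈ Finset.range d, |ξ (ch {k + p})| := by
            refine Finset.sum_congr rfl fun k _ => ?_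
            rw [if_pos (Nat.le_add_right p k), add_comm p k]
          rw [h13]
          refine Finset.sum_le_sum_of_subset_of_nonneg ?_ fun _ _ _ => abs_nonneg _
          intro k hk
          simp only [Finset.mem_range] at hk ⊢
          omega
      exact le_trans h11 (hsm.sum_le_tsum _ (fun _ _ => abs_nonneg _))
    have h6 := hyN n
    linarith
  have hlim1 : Tendsto (fun n : ℕ => N z + ξ (f n) - θ * ∑' k, |ξ (ch {k + p})|) atTop
      (𝓝 (N z + 0 - θ * ∑' k, |ξ (ch {k + p})|)) :=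
    (hlim.const_add (N z)).sub_const _
  have hlim2 : Tendsto (fun n : ℕ => N w + 1 / ((n : ℝ) + 1)) atTop (𝓝 (N w + 0)) :=
    (tendsto_one_div_add_atTop_nhds_zero_nat).const_add (N w)
  have h1 := le_of_tendsto_of_tendsto' hlim1 hlim2 hkey
  rw [add_zero, add_zero] at h1
  exact h1

theorem claim1 (h : EqN T N m M) {s s' t : T} {z g : E} {c : ℝ} (hs : St N s s')
    (ht : s' ≤ t) (hg : g ∈ YY s) (hz : z = g + c • av t) (ξ : E →L[ℝ] ℝ)
    (hξ : ∀ x ∈ XX T, HasDerivAt (fun r : ℝ => N (z + r • x)) (ξ x) 0) {ε : ℝ} (hε : 0 < ε) :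
    ∃ (p : ℕ) (δ₀ : ℝ), 0 < δ₀ ∧ ∀ δ, 0 < δ → δ ≤ δ₀ →
      N (z + δ • tl p (av t - av s')) ≤ N z + ε * δ := by
  -- choose `p`
  have htail : Tendsto (fun p : ℕ => ∑' k, |ξ (ch {k + p})|) atTop (𝓝 0) :=
    tendsto_sum_nat_add (fun k => |ξ (ch {k})|)
  obtain ⟨p, hp⟩ := (htail.eventually (gt_mem_nhds (by positivity : (0 : ℝ) < ε / 2))).exists
  have hvX : tl p (av t - av s') ∈ XX T :=
    XT_le_XX s' (tl_mem (FS_le_XT s') (sub_mem_XT ht) p)
  have hd := hξ _ hvX
  -- the derivative is at most the tail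
  have hle : ξ (tl p (av t - av s')) ≤ ∑' k, |ξ (ch {k + p})| := by
    refine le_of_forall_pos_le_add fun e he => ?_
    obtain ⟨δ₀, hδ₀, h1⟩ := eventually_of_deriv hd he
    have h2 := h1 (-δ₀) (by rw [abs_neg, abs_of_pos hδ₀])
    simp only [zero_smul, add_zero] at h2
    rw [abs_neg, abs_of_pos hδ₀] at h2
    have h3 := (abs_le.1 h2).2
    have h4 := claim1_aux h hs ht hg hz ξ hξ p hδ₀
    have h5 : δ₀ * ξ (tl p (av t - av s')) ≤ δ₀ * (∑' k, |ξ (ch {k + p})| + e) := by
      nlinarith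
    exact le_of_mul_le_mul_left h5 hδ₀
  obtain ⟨δ₀, hδ₀, h1⟩ := eventually_of_deriv hd (by positivity : (0 : ℝ) < ε / 2)
  refine ⟨p, δ₀, hδ₀, fun δ hδ hδ' => ?_⟩
  have h2 := h1 δ (by rw [abs_of_pos hδ]; exact hδ')
  simp only [zero_smul, add_zero] at h2
  rw [abs_of_pos hδ] at h2
  have h3 := (abs_le.1 h2).2
  nlinarith

end JB

end Pool.Agent.Helper11.GT
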