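import Pool.Agent.Helper11.GT.Basic

/-!
# Module W: different successors are almost disjoint; bounded 'transversal' sequences are
weakly null.
-/

set_option autoImplicit false

open Set Filter Topology

namespace Pool.Agent.Helper11.GT

/-- Supports of elements of a closed span lie in an ideal if those of the generators do. -/
lemma ideal_closure (I : Set ℕ → Prop) (hfin : ∀ S : Set ℕ, S.Finite → I S)
    (hsub : ∀ S S' : Set ℕ, S ⊆ S' → I S' → I S)
    (hun : ∀ S S' : Set ℕ, I S → I S' → I (S ∪ S')) (Gen : Set E)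
    (hg : ∀ x ∈ Gen, I {k | x k ≠ 0}) {f : E}
    (hf : f ∈ (FS ⊔ Submodule.span ℝ Gen).topologicalClosure) {η : ℝ} (hη : 0 < η) :
    I {k | η < |f k|} := by
  -- the submodule of sequences with support in the ideal
  let K : Submodule ℝ E :=
    { carrier := {f | I {k | f k ≠ 0}}
      add_mem' := by
        intro a b ha hb
        refine hsub _ _ ?_ (hun _ _ ha hb)
        intro k hk
        by_contra hcon
        simp only [mem_union, mem_ofPred_eq, not_or, not_not] at hcon
        apply hk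
        show a k + b k = 0
        rw [hcon.1, hcon.2, add_zero]
      zero_mem' := by
        refine hfin _ ?_
        convert Set.finite_empty
        ext k
        simp
      smul_mem' := by
        intro c a ha
        refine hsub _ _ ?_ ha
        intro k hk hcon
        apply hk
        show c • a k = 0
        rw [hcon, smul_zero] }
  have hle : FS ⊔ Submodule.span ℝ Gen ≤ K := by
    refine sup_le ?_ (Submodule.span_le.2 hg)
    rintro a ⟨m, hm⟩
    refine hfin _ ((Set.finite_Iio m).subset ?_)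
    intro k hk
    by_contra hcon
    exact hk (hm k (not_lt.1 hcon))
  have hcl : f ∈ closure ((FS ⊔ Submodule.span ℝ Gen : Submodule ℝ E) : Set E) := hf
  obtain ⟨f₀, hf₀, hd⟩ := Metric.mem_closure_iff.1 hcl η hη
  refine hsub _ _ ?_ (hle hf₀ : I {k | f₀ k ≠ 0})
  intro k hk hcon
  have h1 : |f k - f₀ k| ≤ dist f f₀ := by
    rw [← Real.dist_eq]
    exact BoundedContinuousFunction.dist_coe_le_dist k
  rw [hcon, sub_zero] at h1
  have h2 : η < |f k| := hk
  linarith

variable {T : Type} [GTree T]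

lemma supp_sub_subset (r t : T) :
    {k | (av r - av t) k ≠ 0} ⊆ (GTree.A r \ GTree.A t) ∪ (GTree.A t \ GTree.A r) := by
  intro k hk
  have h1 : av r k - av t k ≠ 0 := hk
  rw [av_apply, av_apply] at h1
  by_cases hr : k ∈ GTree.A r <;> by_cases ht : k ∈ GTree.A t <;> simp [hr, ht] at h1 ⊢

theorem ad_levels {t : T} {i j : ℕ} (hij : i ≠ j) {f g : E} (hf : f ∈ XI t i) (hg : g ∈ XI t j)
    {η : ℝ} (hη : 0 < η) : {k | η < |f k| ∧ η < |g k|}.Finite := by
  have h1 : ∀ r' : T, GTree.sc t j ≤ r' →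
      ({k | η < |f k|} ∩ (GTree.A r' \ GTree.A t)).Finite := by
    refine ideal_closure
      (fun S => ∀ r' : T, GTree.sc t j ≤ r' → (S ∩ (GTree.A r' \ GTree.A t)).Finite)
      ?_ ?_ ?_ _ ?_ hf hη
    · intro S hS r' _
      exact hS.subset inter_subset_left
    · intro S S' hSS hS' r' hr'
      exact (hS' r' hr').subset (inter_subset_inter_left _ hSS)
    · intro S S' hS hS' r' hr'
      rw [union_inter_distrib_right]
      exact (hS r' hr').union (hS' r' hr')
    · rintro x ⟨r, hr, rfl⟩ r' hr'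
      have htr : t ≤ r := le_trans (GTree.lt_sc t i).le hr
      refine ((GTree.ad t i j hij r r' hr hr').union (GTree.sub t r htr)).subset ?_
      rintro k ⟨hk, hk'⟩
      rcases supp_sub_subset r t hk with h | h
      · exact Or.inl ⟨h, hk'⟩
      · exact Or.inr h
  have h2 := ideal_closure (fun S => ({k | η < |f k|} ∩ S).Finite)
    (fun S hS => hS.subset inter_subset_right)
    (fun S S' hSS hS' => hS'.subset (inter_subset_inter_right _ hSS))
    (fun S S' hS hS' => by
      rw [inter_union_distrib_left]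
      exact hS.union hS')
    {x | ∃ r : T, GTree.sc t j ≤ r ∧ x = av r - av t}
    (by
      rintro x ⟨r, hr, rfl⟩
      have htr : t ≤ r := le_trans (GTree.lt_sc t j).le hr
      refine ((h1 r hr).union (GTree.sub t r htr)).subset ?_
      rintro k ⟨hk, hk'⟩
      rcases supp_sub_subset r t hk' with h | h
      · exact Or.inl ⟨hk, h⟩
      · exact Or.inr h)
    hg hη
  exact h2

/-- The combinatorial part: a bounded sequence of bounded sequences with the transversality
property has averages that tend to zero. -/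
lemma sum_bound {B η : ℝ} (hB : 0 ≤ B) (hη : 0 ≤ η) (g : ℕ → E) (n : ℕ → ℕ)
    (hb : ∀ l, ‖g l‖ ≤ B) (h0 : ∀ l, ∀ k < n l, g l k = 0)
    (hn : ∀ l a b, a < l → b < l → a ≠ b → ∀ k, η < |g a k| → η < |g b k| → k < n l) (L : ℕ) :
    ‖∑ l ∈ Finset.range L, g l‖ ≤ 2 * B + L * η := by
  classical
  rw [BoundedContinuousFunction.norm_le (by positivity)]
  intro k
  rw [BoundedContinuousFunction.coe_sum, Finset.sum_apply, Real.norm_eq_abs]
  refine (Finset.abs_sum_le_sum_abs _ _).trans ?_
  set J := (Finset.range L).filter fun l => η < |g l k| with hJ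
  have hJ2 : J.card ≤ 2 := by
    by_contra hcon
    push Not at hcon
    have hne : J.Nonempty := Finset.card_pos.1 (by omega)
    set l := J.max' hne with hl
    have hlJ : l ∈ J := Finset.max'_mem _ _
    have hc : 1 < (J.erase l).card := by
      rw [Finset.card_erase_of_mem hlJ]; omega
    obtain ⟨a, ha, b, hb', hab⟩ := Finset.one_lt_card.1 hc
    rw [Finset.mem_erase] at ha hb'
    have hal : a < l := lt_of_le_of_ne (Finset.le_max' _ _ ha.2) ha.1
    have hbl : b < l := lt_of_le_of_ne (Finset.le_max' _ _ hb'.2) hb'.1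
    have h1 := hn l a b hal hbl hab k (Finset.mem_filter.1 ha.2).2 (Finset.mem_filter.1 hb'.2).2
    have h2 := (Finset.mem_filter.1 hlJ).2
    rw [h0 l k h1, abs_zero] at h2
    linarith
  rw [← Finset.sum_filter_add_sum_filter_not (Finset.range L) (fun l => η < |g l k|)]
  refine add_le_add ?_ ?_
  · calc ∑ l ∈ J, |g l k| ≤ ∑ _l ∈ J, B := Finset.sum_le_sum fun l _ =>
          ((g l).norm_coe_le_norm k).trans (hb l)
      _ = J.card * B := by rw [Finset.sum_const, nsmul_eq_mul]
      _ ≤ 2 * B := mul_le_mul_of_nonneg_right (by exact_mod_cast hJ2) hB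
  · calc ∑ l ∈ (Finset.range L).filter (fun l => ¬ η < |g l k|), |g l k|
        ≤ ∑ _l ∈ (Finset.range L).filter (fun l => ¬ η < |g l k|), η :=
          Finset.sum_le_sum fun l hl => not_lt.1 (Finset.mem_filter.1 hl).2
      _ = ((Finset.range L).filter (fun l => ¬ η < |g l k|)).card * η := by
          rw [Finset.sum_const, nsmul_eq_mul]
      _ ≤ L * η := by
          refine mul_le_mul_of_nonneg_right ?_ hη
          have := Finset.card_filter_le (Finset.range L) (fun l => ¬ η < |g l k|)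
          rw [Finset.card_range] at this
          exact_mod_cast this

theorem weak_null {t : T} {i : ℕ → ℕ} (hi : Function.Injective i) (ξ : E →L[ℝ] ℝ) {B : ℝ}
    (f : ℕ → E) (hf : ∀ n, f n ∈ XI t (i n)) (hb : ∀ n, ‖f n‖ ≤ B)
    (h0 : ∀ n, ∀ k < n, f n k = 0) : Tendsto (fun n => ξ (f n)) atTop (𝓝 0) := by
  classical
  have hB : 0 ≤ B := (norm_nonneg _).trans (hb 0)
  by_contra hcon
  rw [Metric.tendsto_atTop] at hcon
  push Not at hcon
  obtain ⟨ε, hε, hcon⟩ := hcon
  set η : ℝ := ε / (2 * (‖ξ‖ + 1)) with hηdef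
  have hξ : 0 ≤ ‖ξ‖ := ContinuousLinearMap.opNorm_nonneg ξ
  have hη : 0 < η := by positivity
  have hξη : ‖ξ‖ * η ≤ ε / 2 := by
    have h1 : (‖ξ‖ + 1) * η = ε / 2 := by
      rw [hηdef]; field_simp
    nlinarith
  -- the step function
  have hstep : ∀ m : ℕ, ∃ n, m < n ∧ ε ≤ |ξ (f n)| ∧
      ∀ a b, a ≤ m → b ≤ m → a ≠ b → ∀ k, η < |f a k| → η < |f b k| → k < n := by
    intro m
    have hbd : ∃ M : ℕ, ∀ p ∈ (Finset.range (m + 1) ×ˢ Finset.range (m + 1)).filter
        (fun p : ℕ × ℕ => p.1 ≠ p.2), ∀ k, η < |f p.1 k| → η < |f p.2 k| → k < M := by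
      have hfin : (⋃ p ∈ (Finset.range (m + 1) ×ˢ Finset.range (m + 1)).filter
        (fun p : ℕ × ℕ => p.1 ≠ p.2), {k | η < |f p.1 k| ∧ η < |f p.2 k|}).Finite := by
        refine Set.Finite.biUnion (Finset.finite_toSet _) ?_
        intro p hp
        have hp' := (Finset.mem_filter.1 hp).2
        exact ad_levels (fun h => hp' (hi h)) (hf p.1) (hf p.2) hη
      obtain ⟨M, hM⟩ := hfin.bddAbove
      refine ⟨M + 1, fun p hp k h1 h2 => ?_⟩
      have : k ≤ M := hM (Set.mem_biUnion hp ⟨h1, h2⟩)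
      omega
    obtain ⟨M, hM⟩ := hbd
    obtain ⟨n, hn, hn'⟩ := hcon (max (m + 1) M)
    refine ⟨n, ?_, ?_, ?_⟩
    · have := le_trans (le_max_left (m + 1) M) hn
      omega
    · rwa [Real.dist_eq, sub_zero] at hn'
    · intro a b ha hb' hab k h1 h2
      have h3 := hM (a, b) (Finset.mem_filter.2 ⟨Finset.mem_product.2
        ⟨Finset.mem_range.2 (by omega), Finset.mem_range.2 (by omega)⟩, hab⟩) k h1 h2
      exact lt_of_lt_of_le h3 (le_trans (le_max_right _ _) hn)
  choose s hs1 hs2 hs3 using hstep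
  -- the subsequence
  let n : ℕ → ℕ := fun l => s^[l + 1] 0
  have hnsucc : ∀ l, n (l + 1) = s (n l) := by
    intro l
    show s^[l + 1 + 1] 0 = s (s^[l + 1] 0)
    rw [Function.iterate_succ_apply' s (l + 1)]
  have hmono : StrictMono n := by
    refine strictMono_nat_of_lt_succ fun l => ?_
    rw [hnsucc]; exact hs1 _
  have hnε : ∀ l, ε ≤ |ξ (f (n l))| := by
    intro l
    cases l with
    | zero => exact hs2 0
    | succ l => rw [hnsucc]; exact hs2 _
  have hnt : ∀ l a b, a < l → b < l → a ≠ b → ∀ k, η < |f (n a) k| → η < |f (n b) k| → k < n l := by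
    intro l a b ha hb' hab k h1 h2
    obtain ⟨l, rfl⟩ : ∃ l', l = l' + 1 := ⟨l - 1, by omega⟩
    rw [hnsucc]
    exact hs3 (n l) (n a) (n b) (hmono.monotone (by omega)) (hmono.monotone (by omega))
      (fun h => hab (hmono.injective h)) k h1 h2
  -- signs
  let σ : ℕ → ℝ := fun l => if 0 ≤ ξ (f (n l)) then 1 else -1
  have hσ : ∀ l, |σ l| = 1 := by
    intro l
    simp only [σ]
    split_ifs <;> simp
  have hσξ : ∀ l, ξ (σ l • f (n l)) = |ξ (f (n l))| := by
    intro l
    rw [map_smul, smul_eq_mul]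
    simp only [σ]
    split_ifs with h
    · rw [one_mul, abs_of_nonneg h]
    · rw [neg_one_mul, abs_of_neg (not_le.1 h)]
  have happ : ∀ l k, |(σ l • f (n l)) k| = |f (n l) k| := by
    intro l k
    show |σ l * f (n l) k| = _
    rw [abs_mul, hσ, one_mul]
  have hbound : ∀ L : ℕ, ‖∑ l ∈ Finset.range L, σ l • f (n l)‖ ≤ 2 * B + L * η := by
    intro L
    refine sum_bound hB hη.le (fun l => σ l • f (n l)) n ?_ ?_ ?_ L
    · intro l
      rw [norm_smul, Real.norm_eq_abs, hσ, one_mul]
      exact hb _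
    · intro l k hk
      show σ l * f (n l) k = 0
      rw [h0 _ k hk, mul_zero]
    · intro l a b ha hb' hab k h1 h2
      rw [happ] at h1 h2
      exact hnt l a b ha hb' hab k h1 h2
  have hfinal : ∀ L : ℕ, (L : ℝ) * ε ≤ ‖ξ‖ * (2 * B) + L * (ε / 2) := by
    intro L
    have h1 : (L : ℝ) * ε ≤ ξ (∑ l ∈ Finset.range L, σ l • f (n l)) := by
      rw [map_sum]
      calc (L : ℝ) * ε = ∑ _l ∈ Finset.range L, ε := by
            rw [Finset.sum_const, Finset.card_range, nsmul_eq_mul]
        _ ≤ _ := Finset.sum_le_sum fun l _ => by rw [hσξ]; exact hnε l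
    have h2 : ξ (∑ l ∈ Finset.range L, σ l • f (n l)) ≤
        ‖ξ‖ * ‖∑ l ∈ Finset.range L, σ l • f (n l)‖ :=
      (le_abs_self _).trans (ξ.le_opNorm _)
    have h3 := mul_le_mul_of_nonneg_left (hbound L) hξ
    have h4 : (L : ℝ) * (‖ξ‖ * η) ≤ L * (ε / 2) :=
      mul_le_mul_of_nonneg_left hξη (Nat.cast_nonneg L)
    nlinarith
  obtain ⟨L, hL⟩ := exists_nat_gt (‖ξ‖ * (2 * B) / (ε / 2))
  rw [div_lt_iff₀ (by positivity)] at hL
  have := hfinal L
  linarith

end Pool.Agent.Helper11.GT
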