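import Pool.Agent.Helper11.GT.Basic
import Pool.Agent.Helper11.GT.W

/-!
# Cutting: an element of the class with a finitely supported difference
-/

set_option autoImplicit false

open Set Filter Topology

namespace Pool.Agent.Helper11.GT

variable {T : Type} [GTree T]

section CUT
variable {N : E → ℝ} {m M : ℝ}

lemma cut_Cls_mem_XX {n : ℕ} {α g : E} {c : ℝ} {t : T} (hg : g ∈ XX T) {y : E}
    (hy : y ∈ Cls n α g c t) : y ∈ XX T := by
  have h1 := XT_le_XX t hy.1
  have h2 := (XX T).add_mem ((XX T).add_mem h1 ((XX T).smul_mem c (av_mem_XX t))) hg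
  have h3 : y - g - c • av t + c • av t + g = y := by abel
  rwa [h3] at h2

lemma cut_exists_Cls_lt {n : ℕ} {α g : E} {c : ℝ} {t : T}
    {R : ℝ} (hR : JJ N n α g c t < R) : ∃ y ∈ Cls n α g c t, N y < R := by
  have hne : (N '' Cls n α g c t).Nonempty := by
    refine ⟨_, g + c • av t + ((α - g - c • av t) - tl n (α - g - c • av t)), ⟨?_, ?_⟩, rfl⟩
    · have h1 : g + c • av t + ((α - g - c • av t) - tl n (α - g - c • av t)) - g - c • av t =
          (α - g - c • av t) - tl n (α - g - c • av t) := by abel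
      rw [h1]
      exact FS_le_XT t (sub_tl_mem_FS n _)
    · intro k hk
      have h1 : tl n (α - g - c • av t) k = 0 := by
        rw [tl_apply, if_neg (not_le.2 hk)]
      have h2 : (g + c • av t + ((α - g - c • av t) - tl n (α - g - c • av t))) k =
          g k + (c • av t) k + ((α k - g k - (c • av t) k) - tl n (α - g - c • av t) k) := rfl
      rw [h2, h1]
      ring
  obtain ⟨x, ⟨y, hy, rfl⟩, hx⟩ := exists_lt_of_csInf_lt hne hR
  exact ⟨y, hy, hx⟩

/-- a bound for the average when at most one term is large -/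
lemma cut_avg_bound {L : ℕ} (hL : 0 < L) (a : ℕ → ℝ) {B η : ℝ} (hB : 0 ≤ B) (hη : 0 ≤ η)
    (ha : ∀ l, |a l| ≤ B)
    (h1 : ∀ l < L, ∀ l' < L, l ≠ l' → ¬ (η < |a l| ∧ η < |a l'|)) :
    |(L : ℝ)⁻¹ * ∑ l ∈ Finset.range L, a l| ≤ B / L + η := by
  have hL' : (0 : ℝ) < L := by exact_mod_cast hL
  have hsum : |∑ l ∈ Finset.range L, a l| ≤ B + L * η := by
    refine (Finset.abs_sum_le_sum_abs _ _).trans ?_
    by_cases hex : ∃ l₀ < L, η < |a l₀|
    · obtain ⟨l₀, hl₀, hl₀'⟩ := hex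
      rw [← Finset.add_sum_erase _ _ (Finset.mem_range.2 hl₀)]
      have h2 : ∑ l ∈ (Finset.range L).erase l₀, |a l| ≤
          ∑ l ∈ (Finset.range L).erase l₀, η := by
        refine Finset.sum_le_sum fun l hl => ?_
        rw [Finset.mem_erase, Finset.mem_range] at hl
        by_contra hcon
        exact h1 l hl.2 l₀ hl₀ hl.1 ⟨not_le.1 hcon, hl₀'⟩
      have h3 : ∑ l ∈ (Finset.range L).erase l₀, η ≤ L * η := by
        rw [Finset.sum_const, nsmul_eq_mul]
        refine mul_le_mul_of_nonneg_right ?_ hη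
        have h4 := Finset.card_erase_le (s := Finset.range L) (a := l₀)
        rw [Finset.card_range] at h4
        exact_mod_cast h4
      have h4 := ha l₀
      linarith
    · push Not at hex
      have h2 : ∑ l ∈ Finset.range L, |a l| ≤ ∑ l ∈ Finset.range L, η :=
        Finset.sum_le_sum fun l hl => hex l (Finset.mem_range.1 hl)
      rw [Finset.sum_const, nsmul_eq_mul, Finset.card_range] at h2
      linarith
  rw [abs_mul, abs_of_pos (inv_pos.2 hL')]
  calc (L : ℝ)⁻¹ * |∑ l ∈ Finset.range L, a l| ≤ (L : ℝ)⁻¹ * (B + L * η) :=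
        mul_le_mul_of_nonneg_left hsum (inv_pos.2 hL').le
    _ = B / L + η := by field_simp

theorem cut_aux (had : ∀ (t : T) (i j : ℕ), i ≠ j → ∀ f g : E, f ∈ XI t i → g ∈ XI t j →
    ∀ η : ℝ, 0 < η → {k | η < |f k| ∧ η < |g k|}.Finite)
    (h : EqN T N m M) {n : ℕ} {α g : E} {c R : ℝ} {t : T} (hg : g ∈ XX T)
    (hJ : ∀ l : ℕ, JJ N n α g c (GTree.sc t l) ≤ R) {η : ℝ} (hη : 0 < η) :
    ∃ y : E, y - g - c • av t ∈ FS ∧ (∀ k < n, y k = α k) ∧ N y ≤ R + η := by
  have hM := h.Mpos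
  have hm := h.mpos
  have hex : ∀ l : ℕ, ∃ y ∈ Cls n α g c (GTree.sc t l), N y < R + η / 2 := fun l =>
    cut_exists_Cls_lt (lt_of_le_of_lt (hJ l) (by linarith))
  choose y hyC hyN using hex
  have hyX : ∀ l, y l ∈ XX T := fun l => cut_Cls_mem_XX hg (hyC l)
  set f : ℕ → E := fun l => y l - g - c • av t with hf
  have hfI : ∀ l, f l ∈ XI t l := by
    intro l
    have h1 := XT_sc_le_XI t l (hyC l).1
    have h2 := (XI t l).smul_mem c (sub_mem_XI (le_refl (GTree.sc t l)))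
    have h3 := (XI t l).add_mem h1 h2
    have h4 : y l - g - c • av (GTree.sc t l) + c • (av (GTree.sc t l) - av t) = f l := by
      show y l - g - c • av (GTree.sc t l) + c • (av (GTree.sc t l) - av t) = y l - g - c • av t
      rw [smul_sub]; abel
    rwa [h4] at h3
  set B : ℝ := (R + η / 2) / m + ‖g‖ + |c| with hBdef
  have hfB : ∀ l, ‖f l‖ ≤ B := by
    intro l
    have h1 : ‖f l‖ ≤ ‖y l‖ + ‖g‖ + ‖c • av t‖ := by
      calc ‖f l‖ ≤ ‖y l - g‖ + ‖c • av t‖ := norm_sub_le _ _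
        _ ≤ ‖y l‖ + ‖g‖ + ‖c • av t‖ := by gcongr; exact norm_sub_le _ _
    have h2 : ‖c • av t‖ ≤ |c| := by
      rw [norm_smul, Real.norm_eq_abs]
      calc |c| * ‖av t‖ ≤ |c| * 1 := mul_le_mul_of_nonneg_left (norm_av_le t) (abs_nonneg c)
        _ = |c| := mul_one _
    have h3 : ‖y l‖ ≤ (R + η / 2) / m := by
      rw [le_div_iff₀ hm, mul_comm]
      exact (h.lo _ (hyX l)).trans (hyN l).le
    linarith
  have hB0 : 0 ≤ B := (norm_nonneg _).trans (hfB 0)
  -- the number of terms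
  obtain ⟨L, hL1, hL2⟩ : ∃ L : ℕ, 0 < L ∧ M * (B / L) ≤ η / 4 := by
    obtain ⟨L, hL⟩ := exists_nat_gt (4 * M * B / η)
    refine ⟨L + 1, Nat.succ_pos _, ?_⟩
    have h1 : (0 : ℝ) < ((L + 1 : ℕ) : ℝ) := by positivity
    have h2 : 4 * M * B / η < ((L + 1 : ℕ) : ℝ) := by push_cast; linarith
    rw [div_lt_iff₀ hη] at h2
    rw [← mul_div_assoc, div_le_iff₀ h1]
    linarith
  set η' : ℝ := η / (4 * M) with hη'
  have hη'0 : 0 < η' := by positivity
  -- the threshold
  obtain ⟨p, hpn, hp⟩ : ∃ p : ℕ, n ≤ p ∧ ∀ k, p ≤ k → ∀ l < L, ∀ l' < L, l ≠ l' →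
      ¬ (η' < |f l k| ∧ η' < |f l' k|) := by
    have hfin : (⋃ q ∈ (((Finset.range L) ×ˢ (Finset.range L)).filter
        (fun q : ℕ × ℕ => q.1 ≠ q.2) : Finset (ℕ × ℕ)),
        {k | η' < |f q.1 k| ∧ η' < |f q.2 k|}).Finite := by
      refine Set.Finite.biUnion (Finset.finite_toSet _) ?_
      intro q hq
      have hq' := (Finset.mem_filter.1 hq).2
      exact had t q.1 q.2 hq' (f q.1) (f q.2) (hfI _) (hfI _) η' hη'0
    obtain ⟨p₀, hp₀⟩ := hfin.bddAbove
    refine ⟨max n (p₀ + 1), le_max_left _ _, fun k hk l hl l' hl' hne hcon => ?_⟩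
    have h1 : k ≤ p₀ := by
      refine hp₀ ?_
      simp only [Set.mem_iUnion]
      refine ⟨(l, l'), ?_, hcon⟩
      exact Finset.mem_filter.2 ⟨Finset.mem_product.2 ⟨Finset.mem_range.2 hl,
        Finset.mem_range.2 hl'⟩, hne⟩
    have h2 := le_trans (le_max_right n (p₀ + 1)) hk
    omega
  have hL' : (0 : ℝ) < L := by exact_mod_cast hL1
  set yb : E := (L : ℝ)⁻¹ • ∑ l ∈ Finset.range L, y l with hyb
  set fb : E := (L : ℝ)⁻¹ • ∑ l ∈ Finset.range L, f l with hfb
  have hyf : yb - g - c • av t = fb := by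
    have h1 : ∑ l ∈ Finset.range L, f l =
        ∑ l ∈ Finset.range L, y l - (L : ℝ) • g - (L : ℝ) • (c • av t) := by
      rw [hf, Finset.sum_sub_distrib, Finset.sum_sub_distrib, Finset.sum_const, Finset.sum_const,
        Finset.card_range, ← Nat.cast_smul_eq_nsmul ℝ, ← Nat.cast_smul_eq_nsmul ℝ]
    rw [hfb, h1, smul_sub, smul_sub, smul_smul, smul_smul, inv_mul_cancel₀ hL'.ne', one_smul,
      one_smul]
  have hybX : yb ∈ XX T := (XX T).smul_mem _ ((XX T).sum_mem fun l _ => hyX l)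
  have hfbX : fb ∈ XX T := by
    rw [← hyf]
    exact (XX T).sub_mem ((XX T).sub_mem hybX hg) ((XX T).smul_mem _ (av_mem_XX t))
  have hevs : ∀ (k : ℕ) (s : Finset ℕ) (u : ℕ → E),
      (∑ l ∈ s, u l) k = ∑ l ∈ s, u l k := by
    intro k s u
    rw [BoundedContinuousFunction.coe_sum, Finset.sum_apply]
  have hfbk : ∀ k, fb k = (L : ℝ)⁻¹ * ∑ l ∈ Finset.range L, f l k := by
    intro k
    have h1 : fb k = (L : ℝ)⁻¹ * (∑ l ∈ Finset.range L, f l) k := rfl
    rw [h1, hevs]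
  have hybk : ∀ k, yb k = (L : ℝ)⁻¹ * ∑ l ∈ Finset.range L, y l k := by
    intro k
    have h1 : yb k = (L : ℝ)⁻¹ * (∑ l ∈ Finset.range L, y l) k := rfl
    rw [h1, hevs]
  have htl : ‖tl p fb‖ ≤ B / L + η' := by
    have h0 : 0 ≤ B / L + η' := by positivity
    rw [BoundedContinuousFunction.norm_le h0]
    intro k
    rw [tl_apply, Real.norm_eq_abs]
    by_cases hk : p ≤ k
    · rw [if_pos hk, hfbk]
      refine cut_avg_bound hL1 (fun l => f l k) hB0 hη'0.le (fun l => ?_) (hp k hk)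
      have := (f l).norm_coe_le_norm k
      rw [Real.norm_eq_abs] at this
      exact this.trans (hfB l)
    · rw [if_neg hk, abs_zero]; exact h0
  refine ⟨yb - tl p fb, ?_, ?_, ?_⟩
  · have h1 : yb - tl p fb - g - c • av t = fb - tl p fb := by rw [← hyf]; abel
    rw [h1]
    exact sub_tl_mem_FS p fb
  · intro k hk
    have h1 : (yb - tl p fb) k = yb k - tl p fb k := rfl
    have h2 : tl p fb k = 0 := by
      rw [tl_apply, if_neg (not_le.2 (lt_of_lt_of_le hk hpn))]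
    rw [h1, h2, sub_zero, hybk, Finset.sum_congr rfl fun l _ => (hyC l).2 k hk,
      Finset.sum_const, Finset.card_range, nsmul_eq_mul, ← mul_assoc, inv_mul_cancel₀ hL'.ne',
      one_mul]
  · have h1 : yb - tl p fb ∈ XX T := (XX T).sub_mem hybX (tl_mem FS_le_XX hfbX p)
    have h2 := h.sub_le h1 hybX
    have h3 : yb - tl p fb - yb = - tl p fb := by abel
    rw [h3, norm_neg] at h2
    have h4 : N yb ≤ R + η / 2 := h.avg_le hL1 y hyX _ fun l => (hyN l).le
    have h5 : M * ‖tl p fb‖ ≤ M * (B / L + η') := mul_le_mul_of_nonneg_left htl hM.le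
    have h6 : M * η' = η / 4 := by rw [hη']; field_simp
    rw [mul_add, h6] at h5
    linarith

theorem cut (h : EqN T N m M) {n : ℕ} {α g : E} {c R : ℝ} {t : T} (hg : g ∈ XX T)
    (hJ : ∀ l : ℕ, JJ N n α g c (GTree.sc t l) ≤ R) {η : ℝ} (hη : 0 < η) :
    ∃ y : E, y - g - c • av t ∈ FS ∧ (∀ k < n, y k = α k) ∧ N y ≤ R + η :=
  cut_aux (fun _ _ _ hij _ _ hf hg' _ hη' => ad_levels hij hf hg' hη') h hg hJ hη

end CUT

end Pool.Agent.Helper11.GT
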