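import Mathlib

/-!
# Definitions for the tree counterexample (MP_d36c66_an)

`E` is the space of bounded real sequences.  A `GTree` is a tree of height `ω₁` with infinite
branching, no dead ends at countable limits, carrying subsets `A t` of `ℕ` that increase
modulo finite sets along the tree order.  `XX T` is the closed span of the finitely supported
sequences and the indicators of the sets `A t`.
-/

set_option autoImplicit false

open Set Filter Topology

namespace Pool.Agent.Helper11.GT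

/-- bounded real sequences with the sup norm -/
abbrev E := BoundedContinuousFunction ℕ ℝ

/-- indicator of a set of natural numbers -/
noncomputable def ch (S : Set ℕ) : E :=
  BoundedContinuousFunction.ofNormedAddCommGroupDiscrete (S.indicator (fun _ => (1 : ℝ))) 1
    (by
      intro k
      by_cases h : k ∈ S
      · simp [h]
      · simp [h])

@[simp] lemma ch_apply (S : Set ℕ) (k : ℕ) : ch S k = S.indicator (fun _ => (1 : ℝ)) k := rfl

/-- the tail of a sequence from `m` on -/
noncomputable def tl (m : ℕ) (f : E) : E :=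
  BoundedContinuousFunction.ofNormedAddCommGroupDiscrete (fun k => if m ≤ k then f k else 0) ‖f‖
    (by
      intro k
      by_cases h : m ≤ k
      · simp only [h, if_true]; exact f.norm_coe_le_norm k
      · simp only [h, if_false, norm_zero]; exact norm_nonneg f)

@[simp] lemma tl_apply (m : ℕ) (f : E) (k : ℕ) : tl m f k = if m ≤ k then f k else 0 := rfl

/-- finitely supported sequences -/
def FS : Submodule ℝ E where
  carrier := {f | ∃ m : ℕ, ∀ k, m ≤ k → f k = 0}
  add_mem' := by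
    rintro f g ⟨m, hm⟩ ⟨n, hn⟩
    refine ⟨max m n, fun k hk => ?_⟩
    rw [BoundedContinuousFunction.add_apply, hm k (le_trans (le_max_left _ _) hk),
      hn k (le_trans (le_max_right _ _) hk), add_zero]
  zero_mem' := ⟨0, fun k _ => rfl⟩
  smul_mem' := by
    rintro c f ⟨m, hm⟩
    refine ⟨m, fun k hk => ?_⟩
    show c • f k = 0
    rw [hm k hk, smul_zero]

lemma mem_FS {f : E} : f ∈ FS ↔ ∃ m : ℕ, ∀ k, m ≤ k → f k = 0 := Iff.rfl

/-- The combinatorial tree. -/
class GTree (T : Type) extends PartialOrder T where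
  /-- the sets attached to the nodes -/
  A : T → Set ℕ
  /-- the `i`-th successor -/
  sc : T → ℕ → T
  lt_sc : ∀ t i, t < sc t i
  wf : ∀ C : Set T, C.Nonempty → ∃ t ∈ C, ∀ s ∈ C, ¬ s < t
  cnt : ∀ t : T, (Set.Iic t).Countable
  chain : ∀ s u t : T, s ≤ t → u ≤ t → s ≤ u ∨ u ≤ s
  meet : ∀ s t : T, s ≤ t ∨ t ≤ s ∨ ∃ (v : T) (i j : ℕ), i ≠ j ∧ sc v i ≤ s ∧ sc v j ≤ t
  ub : ∀ f : ℕ → T, Monotone f → ∃ b, ∀ n, f n ≤ b
  sub : ∀ s t : T, s ≤ t → (A s \ A t).Finite
  inf : ∀ s t : T, s < t → (A t \ A s).Infinite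
  ad : ∀ (t : T) (i j : ℕ), i ≠ j → ∀ r r' : T, sc t i ≤ r → sc t j ≤ r' →
    ((A r \ A t) ∩ (A r' \ A t)).Finite
  root : T
  root_le : ∀ t : T, root ≤ t
  A_root : A root = ∅

variable {T : Type} [GTree T]

/-- the indicator vector of a node -/
noncomputable def av (t : T) : E := ch (GTree.A t)

/-- the whole space -/
noncomputable def XX (T : Type) [GTree T] : Submodule ℝ E :=
  (FS ⊔ Submodule.span ℝ (Set.range (fun t : T => av t))).topologicalClosure

/-- the separable space spanned by the nodes below `s` -/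
noncomputable def YY (s : T) : Submodule ℝ E :=
  (FS ⊔ Submodule.span ℝ {x | ∃ u : T, u ≤ s ∧ x = av u}).topologicalClosure

/-- the space spanned by the segments `(t, r]` -/
noncomputable def XT (t : T) : Submodule ℝ E :=
  (FS ⊔ Submodule.span ℝ {x | ∃ r : T, t ≤ r ∧ x = av r - av t}).topologicalClosure

/-- the space spanned by the segments `(t, r]` with `r` above the `i`-th successor of `t` -/
noncomputable def XI (t : T) (i : ℕ) : Submodule ℝ E :=
  (FS ⊔ Submodule.span ℝ {x | ∃ r : T, GTree.sc t i ≤ r ∧ x = av r - av t}).topologicalClosure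

/-- `N` is (the extension by an arbitrary rule to `E` of) an equivalent norm on `XX T`. -/
structure EqN (T : Type) [GTree T] (N : E → ℝ) (m M : ℝ) : Prop where
  mpos : 0 < m
  lo : ∀ x ∈ XX T, m * ‖x‖ ≤ N x
  hi : ∀ x ∈ XX T, N x ≤ M * ‖x‖
  add : ∀ x ∈ XX T, ∀ y ∈ XX T, N (x + y) ≤ N x + N y
  smul : ∀ (a : ℝ), ∀ x ∈ XX T, N (a • x) = |a| * N x

/-- the set of `y` in the class `g + c a_t + X_t` with prescribed first `n` values `α` -/
def Cls (n : ℕ) (α g : E) (c : ℝ) (t : T) : Set E :=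
  {y | y - g - c • av t ∈ XT t ∧ ∀ k < n, y k = α k}

/-- the infimum of `N` over `Cls n α g c t` -/
noncomputable def JJ (N : E → ℝ) (n : ℕ) (α g : E) (c : ℝ) (t : T) : ℝ :=
  sInf (N '' Cls n α g c t)

/-- `t ≥ s` and all `J` with data from `YY s` are constant above `t` -/
def St (N : E → ℝ) (s t : T) : Prop :=
  s ≤ t ∧ ∀ (n : ℕ) (α g : E) (c : ℝ), α ∈ YY s → g ∈ YY s →
    ∀ t', t ≤ t' → JJ N n α g c t' = JJ N n α g c t

/-- the ladder relation -/
def Lad (N : E → ℝ) (s s' : T) : Prop :=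
  s ≤ s' ∧ ∀ (n : ℕ) (α g : E) (δ c η : ℝ), α ∈ YY s → g ∈ YY s → 0 < η →
    ∀ r t : T, s' ≤ r → r ≤ t → St N r t →
      ∃ r₁ t₁ : T, s ≤ r₁ ∧ r₁ ≤ t₁ ∧ t₁ ≤ s' ∧ St N r₁ t₁ ∧
        JJ N n α (g - δ • av r₁) c t₁ ≤ JJ N n α (g - δ • av r) c t + η

end Pool.Agent.Helper11.GT
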