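import Pool.Agent.Helper11.GT.Basic
import Pool.Agent.Helper11.GT.BAIRE
import Pool.Agent.Helper11.GT.JB

/-!
# Module LADDER of MP_d36c66_an: existence of ladder nodes
-/

set_option autoImplicit false

open Set Filter Topology

namespace Pool.Agent.Helper11.GT

variable {T : Type} [GTree T]
variable {N : E → ℝ} {m M : ℝ}

/-- density of the stable nodes (proved from `stab` and `JJ_cont`) -/
theorem exists_St_ladder (h : EqN T N m M) {s t : T} (_hst : s ≤ t) :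
    ∃ t', t ≤ t' ∧ St N s t' := by
  have := sep_YY s
  obtain ⟨t', ht', hst⟩ := stab (P := T) GTree.ub (ι := ℕ) (Z := (YY s) × (YY s) × ℝ)
    (fun n z u => JJ N n (z.1 : E) (z.2.1 : E) z.2.2 u)
    (fun n z p q hpq => JJ_mono h (YY_le_XX s z.2.1.2) hpq)
    (fun n z => ⟨M * (‖(z.1 : E)‖ + ‖(z.2.1 : E)‖ + |z.2.2|), fun u =>
      JJ_bdd h (YY_le_XX s z.2.1.2)⟩)
    (fun n p => JJ_cont h s n p) t
  exact ⟨t', ht', _hst.trans ht', fun n α g c hα hg q hq =>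
    hst n (⟨α, hα⟩, ⟨g, hg⟩, c) q hq⟩

/-- the parameter space -/
abbrev LZ (s : T) : Type := YY s × YY s × ℝ × ℝ

/-- value of the functional attached to the parameters -/
noncomputable def LV (N : E → ℝ) (n : ℕ) {s : T} (z : LZ s) (r t : T) : ℝ :=
  JJ N n (z.1 : E) ((z.2.1 : E) - z.2.2.1 • av r) z.2.2.2 t

/-- the set whose infimum is taken -/
def LS (N : E → ℝ) (n : ℕ) {s : T} (z : LZ s) (u : T) : Set ℝ :=
  {x | ∃ r t : T, u ≤ r ∧ r ≤ t ∧ St N r t ∧ x = LV N n z r t}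

/-- the infimum over stable pairs above `u` -/
noncomputable def LK (N : E → ℝ) (n : ℕ) {s : T} (z : LZ s) (u : T) : ℝ :=
  sInf (LS N n z u)

lemma L_mem_XX {s : T} (z : LZ s) (r : T) : (z.2.1 : E) - z.2.2.1 • av r ∈ XX T :=
  (XX T).sub_mem (YY_le_XX s z.2.1.2) ((XX T).smul_mem _ (av_mem_XX r))

lemma LS_nonempty (h : EqN T N m M) (n : ℕ) {s : T} (z : LZ s) (u : T) : (LS N n z u).Nonempty := by
  obtain ⟨t', h1, h2⟩ := exists_St_ladder h (le_refl u)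
  exact ⟨_, u, t', le_refl u, h1, h2, rfl⟩

lemma LV_nonneg (h : EqN T N m M) (n : ℕ) {s : T} (z : LZ s) (r t : T) : 0 ≤ LV N n z r t :=
  JJ_nonneg h (L_mem_XX z r)

lemma LS_bddBelow (h : EqN T N m M) (n : ℕ) {s : T} (z : LZ s) (u : T) : BddBelow (LS N n z u) := by
  refine ⟨0, ?_⟩
  rintro x ⟨r, t, _, _, _, rfl⟩
  exact LV_nonneg h n z r t

lemma LK_le (h : EqN T N m M) (n : ℕ) {s : T} (z : LZ s) {u r t : T} (hur : u ≤ r) (hrt : r ≤ t)
    (hS : St N r t) : LK N n z u ≤ LV N n z r t :=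
  csInf_le (LS_bddBelow h n z u) ⟨r, t, hur, hrt, hS, rfl⟩

lemma le_LK (h : EqN T N m M) (n : ℕ) {s : T} (z : LZ s) {u : T} {a : ℝ}
    (ha : ∀ r t, u ≤ r → r ≤ t → St N r t → a ≤ LV N n z r t) : a ≤ LK N n z u := by
  refine le_csInf (LS_nonempty h n z u) ?_
  rintro x ⟨r, t, h1, h2, h3, rfl⟩
  exact ha r t h1 h2 h3

lemma LK_lt (h : EqN T N m M) (n : ℕ) {s : T} (z : LZ s) {u : T} {a : ℝ}
    (ha : LK N n z u < a) : ∃ r t, u ≤ r ∧ r ≤ t ∧ St N r t ∧ LV N n z r t < a := by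
  obtain ⟨x, ⟨r, t, h1, h2, h3, rfl⟩, hx⟩ := exists_lt_of_csInf_lt (LS_nonempty h n z u) ha
  exact ⟨r, t, h1, h2, h3, hx⟩

lemma LV_lip (h : EqN T N m M) (n : ℕ) {s : T} (z z' : LZ s) (r t : T) :
    LV N n z r t ≤ LV N n z' r t + 7 * M * dist z z' := by
  have h1 := JJ_lip h (n := n) (α := (z.1 : E)) (α' := (z'.1 : E)) (c := z.2.2.2) (c' := z'.2.2.2)
    (t := t) (L_mem_XX z r) (L_mem_XX z' r)
  have hM := h.Mpos
  have e1 : ‖(z.1 : E) - z'.1‖ ≤ dist z z' := by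
    have : dist z.1 z'.1 ≤ dist z z' := by rw [Prod.dist_eq]; exact le_max_left _ _
    have h2 : dist z.1 z'.1 = ‖(z.1 : E) - z'.1‖ := dist_eq_norm (z.1 : E) (z'.1 : E)
    rwa [h2] at this
  have d2 : dist z.2 z'.2 ≤ dist z z' := by rw [Prod.dist_eq (x := z)]; exact le_max_right _ _
  have e2 : ‖(z.2.1 : E) - z'.2.1‖ ≤ dist z z' := by
    have : dist z.2.1 z'.2.1 ≤ dist z.2 z'.2 := by
      rw [Prod.dist_eq (x := z.2)]; exact le_max_left _ _
    have h2 : dist z.2.1 z'.2.1 = ‖(z.2.1 : E) - z'.2.1‖ :=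
      dist_eq_norm (z.2.1 : E) (z'.2.1 : E)
    rw [h2] at this
    exact this.trans d2
  have d3 : dist z.2.2 z'.2.2 ≤ dist z z' := by
    have : dist z.2.2 z'.2.2 ≤ dist z.2 z'.2 := by
      rw [Prod.dist_eq (x := z.2)]; exact le_max_right _ _
    exact this.trans d2
  have e3 : |z.2.2.1 - z'.2.2.1| ≤ dist z z' := by
    have : dist z.2.2.1 z'.2.2.1 ≤ dist z.2.2 z'.2.2 := by
      rw [Prod.dist_eq (x := z.2.2)]; exact le_max_left _ _
    rw [Real.dist_eq] at this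
    exact this.trans d3
  have e4 : |z.2.2.2 - z'.2.2.2| ≤ dist z z' := by
    have : dist z.2.2.2 z'.2.2.2 ≤ dist z.2.2 z'.2.2 := by
      rw [Prod.dist_eq (x := z.2.2)]; exact le_max_right _ _
    rw [Real.dist_eq] at this
    exact this.trans d3
  have e5 : ‖((z.2.1 : E) - z.2.2.1 • av r) - ((z'.2.1 : E) - z'.2.2.1 • av r)‖
      ≤ 2 * dist z z' := by
    have e6 : ((z.2.1 : E) - z.2.2.1 • av r) - ((z'.2.1 : E) - z'.2.2.1 • av r)
        = ((z.2.1 : E) - z'.2.1) - (z.2.2.1 - z'.2.2.1) • av r := by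
      have e9 : (z.2.2.1 - z'.2.2.1) • av r = z.2.2.1 • av r - z'.2.2.1 • av r := by
        ext k
        show (z.2.2.1 - z'.2.2.1) * av r k = z.2.2.1 * av r k - z'.2.2.1 * av r k
        ring
      rw [e9]; abel
    rw [e6]
    have e7 : ‖(z.2.2.1 - z'.2.2.1) • av r‖ ≤ dist z z' := by
      rw [norm_smul, Real.norm_eq_abs]
      calc |z.2.2.1 - z'.2.2.1| * ‖av r‖ ≤ |z.2.2.1 - z'.2.2.1| * 1 :=
            mul_le_mul_of_nonneg_left (norm_av_le r) (abs_nonneg _)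
        _ ≤ dist z z' := by rw [mul_one]; exact e3
    calc _ ≤ ‖(z.2.1 : E) - z'.2.1‖ + ‖(z.2.2.1 - z'.2.2.1) • av r‖ := norm_sub_le _ _
      _ ≤ 2 * dist z z' := by linarith
  have e8 : ‖(z.1 : E) - z'.1‖ + 2 * ‖((z.2.1 : E) - z.2.2.1 • av r) -
      ((z'.2.1 : E) - z'.2.2.1 • av r)‖ + 2 * |z.2.2.2 - z'.2.2.2| ≤ 7 * dist z z' := by
    linarith
  calc LV N n z r t ≤ LV N n z' r t + M * (‖(z.1 : E) - z'.1‖ +
        2 * ‖((z.2.1 : E) - z.2.2.1 • av r) - ((z'.2.1 : E) - z'.2.2.1 • av r)‖ +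
        2 * |z.2.2.2 - z'.2.2.2|) := h1
    _ ≤ LV N n z' r t + M * (7 * dist z z') := by
        have := mul_le_mul_of_nonneg_left e8 hM.le
        linarith
    _ = _ := by ring

lemma LK_lip (h : EqN T N m M) (n : ℕ) {s : T} (z z' : LZ s) (u : T) :
    LK N n z u ≤ LK N n z' u + 7 * M * dist z z' := by
  have h1 : LK N n z u - 7 * M * dist z z' ≤ LK N n z' u := by
    refine le_LK h n z' ?_
    intro r t h1 h2 h3
    have h4 := LK_le h n z h1 h2 h3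
    have h5 := LV_lip h n z z' r t
    linarith
  linarith

lemma LK_mono (h : EqN T N m M) (n : ℕ) {s : T} (z : LZ s) {u v : T} (huv : u ≤ v) :
    LK N n z u ≤ LK N n z v :=
  le_LK h n z (fun _ _ h1 h2 h3 => LK_le h n z (huv.trans h1) h2 h3)

lemma LK_bdd (h : EqN T N m M) (n : ℕ) {s : T} (z : LZ s) :
    ∃ B, ∀ u, LK N n z u ≤ B := by
  refine ⟨M * (‖(z.1 : E)‖ + (‖(z.2.1 : E)‖ + |z.2.2.1|) + |z.2.2.2|), fun u => ?_⟩
  obtain ⟨t', h1, h2⟩ := exists_St_ladder h (le_refl u)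
  have h3 := LK_le h n z (le_refl u) h1 h2
  have h4 := JJ_bdd h (n := n) (α := (z.1 : E)) (c := z.2.2.2) (t := t') (L_mem_XX z u)
  have h5 : ‖(z.2.1 : E) - z.2.2.1 • av u‖ ≤ ‖(z.2.1 : E)‖ + |z.2.2.1| := by
    have e7 : ‖z.2.2.1 • av u‖ ≤ |z.2.2.1| := by
      rw [norm_smul, Real.norm_eq_abs]
      calc |z.2.2.1| * ‖av u‖ ≤ |z.2.2.1| * 1 :=
            mul_le_mul_of_nonneg_left (norm_av_le u) (abs_nonneg _)
        _ = _ := mul_one _
    exact (norm_sub_le _ _).trans (by linarith)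
  have h6 : M * (‖(z.1 : E)‖ + ‖(z.2.1 : E) - z.2.2.1 • av u‖ + |z.2.2.2|)
      ≤ M * (‖(z.1 : E)‖ + (‖(z.2.1 : E)‖ + |z.2.2.1|) + |z.2.2.2|) :=
    mul_le_mul_of_nonneg_left (by linarith) h.Mpos.le
  exact h3.trans (h4.trans h6)

theorem exists_Lad (h : EqN T N m M) (s : T) : ∃ s', Lad N s s' := by
  have := sep_YY s
  have hM := h.Mpos
  obtain ⟨u₀, hu₀, hst⟩ := stab (P := T) GTree.ub (ι := ℕ) (Z := LZ s)
    (fun n z u => LK N n z u)
    (fun n z p q hpq => LK_mono h n z hpq)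
    (fun n z => LK_bdd h n z)
    (by
      intro n p
      have hL : LipschitzWith (Real.toNNReal (7 * M)) (fun z : LZ s => LK N n z p) := by
        refine LipschitzWith.of_le_add_mul _ ?_
        intro z z'
        rw [Real.coe_toNNReal _ (by positivity)]
        exact LK_lip h n z z' p
      exact hL.continuous)
    s
  obtain ⟨D, hDc, hDd⟩ := TopologicalSpace.exists_countable_dense (LZ s)
  have : Countable D := hDc.to_subtype
  obtain ⟨s', hs', hU⟩ := baire (P := T) GTree.ub (ι := ℕ × D × ℕ)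
    (fun i p => ∃ r₁ t₁ : T, s ≤ r₁ ∧ r₁ ≤ t₁ ∧ t₁ ≤ p ∧ St N r₁ t₁ ∧
      LV N i.1 (i.2.1 : LZ s) r₁ t₁ ≤ LK N i.1 (i.2.1 : LZ s) u₀ + 1 / ((i.2.2 : ℝ) + 1))
    (by
      rintro i p q hpq ⟨r₁, t₁, h1, h2, h3, h4, h5⟩
      exact ⟨r₁, t₁, h1, h2, h3.trans hpq, h4, h5⟩)
    u₀
    (by
      rintro ⟨n, z, j⟩ p hp
      have hj : (0 : ℝ) < 1 / ((j : ℝ) + 1) := by positivity
      have h1 : LK N n (z : LZ s) p < LK N n (z : LZ s) u₀ + 1 / ((j : ℝ) + 1) := by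
        have h0 : LK N n (z : LZ s) p = LK N n (z : LZ s) u₀ := hst n (z : LZ s) p hp
        rw [h0]; linarith
      obtain ⟨r, t, h2, h3, h4, h5⟩ := LK_lt h n (z : LZ s) h1
      exact ⟨t, h2.trans h3, r, t, (hu₀.trans hp).trans h2, h3, le_refl t, h4, h5.le⟩)
  refine ⟨s', hu₀.trans hs', ?_⟩
  intro n α g δ c η hα hg hη r t hr hrt hS
  set z : LZ s := (⟨α, hα⟩, ⟨g, hg⟩, δ, c) with hz
  have hε : 0 < η / (28 * M) := by positivity
  obtain ⟨z', hz'D, hz'⟩ := Metric.dense_iff.1 hDd z _ hε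
  obtain ⟨j, hj⟩ := exists_nat_one_div_lt (show (0 : ℝ) < η / 4 by linarith)
  obtain ⟨r₁, t₁, h1, h2, h3, h4, h5⟩ := hU (n, ⟨z', hz'⟩, j)
  refine ⟨r₁, t₁, h1, h2, h3, h4, ?_⟩
  simp only at h5
  have hd : dist z z' < η / (28 * M) := by
    rw [dist_comm]; exact hz'D
  have hd' : 7 * M * dist z z' ≤ η / 4 := by
    calc 7 * M * dist z z' ≤ 7 * M * (η / (28 * M)) :=
          mul_le_mul_of_nonneg_left hd.le (by positivity)
      _ = η / 4 := by field_simp; norm_num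
  have h6 := LV_lip h n z z' r₁ t₁
  have h7 := LK_lip h n z' z u₀
  rw [dist_comm z' z] at h7
  have h8 := LK_le h n z (hs'.trans hr) hrt hS
  have h9 : LV N n z r₁ t₁ = JJ N n α (g - δ • av r₁) c t₁ := rfl
  have h10 : LV N n z r t = JJ N n α (g - δ • av r) c t := rfl
  rw [← h9, ← h10]
  linarith

end Pool.Agent.Helper11.GT
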