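import Pool.Agent.Helper11.GT.Basic

/-!
# Transfer of a good direction to a lower step of the ladder
-/

set_option autoImplicit false

open Set Filter Topology

namespace Pool.Agent.Helper11.GT

variable {T : Type} [GTree T] {N : E → ℝ} {m M : ℝ}

/-- A subsequence along which the windows `[n i, mm (n i))` are disjoint. -/
theorem exists_windows (mm : ℕ → ℕ) : ∃ n : ℕ → ℕ, ∀ i j k : ℕ,
    n i ≤ k → k < mm (n i) → n j ≤ k → k < mm (n j) → i = j := by
  let n : ℕ → ℕ := fun i => Nat.rec 0 (fun _ x => max x (mm x)) i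
  have hn : ∀ i, n (i + 1) = max (n i) (mm (n i)) := fun i => rfl
  have hmono : Monotone n := monotone_nat_of_le_succ fun i => by rw [hn]; exact le_max_left _ _
  have hlt : ∀ i j, i < j → mm (n i) ≤ n j := by
    intro i j hij
    have h1 : n (i + 1) ≤ n j := hmono hij
    have h2 : mm (n i) ≤ n (i + 1) := by rw [hn]; exact le_max_right _ _
    exact le_trans h2 h1
  refine ⟨n, fun i j k h1 h2 h3 h4 => ?_⟩
  rcases lt_trichotomy i j with h | h | h
  · have := hlt i j h; omega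
  · exact h
  · have := hlt j i h; omega

/-- Averages of functions which are small off disjoint windows. -/
theorem norm_avg_le {f : ℕ → E} {δ B : ℝ} {W : ℕ → Set ℕ} (hδ : 0 ≤ δ) (hB : 0 ≤ B)
    (hW : ∀ i j k, k ∈ W i → k ∈ W j → i = j) (hf : ∀ i k, k ∉ W i → |f i k| ≤ δ)
    (hfB : ∀ i, ‖f i‖ ≤ B) {P : ℕ} (hP : 0 < P) (hPB : B ≤ P * δ) :
    ‖(P : ℝ)⁻¹ • ∑ i ∈ Finset.range P, f i‖ ≤ 2 * δ := by
  have hP' : (0 : ℝ) < P := by exact_mod_cast hP
  rw [BoundedContinuousFunction.norm_le (by positivity)]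
  intro k
  have h1 : ((P : ℝ)⁻¹ • ∑ i ∈ Finset.range P, f i) k =
      (P : ℝ)⁻¹ * ∑ i ∈ Finset.range P, f i k := by
    rw [BoundedContinuousFunction.smul_apply, BoundedContinuousFunction.sum_apply, smul_eq_mul]
  rw [h1, Real.norm_eq_abs, abs_mul, abs_of_pos (inv_pos.2 hP')]
  have h2 : |∑ i ∈ Finset.range P, f i k| ≤ P * δ + B := by
    classical
    have hex : ∀ i, |f i k| ≤ δ + (if k ∈ W i then B else 0) := by
      intro i
      by_cases hk : k ∈ W i
      · rw [if_pos hk]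
        have := (f i).norm_coe_le_norm k
        rw [Real.norm_eq_abs] at this
        have := hfB i
        linarith
      · rw [if_neg hk, add_zero]; exact hf i k hk
    calc |∑ i ∈ Finset.range P, f i k| ≤ ∑ i ∈ Finset.range P, |f i k| :=
          Finset.abs_sum_le_sum_abs _ _
      _ ≤ ∑ i ∈ Finset.range P, (δ + (if k ∈ W i then B else 0)) :=
          Finset.sum_le_sum fun i _ => hex i
      _ = P * δ + ∑ i ∈ Finset.range P, (if k ∈ W i then B else 0) := by
          rw [Finset.sum_add_distrib]; simp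
      _ ≤ P * δ + B := by
          gcongr
          by_cases hne : ∃ i ∈ Finset.range P, k ∈ W i
          · obtain ⟨i₀, hi₀, hk₀⟩ := hne
            rw [Finset.sum_eq_single_of_mem i₀ hi₀, if_pos hk₀]
            intro i _ hi
            rw [if_neg]
            intro hk
            exact hi (hW i i₀ k hk hk₀)
          · push Not at hne
            rw [Finset.sum_eq_zero]
            · exact hB
            · intro i hi
              rw [if_neg (hne i hi)]
  calc (P : ℝ)⁻¹ * |∑ i ∈ Finset.range P, f i k| ≤ (P : ℝ)⁻¹ * (P * δ + B) :=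
        mul_le_mul_of_nonneg_left h2 (inv_pos.2 hP').le
    _ ≤ (P : ℝ)⁻¹ * (P * δ + P * δ) := by
        gcongr
    _ = 2 * δ := by field_simp; ring

/-- `transfer` from the statements `JJ_le_N` and `cut`. -/
theorem transfer_core (h : EqN T N m M)
    (hJJ : ∀ (n : ℕ) (α g : E) (c : ℝ) (t : T), g ∈ XX T → ∀ y ∈ Cls n α g c t,
      JJ N n α g c t ≤ N y)
    (hcut : ∀ (n : ℕ) (α g : E) (c R : ℝ) (t : T), g ∈ XX T →
      (∀ l : ℕ, JJ N n α g c (GTree.sc t l) ≤ R) → ∀ η : ℝ, 0 < η →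
      ∃ y : E, y - g - c • av t ∈ FS ∧ (∀ k < n, y k = α k) ∧ N y ≤ R + η)
    {s s₁ r t : T} (hL : Lad N s s₁) (hr : s₁ ≤ r)
    (hrt : r ≤ t) (ht : St N r t) {z : E} {c δ ε : ℝ} (hz : z - c • av t ∈ YY s)
    (hδ : 0 < δ) (hε : 0 < ε) {p : ℕ} (hN : N (z + δ • tl p (av t - av r)) ≤ N z + ε * δ) :
    ∃ z₁ : E, z₁ - (c + δ) • av t ∈ YY s₁ ∧ N z₁ ≤ N z + 2 * ε * δ ∧ ‖z₁ - z‖ ≤ 3 * δ := by
  obtain ⟨hss₁, hLad⟩ := hL
  set g : E := z - c • av t with hgdef
  have hgX : g ∈ XX T := YY_le_XX s hz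
  have hzX : z ∈ XX T := by
    have h1 := (XX T).add_mem hgX ((XX T).smul_mem c (av_mem_XX t))
    rwa [hgdef, sub_add_cancel] at h1
  set y : E := z + δ • tl p (av t - av r) with hydef
  have hdX : av t - av r ∈ XX T := (XX T).sub_mem (av_mem_XX t) (av_mem_XX r)
  have hyX : y ∈ XX T :=
    (XX T).add_mem hzX ((XX T).smul_mem δ (tl_mem FS_le_XX hdX p))
  -- `y` in the class
  have hyF : y - (g - δ • av r) - (c + δ) • av t ∈ FS := by
    have h1 : y - (g - δ • av r) - (c + δ) • av t =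
        -(δ • ((av t - av r) - tl p (av t - av r))) := by
      rw [hydef, hgdef, add_smul, smul_sub, smul_sub]; abel
    rw [h1]
    exact FS.neg_mem (FS.smul_mem δ (sub_tl_mem_FS p _))
  have hη : 0 < ε * δ / 2 := by positivity
  -- the main step
  have key : ∀ n : ℕ, ∃ (y' : E) (r₁ : T), r₁ ≤ s₁ ∧ s ≤ r₁ ∧
      y' - (g - δ • av r₁) - (c + δ) • av t ∈ FS ∧ (∀ k < n, y' k = y k) ∧
      N y' ≤ N y + ε * δ := by
    intro n
    have hα : y - tl n y ∈ FS := sub_tl_mem_FS n y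
    have hαk : ∀ k < n, (y - tl n y) k = y k := by
      intro k hk
      rw [BoundedContinuousFunction.sub_apply, tl_apply, if_neg (not_le.2 hk), sub_zero]
    have hcls : y ∈ Cls n (y - tl n y) (g - δ • av r) (c + δ) t :=
      ⟨FS_le_XT t hyF, fun k hk => (hαk k hk).symm⟩
    have hJ1 := hJJ _ _ _ _ _ ((XX T).sub_mem hgX ((XX T).smul_mem δ (av_mem_XX r))) _ hcls
    obtain ⟨r₁, t₁, hsr₁, hr₁t₁, ht₁s₁, hSt₁, hJ2⟩ :=
      hLad n (y - tl n y) g δ (c + δ) (ε * δ / 2) (FS_le_YY s hα) hz hη r t hr hrt ht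
    have hg₁ : g - δ • av r₁ ∈ YY r₁ :=
      (YY r₁).sub_mem (YY_mono hsr₁ hz) ((YY r₁).smul_mem δ (av_mem_YY le_rfl))
    have hJ3 : ∀ l : ℕ, JJ N n (y - tl n y) (g - δ • av r₁) (c + δ) (GTree.sc t l) ≤
        N y + ε * δ / 2 := by
      intro l
      have hle : t₁ ≤ GTree.sc t l :=
        le_trans ht₁s₁ (le_trans hr (le_trans hrt (GTree.lt_sc t l).le))
      rw [hSt₁.2 n _ _ (c + δ) (FS_le_YY r₁ hα) hg₁ _ hle]
      linarith
    obtain ⟨y', hy'1, hy'2, hy'3⟩ :=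
      hcut _ _ _ _ _ _ (YY_le_XX r₁ hg₁) hJ3 _ hη
    refine ⟨y', r₁, le_trans hr₁t₁ ht₁s₁, hsr₁, hy'1, fun k hk => ?_, by linarith⟩
    rw [hy'2 k hk, hαk k hk]
  choose Y r₁ hr₁ hsr₁ hYF hYk hYN using key
  have hYY : ∀ n, Y n - (c + δ) • av t ∈ YY s₁ := by
    intro n
    have h1 : Y n - (c + δ) • av t =
        (Y n - (g - δ • av (r₁ n)) - (c + δ) • av t) + (g - δ • av (r₁ n)) := by abel
    rw [h1]
    exact (YY s₁).add_mem (FS_le_YY s₁ (hYF n))
      ((YY s₁).sub_mem (YY_mono hss₁ hz) ((YY s₁).smul_mem δ (av_mem_YY (hr₁ n))))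
  have hYX : ∀ n, Y n ∈ XX T := by
    intro n
    have h1 := (XX T).add_mem (YY_le_XX s₁ (hYY n)) ((XX T).smul_mem (c + δ) (av_mem_XX t))
    rwa [sub_add_cancel] at h1
  -- the windows
  have hwin : ∀ n, ∃ q : ℕ, ∀ k, q ≤ k → |Y n k - y k| ≤ δ := by
    intro n
    obtain ⟨q, hq⟩ := FS.sub_mem (hYF n) hyF
    refine ⟨q, fun k hk => ?_⟩
    have h1 := hq k hk
    have h2 : ((Y n - (g - δ • av (r₁ n)) - (c + δ) • av t) -
        (y - (g - δ • av r) - (c + δ) • av t)) k =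
        (Y n k - y k) + δ * (av (r₁ n) k - av r k) := by
      simp only [BoundedContinuousFunction.sub_apply, BoundedContinuousFunction.smul_apply,
        smul_eq_mul]
      ring
    rw [h2] at h1
    have h3 : Y n k - y k = δ * (av r k - av (r₁ n) k) := by linarith
    rw [h3, abs_mul, abs_of_pos hδ]
    have h4 := abs_av_sub_le r (r₁ n) k
    nlinarith
  choose mm hmm using hwin
  obtain ⟨n, hn⟩ := exists_windows mm
  have hNy0 : 0 ≤ N y := h.nonneg hyX
  set B : ℝ := (N y + ε * δ) / m + ‖y‖ with hBdef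
  have hB0 : 0 ≤ B := by
    have := h.mpos
    positivity
  have hYB : ∀ i, ‖Y i - y‖ ≤ B := by
    intro i
    have h1 := h.lo (Y i) (hYX i)
    have h2 := hYN i
    have h3 : ‖Y i‖ ≤ (N y + ε * δ) / m := by
      rw [le_div_iff₀ h.mpos]; linarith
    have h4 := norm_sub_le (Y i) y
    linarith
  obtain ⟨P, hP⟩ := exists_nat_ge (B / δ)
  have hPB : B ≤ ((P + 1 : ℕ) : ℝ) * δ := by
    rw [div_le_iff₀ hδ] at hP
    push_cast
    nlinarith
  have hP0 : (0 : ℝ) < ((P + 1 : ℕ) : ℝ) := by positivity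
  refine ⟨((P + 1 : ℕ) : ℝ)⁻¹ • ∑ i ∈ Finset.range (P + 1), Y (n i), ?_, ?_, ?_⟩
  · have h1 : ((P + 1 : ℕ) : ℝ)⁻¹ • ∑ i ∈ Finset.range (P + 1), Y (n i) - (c + δ) • av t =
        ((P + 1 : ℕ) : ℝ)⁻¹ • ∑ i ∈ Finset.range (P + 1), (Y (n i) - (c + δ) • av t) := by
      rw [Finset.sum_sub_distrib, Finset.sum_const, Finset.card_range, smul_sub,
        ← Nat.cast_smul_eq_nsmul ℝ, smul_smul, inv_mul_cancel₀ hP0.ne', one_smul]
    rw [h1]
    exact (YY s₁).smul_mem _ ((YY s₁).sum_mem fun i _ => hYY (n i))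
  · have h1 := h.avg_le (L := P + 1) (Nat.succ_pos P) (fun i => Y (n i)) (fun i => hYX (n i))
      (N y + ε * δ) (fun i => hYN (n i))
    linarith
  · have h1 : ((P + 1 : ℕ) : ℝ)⁻¹ • ∑ i ∈ Finset.range (P + 1), Y (n i) - y =
        ((P + 1 : ℕ) : ℝ)⁻¹ • ∑ i ∈ Finset.range (P + 1), (Y (n i) - y) := by
      rw [Finset.sum_sub_distrib, Finset.sum_const, Finset.card_range, smul_sub,
        ← Nat.cast_smul_eq_nsmul ℝ, smul_smul, inv_mul_cancel₀ hP0.ne', one_smul]
    have h2 : ‖((P + 1 : ℕ) : ℝ)⁻¹ • ∑ i ∈ Finset.range (P + 1), (Y (n i) - y)‖ ≤ 2 * δ := by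
      refine norm_avg_le (W := fun i => {k | n i ≤ k ∧ k < mm (n i)}) hδ.le hB0 ?_ ?_
        (fun i => hYB (n i)) (Nat.succ_pos P) hPB
      · rintro i j k ⟨ha, hb⟩ ⟨hc, hd⟩
        exact hn i j k ha hb hc hd
      · intro i k hk
        have hk' : k < n i ∨ mm (n i) ≤ k := by
          by_contra hcon
          push Not at hcon
          exact hk hcon
        show |Y (n i) k - y k| ≤ δ
        rcases hk' with hk' | hk'
        · rw [hYk (n i) k hk', sub_self, abs_zero]; exact hδ.le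
        · exact hmm (n i) k hk'
    have h3 : ‖y - z‖ ≤ δ := by
      have h4 : y - z = δ • tl p (av t - av r) := by rw [hydef]; abel
      rw [h4, norm_smul, Real.norm_eq_abs, abs_of_pos hδ]
      have h5 := norm_tl_le p (av t - av r)
      have h6 := norm_av_sub_le t r
      nlinarith
    have h4 : ((P + 1 : ℕ) : ℝ)⁻¹ • ∑ i ∈ Finset.range (P + 1), Y (n i) - z =
        (((P + 1 : ℕ) : ℝ)⁻¹ • ∑ i ∈ Finset.range (P + 1), Y (n i) - y) + (y - z) := by abel
    rw [h4]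
    refine le_trans (norm_add_le _ _) ?_
    rw [h1]
    linarith

end Pool.Agent.Helper11.GT
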