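import Pool.Agent.Helper11.GT.JB
import Pool.Agent.Helper11.GT.CUT
import Pool.Agent.Helper11.GT.TransferCore

/-!
# The transfer lemma (from helper32's `transfer_core`)
-/

set_option autoImplicit false

open Set Filter Topology

namespace Pool.Agent.Helper11.GT

variable {T : Type} [GTree T] {N : E → ℝ} {m M : ℝ}

theorem transfer (h : EqN T N m M) {s s₁ r t : T} (hL : Lad N s s₁) (hr : s₁ ≤ r)
    (hrt : r ≤ t) (ht : St N r t) {z : E} {c δ ε : ℝ} (hz : z - c • av t ∈ YY s)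
    (hδ : 0 < δ) (hε : 0 < ε) {p : ℕ} (hN : N (z + δ • tl p (av t - av r)) ≤ N z + ε * δ) :
    ∃ z₁ : E, z₁ - (c + δ) • av t ∈ YY s₁ ∧ N z₁ ≤ N z + 2 * ε * δ ∧ ‖z₁ - z‖ ≤ 3 * δ :=
  transfer_core h (fun _ _ _ _ _ hg _ hy => JJ_le_N h hg hy)
    (fun _ _ _ _ _ _ hg hJ _ hη => cut h hg hJ hη) hL hr hrt ht hz hδ hε hN

end Pool.Agent.Helper11.GT
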