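import Pool.Agent.Helper11.GT.JST
import Pool.Agent.Helper11.GT.LADDER
import Pool.Agent.Helper11.GT.CLAIM1
import Pool.Agent.Helper11.GT.TRANSFER

/-!
# The greedy process and the contradiction
-/

set_option autoImplicit false

open Set Filter Topology

namespace Pool.Agent.Helper11.GT

variable {T : Type} [GTree T]

/-- sequences vanishing on all but finitely many points of `B` -/
def VanOn (B : Set ℕ) : Submodule ℝ E where
  carrier := {f | {k | k ∈ B ∧ f k ≠ 0}.Finite}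
  add_mem' := by
    intro f g hf hg
    refine (hf.union hg).subset ?_
    rintro k ⟨hk, hk2⟩
    by_cases h1 : f k = 0
    · right
      refine ⟨hk, fun h2 => hk2 ?_⟩
      rw [BoundedContinuousFunction.add_apply, h1, h2, add_zero]
    · left
      exact ⟨hk, h1⟩
  zero_mem' := by
    have : {k | k ∈ B ∧ (0 : E) k ≠ 0} = ∅ := by
      ext k
      simp
    show {k | k ∈ B ∧ (0 : E) k ≠ 0}.Finite
    rw [this]
    exact finite_empty
  smul_mem' := by
    intro c f hf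
    refine hf.subset ?_
    rintro k ⟨hk, hk2⟩
    refine ⟨hk, fun h1 => hk2 ?_⟩
    show c * f k = 0
    rw [h1, mul_zero]

/-- elements of `YY s` are small somewhere on `A t` if `s < t` -/
lemma YY_small {s t : T} (hst : s < t) {g : E} (hg : g ∈ YY s) {η : ℝ} (hη : 0 < η) :
    ∃ k, k ∈ GTree.A t ∧ |g k| < η := by
  have h1 : g ∈ closure ((FS ⊔ Submodule.span ℝ {x | ∃ u : T, u ≤ s ∧ x = av u} :
      Submodule ℝ E) : Set E) := hg
  obtain ⟨g₀, hg₀, hd⟩ := Metric.mem_closure_iff.1 h1 η hη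
  have h2 : (FS ⊔ Submodule.span ℝ {x | ∃ u : T, u ≤ s ∧ x = av u} : Submodule ℝ E)
      ≤ VanOn (GTree.A t \ GTree.A s) := by
    refine sup_le ?_ (Submodule.span_le.2 ?_)
    · rintro f ⟨p, hp⟩
      refine (Set.finite_lt_nat p).subset ?_
      rintro k ⟨_, hk⟩
      by_contra hcon
      exact hk (hp k (not_lt.1 hcon))
    · rintro x ⟨u, hu, rfl⟩
      refine (GTree.sub u s hu).subset ?_
      rintro k ⟨hk1, hk2⟩
      refine ⟨?_, hk1.2⟩
      by_contra hcon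
      apply hk2
      rw [av_apply, indicator_of_notMem hcon]
  have h3 := h2 hg₀
  obtain ⟨k, hk⟩ := ((GTree.inf s t hst).sdiff h3).nonempty
  refine ⟨k, hk.1.1, ?_⟩
  have h4 : g₀ k = 0 := by
    by_contra hcon
    exact hk.2 ⟨hk.1, hcon⟩
  have h5 : |g k - g₀ k| ≤ ‖g - g₀‖ := by
    have := (g - g₀).norm_coe_le_norm k
    rwa [BoundedContinuousFunction.sub_apply, Real.norm_eq_abs] at this
  rw [h4, sub_zero] at h5
  rw [dist_eq_norm] at hd
  linarith

lemma coercive {s t : T} (hst : s < t) {g : E} (hg : g ∈ YY s) (c : ℝ) :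
    |c| ≤ ‖g + c • av t‖ := by
  refine le_of_forall_pos_le_add (fun η hη => ?_)
  obtain ⟨k, hk, hk2⟩ := YY_small hst hg hη
  have h1 : |(g + c • av t) k| ≤ ‖g + c • av t‖ := by
    have := (g + c • av t).norm_coe_le_norm k
    rwa [Real.norm_eq_abs] at this
  have h2 : (g + c • av t) k = g k + c := by
    show g k + c * av t k = g k + c
    rw [av_apply, indicator_of_mem hk, mul_one]
  rw [h2] at h1
  have h3 : |c| ≤ |g k + c| + |g k| := by
    have := abs_sub (g k + c) (g k)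
    have h4 : g k + c - g k = c := by ring
    rw [h4] at this
    exact this
  linarith

/-- one step of the greedy process -/
lemma greedy_step {N : E → ℝ} {m M : ℝ} (h : EqN T N m M) {s s₁ r t : T} (hL : Lad N s s₁)
    (hr : s₁ ≤ r) (hrt : r ≤ t) (ht : St N r t) {ε : ℝ} (hε : 0 < ε) (z : E) (c : ℝ)
    (hz : z - c • av t ∈ YY s) :
    ∃ (z₁ : E) (δ : ℝ), 0 ≤ δ ∧ z₁ - (c + δ) • av t ∈ YY s₁ ∧ N z₁ ≤ N z + 2 * ε * δ ∧
      ‖z₁ - z‖ ≤ 3 * δ ∧ ∀ δ' : ℝ, ∀ p : ℕ, 0 < δ' → δ' ≤ 1 →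
        N (z + δ' • tl p (av t - av r)) ≤ N z + ε * δ' → δ' ≤ 2 * δ := by
  set L : Set ℝ := {δ | 0 < δ ∧ δ ≤ 1 ∧ ∃ p : ℕ,
    N (z + δ • tl p (av t - av r)) ≤ N z + ε * δ} with hLdef
  by_cases hne : L.Nonempty
  · have hbdd : BddAbove L := ⟨1, fun δ hδ => hδ.2.1⟩
    obtain ⟨δ₀, hδ₀⟩ := hne
    have hpos : 0 < sSup L := lt_of_lt_of_le hδ₀.1 (le_csSup hbdd hδ₀)
    obtain ⟨δ, hδ, hδ2⟩ := exists_lt_of_lt_csSup ⟨δ₀, hδ₀⟩ (show sSup L / 2 < sSup L by linarith)
    obtain ⟨h1, h2, p, hp⟩ := hδ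
    obtain ⟨z₁, k1, k2, k3⟩ := transfer h hL hr hrt ht hz h1 hε hp
    refine ⟨z₁, δ, h1.le, k1, k2, k3, fun δ' p' h3 h4 h5 => ?_⟩
    have := le_csSup hbdd (show δ' ∈ L from ⟨h3, h4, p', h5⟩)
    linarith
  · refine ⟨z, 0, le_refl _, ?_, by simp, by simp, fun δ' p' h3 h4 h5 => ?_⟩
    · rw [add_zero]
      exact YY_mono hL.1 hz
    · exact absurd ⟨δ', h3, h4, p', h5⟩ hne

theorem not_smooth {N : E → ℝ} {m M : ℝ} (h : EqN T N m M) :
    ¬ ∀ z ∈ XX T, z ≠ 0 → ∃ ξ : E →L[ℝ] ℝ,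
      ∀ x ∈ XX T, HasDerivAt (fun r : ℝ => N (z + r • x)) (ξ x) 0 := by
  intro hsm
  have hm := h.mpos
  have hM := h.Mpos
  -- the ladder
  choose nx hnx using (exists_Lad h : ∀ s : T, ∃ s', Lad N s s')
  set s : ℕ → T := fun k => Nat.rec GTree.root (fun _ u => nx u) k with hs
  have hs1 : ∀ k, Lad N (s k) (s (k + 1)) := fun k => hnx (s k)
  have hsmono : Monotone s := monotone_nat_of_le_succ (fun k => (hs1 k).1)
  obtain ⟨sω, hsω⟩ := GTree.ub s hsmono
  obtain ⟨r, _, hr⟩ := exists_St h (le_refl sω)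
  obtain ⟨t₀, _, ht₀⟩ := exists_St h (le_refl r)
  set t : T := GTree.sc t₀ 0 with ht
  have ht₀t : t₀ < t := GTree.lt_sc t₀ 0
  have hrt : St N r t := ht₀.mono ht₀t.le
  have hrt' : r < t := lt_of_le_of_lt ht₀.1 ht₀t
  have hsr : sω ≤ r := hr.1
  have hst : ∀ k, s k < t := fun k => lt_of_le_of_lt ((hsω k).trans hsr) hrt'
  -- the process
  set ε : ℝ := m / 4 with hε
  have hεpos : 0 < ε := by positivity
  have step : ∀ (k : ℕ) (p : E × ℝ), p.1 - p.2 • av t ∈ YY (s k) → ∃ q : E × ℝ,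
      q.1 - q.2 • av t ∈ YY (s (k + 1)) ∧ p.2 ≤ q.2 ∧ N q.1 ≤ N p.1 + 2 * ε * (q.2 - p.2) ∧
      ‖q.1 - p.1‖ ≤ 3 * (q.2 - p.2) ∧ ∀ δ' : ℝ, ∀ j : ℕ, 0 < δ' → δ' ≤ 1 →
        N (p.1 + δ' • tl j (av t - av r)) ≤ N p.1 + ε * δ' → δ' ≤ 2 * (q.2 - p.2) := by
    intro k p hp
    obtain ⟨z₁, δ, k0, k1, k2, k3, k4⟩ :=
      greedy_step h (hs1 k) ((hsω (k + 1)).trans hsr) hrt'.le hrt hεpos p.1 p.2 hp
    refine ⟨(z₁, p.2 + δ), k1, by simpa using k0, ?_, ?_, ?_⟩
    · simpa using k2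
    · simpa using k3
    · simpa using k4
  choose! nxt q1 q2 q3 q4 q5 using step
  set S : ℕ → E × ℝ := fun k => Nat.rec (av t, 1) (fun k p => nxt k p) k with hS
  have hS0 : S 0 = (av t, 1) := rfl
  have hSs : ∀ k, S (k + 1) = nxt k (S k) := fun k => rfl
  have inv : ∀ k, (S k).1 - (S k).2 • av t ∈ YY (s k) := by
    intro k
    induction k with
    | zero =>
      rw [hS0]
      have : av t - (1 : ℝ) • av t = 0 := by
        have h0 : (1 : ℝ) • av t = av t := one_smul ℝ (av t)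
        rw [h0, sub_self]
      show av t - (1 : ℝ) • av t ∈ YY (s 0)
      rw [this]
      exact (YY (s 0)).zero_mem
    | succ k ih =>
      rw [hSs]
      exact q1 k (S k) ih
  have cmono : ∀ k, (S k).2 ≤ (S (k + 1)).2 := fun k => q2 k (S k) (inv k)
  have hN : ∀ k, N (S (k + 1)).1 ≤ N (S k).1 + 2 * ε * ((S (k + 1)).2 - (S k).2) :=
    fun k => q3 k (S k) (inv k)
  have hd : ∀ k, ‖(S (k + 1)).1 - (S k).1‖ ≤ 3 * ((S (k + 1)).2 - (S k).2) :=
    fun k => q4 k (S k) (inv k)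
  have hmax : ∀ k, ∀ δ' : ℝ, ∀ j : ℕ, 0 < δ' → δ' ≤ 1 →
        N ((S k).1 + δ' • tl j (av t - av r)) ≤ N (S k).1 + ε * δ' →
        δ' ≤ 2 * ((S (k + 1)).2 - (S k).2) := fun k => q5 k (S k) (inv k)
  have hc1 : ∀ k, 1 ≤ (S k).2 := by
    intro k
    induction k with
    | zero => rw [hS0]
    | succ k ih => exact ih.trans (cmono k)
  have hN0 : ∀ k, N (S k).1 ≤ M + 2 * ε * ((S k).2 - 1) := by
    intro k
    induction k with
    | zero =>
      rw [hS0]
      have h1 := h.hi (av t) (av_mem_XX t)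
      have h2 := mul_le_mul_of_nonneg_left (norm_av_le t) hM.le
      show N (av t) ≤ M + 2 * ε * (1 - 1)
      linarith
    | succ k ih =>
      have := hN k
      linarith
  have hXX : ∀ k, (S k).1 ∈ XX T := by
    intro k
    have h1 := YY_le_XX _ (inv k)
    have h2 : (S k).1 = ((S k).1 - (S k).2 • av t) + (S k).2 • av t := by abel
    rw [h2]
    exact (XX T).add_mem h1 ((XX T).smul_mem _ (av_mem_XX t))
  have hco : ∀ k, (S k).2 ≤ ‖(S k).1‖ := by
    intro k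
    have h1 := coercive (hst k) (inv k) (S k).2
    rw [sub_add_cancel, abs_of_nonneg (by linarith [hc1 k])] at h1
    exact h1
  have hcb : ∀ k, (S k).2 ≤ 2 * M / m := by
    intro k
    have h1 := h.lo _ (hXX k)
    have h2 := mul_le_mul_of_nonneg_left (hco k) hm.le
    have h3 := hN0 k
    rw [le_div_iff₀ hm]
    have h4 : 2 * ε = m / 2 := by rw [hε]; ring
    rw [h4] at h3
    nlinarith [hc1 k]
  -- convergence
  have cm : Monotone (fun k => (S k).2) := monotone_nat_of_le_succ cmono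
  obtain ⟨cω, hcω⟩ : ∃ cω, Tendsto (fun k => (S k).2) atTop (𝓝 cω) :=
    ⟨_, tendsto_atTop_ciSup cm ⟨2 * M / m, by rintro _ ⟨k, rfl⟩; exact hcb k⟩⟩
  have hcω1 : 1 ≤ cω := ge_of_tendsto' hcω hc1
  have hcle : ∀ k, (S k).2 ≤ cω := fun k => cm.ge_of_tendsto hcω k
  have hdist : ∀ k j, k ≤ j → ‖(S j).1 - (S k).1‖ ≤ 3 * ((S j).2 - (S k).2) := by
    intro k j hkj
    induction j, hkj using Nat.le_induction with
    | base => simp
    | succ j _ ih =>
      have h1 := norm_sub_le_norm_sub_add_norm_sub (S (j + 1)).1 (S j).1 (S k).1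
      have h2 := hd j
      linarith
  have hcau : CauchySeq (fun k => (S k).1) := by
    refine cauchySeq_of_le_tendsto_0' (fun k => 3 * (cω - (S k).2)) ?_ ?_
    · intro k j hkj
      rw [dist_eq_norm, norm_sub_rev]
      have h1 := hdist k j hkj
      have h2 := hcle j
      linarith
    · have : Tendsto (fun k => 3 * (cω - (S k).2)) atTop (𝓝 (3 * (cω - cω))) :=
        (tendsto_const_nhds.sub hcω).const_mul 3
      simpa using this
  obtain ⟨zω, hzω⟩ := cauchySeq_tendsto_of_complete hcau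
  have hzX : zω ∈ XX T := isClosed_XX.mem_of_tendsto hzω (Eventually.of_forall hXX)
  have hinv : zω - cω • av t ∈ YY sω := by
    have h1 : Tendsto (fun k => (S k).1 - (S k).2 • av t) atTop (𝓝 (zω - cω • av t)) :=
      hzω.sub (hcω.smul_const (av t))
    exact (isClosed_YY sω).mem_of_tendsto h1
      (Eventually.of_forall (fun k => YY_mono (hsω k) (inv k)))
  have hsωt : sω < t := lt_of_le_of_lt hsr hrt'
  have hz0 : zω ≠ 0 := by
    intro h0
    have h1 := coercive hsωt hinv cω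
    rw [sub_add_cancel, h0, norm_zero, abs_of_nonneg (by linarith)] at h1
    linarith
  obtain ⟨ξ, hξ⟩ := hsm zω hzX hz0
  obtain ⟨p, δ₀, hδ₀, hcl⟩ := claim1 h hr hrt'.le hinv
    (show zω = (zω - cω • av t) + cω • av t by abel) ξ hξ (ε := ε / 2) (by positivity)
  set δ₁ : ℝ := min δ₀ 1 with hδ₁
  have hδ₁pos : 0 < δ₁ := lt_min hδ₀ one_pos
  have hcl1 := hcl δ₁ hδ₁pos (min_le_left _ _)
  -- for large k the step size is at least δ₁ / 2
  have hvX : ∀ x ∈ XX T, x + δ₁ • tl p (av t - av r) ∈ XX T := by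
    intro x hx
    refine (XX T).add_mem hx ((XX T).smul_mem _ ?_)
    exact tl_mem FS_le_XX ((XX T).sub_mem (av_mem_XX t) (av_mem_XX r)) p
  have hlarge : ∀ᶠ k in atTop, δ₁ ≤ 2 * ((S (k + 1)).2 - (S k).2) := by
    have h1 : ∀ᶠ k in atTop, ‖(S k).1 - zω‖ < ε * δ₁ / (4 * M) := by
      have := (Metric.tendsto_nhds.1 hzω) (ε * δ₁ / (4 * M)) (by positivity)
      filter_upwards [this] with k hk
      rwa [dist_eq_norm] at hk
    filter_upwards [h1] with k hk
    refine hmax k δ₁ p hδ₁pos (min_le_right _ _) ?_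
    have h2 := h.sub_le (hvX _ (hXX k)) (hvX _ hzX)
    have h3 : (S k).1 + δ₁ • tl p (av t - av r) - (zω + δ₁ • tl p (av t - av r))
        = (S k).1 - zω := by abel
    rw [h3] at h2
    have h4 := h.sub_le hzX (hXX k)
    rw [norm_sub_rev] at h4
    have h5 : M * ‖(S k).1 - zω‖ ≤ ε * δ₁ / 4 := by
      have := mul_le_mul_of_nonneg_left hk.le hM.le
      have h6 : M * (ε * δ₁ / (4 * M)) = ε * δ₁ / 4 := by field_simp
      linarith
    linarith
  have hlim : Tendsto (fun k => 2 * ((S (k + 1)).2 - (S k).2)) atTop (𝓝 (2 * (cω - cω))) :=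
    ((hcω.comp (tendsto_add_atTop_nat 1)).sub hcω).const_mul 2
  have := ge_of_tendsto hlim hlarge
  rw [sub_self, mul_zero] at this
  linarith

end Pool.Agent.Helper11.GT
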