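import Pool.Agent.Helper11.GT.JB
import Pool.Agent.Helper11.GT.BAIRE

/-!
# Density of the stable nodes
-/

set_option autoImplicit false

open Set Filter Topology

namespace Pool.Agent.Helper11.GT

variable {T : Type} [GTree T] {N : E → ℝ} {m M : ℝ}

/-- density of the stable nodes -/
theorem exists_St (h : EqN T N m M) {s t : T} (hst : s ≤ t) : ∃ t', t ≤ t' ∧ St N s t' := by
  haveI := sep_YY s
  obtain ⟨p, hp, hp2⟩ := stab (P := T) (GTree.ub) (ι := ℕ) (Z := (YY s) × (YY s) × ℝ)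
    (fun n z t => JJ N n (z.1 : E) (z.2.1 : E) z.2.2 t)
    (fun n z p q hpq => JJ_mono h (YY_le_XX s z.2.1.2) hpq)
    (fun n z => ⟨_, fun p => JJ_bdd h (YY_le_XX s z.2.1.2)⟩)
    (fun n p => JJ_cont h s n p) t
  refine ⟨p, hp, le_trans hst hp, ?_⟩
  intro n α g c hα hg t' ht'
  exact hp2 n (⟨α, hα⟩, ⟨g, hg⟩, c) t' ht'

end Pool.Agent.Helper11.GT
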