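import Pool.Agent.Helper11.GT.Defs

/-!
# Module TREE (MP_d36c66_an): existence of the combinatorial tree `GTree`

Nodes are pairs `(f, α)` with `α` in a well-ordered type of type `ω₁` and `f` a function to `ℕ`
vanishing from `α` on. The sets are obtained by a recursion along `α` in the `σ`-closed preorder
of pairs `(A, B)`, `B` infinite, `A ∩ B` finite.
-/

set_option autoImplicit false

open Set Filter Topology

namespace Pool.Agent.Helper11.GT

namespace TR

/-! ### A well-ordered type of type `ω₁` -/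

lemma exists_Om : ∃ (Ω : Type) (_ : LinearOrder Ω) (_ : WellFoundedLT Ω),
    (∀ β : Ω, (Iio β).Countable) ∧ (∀ f : ℕ → Ω, ∃ β, ∀ n, f n < β) ∧
    ∃ bt : Ω, ∀ β, bt ≤ β := by
  have key : ∀ β : (Cardinal.aleph 1).ord.ToType, (Iio β).Countable := by
    intro β
    rw [← Cardinal.le_aleph0_iff_set_countable, ← Order.lt_succ_iff, Cardinal.succ_aleph0]
    refine lt_of_lt_of_eq (Cardinal.mk_Iio_lt β ?_) ?_
    · rw [Cardinal.mk_toType, Cardinal.card_ord]
      exact (Ordinal.type_toType _).symm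
    · rw [Cardinal.mk_toType, Cardinal.card_ord]
  refine ⟨(Cardinal.aleph 1).ord.ToType, inferInstance, inferInstance, key, ?_, ?_⟩
  · intro f
    by_contra hcon
    push Not at hcon
    have hc : ∀ β : (Cardinal.aleph 1).ord.ToType, (Iic β).Countable := by
      intro β
      rw [← Iio_insert]
      exact (key β).insert β
    have hu : (Set.univ : Set (Cardinal.aleph 1).ord.ToType).Countable := by
      have : (Set.univ : Set (Cardinal.aleph 1).ord.ToType) = ⋃ n, Iic (f n) := by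
        ext β
        simp only [mem_univ, mem_iUnion, mem_Iic, true_iff]
        exact hcon β
      rw [this]
      exact countable_iUnion fun n => hc _
    have h2 : Cardinal.mk (Cardinal.aleph 1).ord.ToType ≤ Cardinal.aleph0 := by
      rw [← Cardinal.mk_univ]
      exact Cardinal.le_aleph0_iff_set_countable.mpr hu
    rw [Cardinal.mk_toType, Cardinal.card_ord] at h2
    exact absurd h2 (not_le.mpr Cardinal.aleph0_lt_aleph_one)
  · have hne : Nonempty (Cardinal.aleph 1).ord.ToType := by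
      rw [← Cardinal.mk_ne_zero_iff, Cardinal.mk_toType, Cardinal.card_ord]
      exact (Cardinal.aleph_pos 1).ne'
    obtain ⟨x⟩ := hne
    have hu : (Set.univ : Set (Cardinal.aleph 1).ord.ToType).Nonempty := ⟨x, trivial⟩
    refine ⟨WellFounded.min wellFounded_lt Set.univ hu, fun β => ?_⟩
    exact not_lt.mp (WellFounded.not_lt_min wellFounded_lt Set.univ (mem_univ β))

/-! ### The poset of pairs -/

/-- pairs `(A, B)` with `B` infinite and `A ∩ B` finite -/
structure PP where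
  A : Set ℕ
  B : Set ℕ
  inf : B.Infinite
  fin : (A ∩ B).Finite

/-- the order of `PP` -/
def PP.Le (p q : PP) : Prop :=
  (p.A \ q.A).Finite ∧ (q.B \ p.B).Finite ∧ ((q.A \ p.A) \ p.B).Finite

lemma PP.Le.refl (p : PP) : p.Le p := by
  refine ⟨by simp, by simp, by simp⟩

lemma PP.Le.trans {p q r : PP} (h : p.Le q) (h' : q.Le r) : p.Le r := by
  obtain ⟨a1, a2, a3⟩ := h
  obtain ⟨b1, b2, b3⟩ := h'
  refine ⟨(a1.union b1).subset ?_, (a2.union b2).subset ?_, ((a3.union b3).union a2).subset ?_⟩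
  · intro k hk
    by_cases h : k ∈ q.A
    · exact Or.inr ⟨h, hk.2⟩
    · exact Or.inl ⟨hk.1, h⟩
  · intro k hk
    by_cases h : k ∈ q.B
    · exact Or.inl ⟨h, hk.2⟩
    · exact Or.inr ⟨hk.1, h⟩
  · rintro k ⟨⟨h1, h2⟩, h3⟩
    by_cases h : k ∈ q.A
    · exact Or.inl (Or.inl ⟨⟨h, h2⟩, h3⟩)
    · by_cases h' : k ∈ q.B
      · exact Or.inr ⟨h', h3⟩
      · exact Or.inl (Or.inr ⟨⟨h1, h⟩, h'⟩)

/-- countable chains have upper bounds -/
lemma PP.ub (p : ℕ → PP) (hp : ∀ i j, i ≤ j → (p i).Le (p j)) : ∃ b : PP, ∀ n, (p n).Le b := by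
  -- the sets `S m`
  set S : ℕ → Set ℕ := fun m => {k | (∀ i ≤ m, k ∈ (p i).B) ∧ ∀ i ≤ m, k ∉ (p i).A} with hS
  have hSinf : ∀ m, (S m).Infinite := by
    intro m
    have hfin : ((p m).B \ S m).Finite := by
      have : (p m).B \ S m ⊆ (⋃ i ∈ Finset.range (m + 1), ((p m).B \ (p i).B)) ∪
          (⋃ i ∈ Finset.range (m + 1), ((p i).A \ (p m).A)) ∪ ((p m).A ∩ (p m).B) := by
        rintro k ⟨hk, hk'⟩
        simp only [hS, mem_ofPred_eq, not_and_or, not_forall, not_not] at hk'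
        rcases hk' with ⟨i, hi, hk'⟩ | ⟨i, hi, hk'⟩
        · left; left
          simp only [Finset.mem_range, mem_iUnion, Set.mem_sdiff]
          exact ⟨i, by omega, hk, hk'⟩
        · by_cases h : k ∈ (p m).A
          · right; exact ⟨h, hk⟩
          · left; right
            simp only [Finset.mem_range, mem_iUnion, Set.mem_sdiff]
            exact ⟨i, by omega, hk', h⟩
      refine Set.Finite.subset ((Set.Finite.union ?_ ?_).union (p m).fin) this
      · refine Set.Finite.biUnion (Finset.finite_toSet _) ?_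
        intro i hi
        have : i ≤ m := by
          have := Finset.mem_range.mp hi
          omega
        exact (hp i m this).2.1
      · refine Set.Finite.biUnion (Finset.finite_toSet _) ?_
        intro i hi
        have : i ≤ m := by
          have := Finset.mem_range.mp hi
          omega
        exact (hp i m this).1
    have := (p m).inf.sdiff hfin
    refine this.mono ?_
    intro k hk
    by_contra h
    exact hk.2 ⟨hk.1, h⟩
  obtain ⟨b, hbm, hb⟩ := Filter.extraction_forall_of_frequently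
    (P := fun m k => k ∈ S m) (fun m => Nat.frequently_atTop_iff_infinite.mpr (hSinf m))
  have hbB : ∀ m n, n ≤ m → b m ∈ (p n).B := fun m n h => (hb m).1 n h
  have hbA : ∀ m n, n ≤ m → b m ∉ (p n).A := fun m n h => (hb m).2 n h
  refine ⟨⟨{k | ∃ n, k ∈ (p n).A ∧ ∀ i < n, k ∈ (p i).A ∨ k ∈ (p i).B} \ range b, range b,
    infinite_range_of_injective hbm.injective, ?_⟩, ?_⟩
  · convert Set.finite_empty
    ext k
    simp
  intro n
  refine ⟨?_, ?_, ?_⟩
  · -- `A_n \ A` finite
    have : (p n).A \ ({k | ∃ n, k ∈ (p n).A ∧ ∀ i < n, k ∈ (p i).A ∨ k ∈ (p i).B} \ range b) ⊆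
        (b '' (Finset.range n : Set ℕ)) ∪
        ⋃ n' ∈ Finset.range (n + 1), ⋃ i ∈ Finset.range n', (((p n').A \ (p i).A) \ (p i).B) := by
      rintro k ⟨hk, hk'⟩
      by_cases hkb : k ∈ range b
      · left
        obtain ⟨m, rfl⟩ := hkb
        refine ⟨m, ?_, rfl⟩
        simp only [Finset.coe_range, mem_Iio]
        by_contra h
        exact hbA m n (by omega) hk
      · right
        classical
        have hex : ∃ n', k ∈ (p n').A := ⟨n, hk⟩
        have h1 := Nat.find_spec hex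
        have h2 : Nat.find hex ≤ n := Nat.find_min' hex hk
        have h3 : ¬ ∀ i < Nat.find hex, k ∈ (p i).A ∨ k ∈ (p i).B := by
          intro h
          exact hk' ⟨⟨Nat.find hex, h1, h⟩, hkb⟩
        push Not at h3
        obtain ⟨i, hi, h4, h5⟩ := h3
        simp only [mem_iUnion, Finset.mem_range]
        exact ⟨Nat.find hex, by omega, i, hi, ⟨⟨h1, h4⟩, h5⟩⟩
    refine Set.Finite.subset (Set.Finite.union ((Finset.finite_toSet _).image b) ?_) this
    refine Set.Finite.biUnion (Finset.finite_toSet _) ?_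
    intro n' _
    refine Set.Finite.biUnion (Finset.finite_toSet _) ?_
    intro i hi
    have : i ≤ n' := by
      have := Finset.mem_range.mp hi
      omega
    exact (hp i n' this).2.2
  · have : range b \ (p n).B ⊆ b '' (Finset.range n : Set ℕ) := by
      rintro k ⟨⟨m, rfl⟩, hk⟩
      refine ⟨m, ?_, rfl⟩
      simp only [Finset.coe_range, mem_Iio]
      by_contra h
      exact hk (hbB m n (by omega))
    exact ((Finset.finite_toSet _).image b).subset this
  · have : (({k | ∃ n, k ∈ (p n).A ∧ ∀ i < n, k ∈ (p i).A ∨ k ∈ (p i).B} \ range b) \ (p n).A)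
        \ (p n).B ⊆ ⋃ n' ∈ Finset.range (n + 1), ((p n').A \ (p n).A) := by
      rintro k ⟨⟨⟨⟨n', h1, h2⟩, _⟩, h3⟩, h4⟩
      by_cases h : n < n'
      · rcases h2 n h with h5 | h5
        · exact absurd h5 h3
        · exact absurd h5 h4
      · simp only [mem_iUnion, Finset.mem_range]
        exact ⟨n', by omega, h1, h3⟩
    refine Set.Finite.subset (Set.Finite.biUnion (Finset.finite_toSet _) ?_) this
    intro n' hn'
    have : n' ≤ n := by
      have := Finset.mem_range.mp hn'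
      omega
    exact (hp n' n this).1

/-- pairwise disjoint infinite subsets of an infinite set -/
lemma exists_cset (B : Set ℕ) (hB : B.Infinite) : ∃ c : ℕ → Set ℕ,
    (∀ i, c i ⊆ B ∧ (c i).Infinite) ∧ ∀ i j, i ≠ j → Disjoint (c i) (c j) := by
  let e := hB.natEmbedding
  refine ⟨fun i => (fun j => (e (Nat.pair i j) : ℕ)) '' univ, ?_, ?_⟩
  · intro i
    refine ⟨?_, ?_⟩
    · rintro _ ⟨j, _, rfl⟩
      exact (e (Nat.pair i j)).2
    · refine Set.infinite_univ.image ?_
      intro j _ j' _ h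
      have := e.injective (Subtype.ext h)
      have := Nat.pair_eq_pair.mp this
      exact this.2
  · intro i i' hii
    rw [Set.disjoint_left]
    rintro _ ⟨j, _, rfl⟩ ⟨j', _, h⟩
    have := e.injective (Subtype.ext h)
    exact hii (Nat.pair_eq_pair.mp this).1.symm


/-! ### Successors -/

/-- the pairwise disjoint infinite subsets -/
noncomputable def cs (p : PP) : ℕ → Set ℕ := Classical.choose (exists_cset p.B p.inf)

lemma cs_sub (p : PP) (i : ℕ) : cs p i ⊆ p.B := ((Classical.choose_spec (exists_cset p.B p.inf)).1 i).1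

lemma cs_inf (p : PP) (i : ℕ) : (cs p i).Infinite :=
  ((Classical.choose_spec (exists_cset p.B p.inf)).1 i).2

lemma cs_disj (p : PP) {i j : ℕ} (h : i ≠ j) : Disjoint (cs p i) (cs p j) :=
  (Classical.choose_spec (exists_cset p.B p.inf)).2 i j h

/-- the `i`-th successor -/
noncomputable def PP.sc (p : PP) (i : ℕ) : PP where
  A := p.A ∪ cs p (2 * i)
  B := cs p (2 * i + 1)
  inf := cs_inf p _
  fin := by
    refine p.fin.subset ?_
    rintro k ⟨h1, h2⟩
    rcases h1 with h1 | h1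
    · exact ⟨h1, cs_sub p _ h2⟩
    · exact absurd h2 (Set.disjoint_left.mp (cs_disj p (by omega)) h1)

lemma PP.le_sc (p : PP) (i : ℕ) : p.Le (p.sc i) := by
  refine ⟨?_, ?_, ?_⟩
  · convert Set.finite_empty
    ext k
    simp only [PP.sc, Set.mem_sdiff, mem_union, mem_empty_iff_false, iff_false]
    tauto
  · convert Set.finite_empty
    ext k
    simp only [Set.mem_sdiff, mem_empty_iff_false, iff_false]
    rintro ⟨h1, h2⟩
    exact h2 (cs_sub p _ h1)
  · convert Set.finite_empty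
    ext k
    simp only [Set.mem_sdiff, mem_empty_iff_false, iff_false]
    rintro ⟨⟨h1, h2⟩, h3⟩
    rcases h1 with h1 | h1
    · exact h2 h1
    · exact h3 (cs_sub p _ h1)

/-- the least pair -/
def PP.bot : PP := ⟨∅, univ, infinite_univ, by simp⟩

section Tree

variable {Ω : Type} [LinearOrder Ω] [WellFoundedLT Ω]

open Classical in
/-- an upper bound of a family indexed by an initial segment -/
noncomputable def UB (α : Ω) (G : ∀ β : Ω, β < α → PP) : PP :=
  if ∃ β : Ω, β < α then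
    (if h : ∃ b : PP, ∀ (β : Ω) (hb : β < α), (G β hb).Le b then Classical.choose h else PP.bot)
  else PP.bot

/-- the recursion -/
noncomputable def GG (f : Ω → ℕ) : Ω → PP :=
  WellFoundedLT.fix (motive := fun _ => PP) (fun α ih => UB α (fun β hb => (ih β hb).sc (f β)))

lemma GG_eq (f : Ω → ℕ) (α : Ω) : GG f α = UB α (fun β _ => (GG f β).sc (f β)) := by
  unfold GG
  rw [WellFoundedLT.fix_eq]

lemma GG_congr {f g : Ω → ℕ} (α : Ω) (h : ∀ β < α, f β = g β) : GG f α = GG g α := by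
  induction α using WellFoundedLT.induction with
  | ind α ih =>
    rw [GG_eq, GG_eq]
    congr 1
    funext β hb
    rw [ih β hb (fun γ hγ => h γ (hγ.trans hb)), h β hb]

lemma GG_bot (f : Ω → ℕ) (α : Ω) (h : ∀ β, ¬ β < α) : GG f α = PP.bot := by
  rw [GG_eq, UB, if_neg]
  rintro ⟨β, hβ⟩
  exact h β hβ

lemma GG_sc_le (hc : ∀ β : Ω, (Iio β).Countable) (f : Ω → ℕ) (α : Ω) :
    ∀ β < α, ((GG f β).sc (f β)).Le (GG f α) := by
  induction α using WellFoundedLT.induction with
  | ind α ih =>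
    intro β₀ hβ₀
    -- the family is monotone
    have hmono : ∀ β β', β ≤ β' → β' < α →
        ((GG f β).sc (f β)).Le ((GG f β').sc (f β')) := by
      intro β β' h h'
      rcases h.eq_or_lt with rfl | h
      · exact PP.Le.refl _
      · exact (ih β' h' β h).trans (PP.le_sc _ _)
    have hex : ∃ b : PP, ∀ (β : Ω) (_ : β < α), ((GG f β).sc (f β)).Le b := by
      have : Nonempty (Iio α) := ⟨⟨β₀, hβ₀⟩⟩
      have : Countable (Iio α) := hc α
      obtain ⟨e, he⟩ := exists_surjective_nat (Iio α)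
      -- running maximum
      let u : ℕ → Iio α := fun n => Nat.rec (e 0) (fun m x => max x (e (m + 1))) n
      have hu : Monotone u := monotone_nat_of_le_succ fun n => le_max_left _ _
      have heu : ∀ n, e n ≤ u n := by
        intro n
        cases n with
        | zero => exact le_refl _
        | succ n => exact le_max_right _ _
      let F : ℕ → PP := fun n => (GG f (u n).1).sc (f (u n).1)
      have hF : ∀ i j, i ≤ j → (F i).Le (F j) := fun i j hij => hmono _ _ (hu hij) (u j).2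
      obtain ⟨b, hb⟩ := PP.ub F hF
      refine ⟨b, fun β hβ => ?_⟩
      obtain ⟨n, hn⟩ := he ⟨β, hβ⟩
      have h1 : β ≤ (u n).1 := by
        have := heu n
        rw [hn] at this
        exact this
      exact (hmono _ _ h1 (u n).2).trans (hb n)
    rw [GG_eq f α, UB, if_pos ⟨β₀, hβ₀⟩, dif_pos hex]
    exact Classical.choose_spec hex β₀ hβ₀

lemma GG_mono (hc : ∀ β : Ω, (Iio β).Countable) (f : Ω → ℕ) {α β : Ω} (h : β ≤ α) :
    (GG f β).Le (GG f α) := by
  rcases h.eq_or_lt with rfl | h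
  · exact PP.Le.refl _
  · exact (PP.le_sc _ _).trans (GG_sc_le hc f α β h)


/-! ### The tree -/

variable (Ω) in
/-- nodes: `(f, α)` with `f` vanishing from `α` on -/
structure Nd where
  f : Ω → ℕ
  α : Ω
  z : ∀ γ, α ≤ γ → f γ = 0

omit [WellFoundedLT Ω] in
lemma Nd.ext' {p q : Nd Ω} (h1 : p.α = q.α) (h2 : ∀ γ < p.α, p.f γ = q.f γ) : p = q := by
  obtain ⟨f, α, z⟩ := p
  obtain ⟨g, β, w⟩ := q
  simp only at h1 h2
  subst h1
  have : f = g := by
    funext γ
    rcases lt_or_ge γ α with h | h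
    · exact h2 γ h
    · rw [z γ h, w γ h]
  subst this
  rfl

instance : PartialOrder (Nd Ω) where
  le p q := p.α ≤ q.α ∧ ∀ γ < p.α, p.f γ = q.f γ
  le_refl p := ⟨le_refl _, fun _ _ => rfl⟩
  le_trans p q r h h' := ⟨h.1.trans h'.1, fun γ hγ =>
    (h.2 γ hγ).trans (h'.2 γ (hγ.trans_le h.1))⟩
  le_antisymm p q h h' := Nd.ext' (le_antisymm h.1 h'.1) h.2

lemma Nd.le_def {p q : Nd Ω} : p ≤ q ↔ p.α ≤ q.α ∧ ∀ γ < p.α, p.f γ = q.f γ := Iff.rfl

lemma Nd.lt_alpha {p q : Nd Ω} (h : p < q) : p.α < q.α := by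
  refine lt_of_le_of_ne h.le.1 ?_
  intro e
  exact h.ne (Nd.ext' e h.le.2)

/-- cut a function -/
def cutAt (f : Ω → ℕ) (α : Ω) : Nd Ω where
  f := fun γ => if γ < α then f γ else 0
  α := α
  z := fun _ hγ => if_neg (not_lt.mpr hγ)

/-- successor in `Ω` -/
noncomputable def nx (hn : ∀ β : Ω, ∃ γ, β < γ) (α : Ω) : Ω :=
  WellFounded.min (wellFounded_lt (α := Ω)) {γ | α < γ} (hn α)

lemma lt_nx (hn : ∀ β : Ω, ∃ γ, β < γ) (α : Ω) : α < nx hn α :=
  WellFounded.min_mem (wellFounded_lt (α := Ω)) {γ | α < γ} (hn α)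

lemma nx_le (hn : ∀ β : Ω, ∃ γ, β < γ) {α γ : Ω} (h : α < γ) : nx hn α ≤ γ :=
  not_lt.mp (WellFounded.not_lt_min (wellFounded_lt (α := Ω)) {γ | α < γ} h)

lemma lt_nx_iff (hn : ∀ β : Ω, ∃ γ, β < γ) {α γ : Ω} : γ < nx hn α ↔ γ ≤ α := by
  constructor
  · intro h
    by_contra h'
    exact absurd (nx_le hn (not_le.mp h')) (not_le.mpr h)
  · intro h
    exact h.trans_lt (lt_nx hn α)

/-- successor nodes -/
noncomputable def Nd.sc (hn : ∀ β : Ω, ∃ γ, β < γ) (t : Nd Ω) (i : ℕ) : Nd Ω where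
  f := fun γ => if γ = t.α then i else t.f γ
  α := nx hn t.α
  z := fun γ hγ => by
    have h : t.α < γ := (lt_nx hn t.α).trans_le hγ
    simp only [if_neg h.ne']
    exact t.z γ h.le

lemma Nd.sc_le (hn : ∀ β : Ω, ∃ γ, β < γ) {t s : Nd Ω} {i : ℕ} :
    t.sc hn i ≤ s ↔ (t.α < s.α ∧ (∀ γ < t.α, t.f γ = s.f γ) ∧ s.f t.α = i) := by
  rw [Nd.le_def]
  constructor
  · rintro ⟨h1, h2⟩
    refine ⟨(lt_nx hn _).trans_le h1, ?_, ?_⟩
    · intro γ hγ
      have := h2 γ (hγ.trans (lt_nx hn _))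
      simp only [Nd.sc, if_neg hγ.ne] at this
      exact this
    · have := h2 t.α (lt_nx hn _)
      simp only [Nd.sc, if_true] at this
      exact this.symm
  · rintro ⟨h1, h2, h3⟩
    refine ⟨nx_le hn h1, ?_⟩
    intro γ hγ
    have hγ' : γ ≤ t.α := (lt_nx_iff hn).mp hγ
    rcases hγ'.eq_or_lt with rfl | h
    · simp only [Nd.sc, if_true]
      exact h3.symm
    · simp only [Nd.sc, if_neg h.ne]
      exact h2 γ h

/-- the pair of a node -/
noncomputable def Nd.G (t : Nd Ω) : PP := GG t.f t.α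

lemma Nd.G_eq {s t : Nd Ω} (h : s ≤ t) : s.G = GG t.f s.α := GG_congr _ h.2

lemma Nd.G_le (hc : ∀ β : Ω, (Iio β).Countable) {s t : Nd Ω} (h : s ≤ t) : s.G.Le t.G := by
  rw [Nd.G_eq h]
  exact GG_mono hc _ h.1

lemma Nd.G_sc_le (hc : ∀ β : Ω, (Iio β).Countable) {s t : Nd Ω} (h : s ≤ t) (h' : s.α < t.α) :
    (s.G.sc (t.f s.α)).Le t.G := by
  rw [Nd.G_eq h]
  exact GG_sc_le hc _ _ _ h'

/-- the tree -/
@[reducible] noncomputable def mkTree (hc : ∀ β : Ω, (Iio β).Countable) (hb : ∀ f : ℕ → Ω, ∃ β, ∀ n, f n < β)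
    (bt : Ω) (hbt : ∀ β : Ω, bt ≤ β) : GTree (Nd Ω) where
  A t := t.G.A
  sc t i := t.sc (fun β => by obtain ⟨γ, h⟩ := hb (fun _ => β); exact ⟨γ, h 0⟩) i
  lt_sc t i := by
    have hn : ∀ β : Ω, ∃ γ, β < γ := fun β => by obtain ⟨γ, h⟩ := hb (fun _ => β); exact ⟨γ, h 0⟩
    refine lt_of_le_of_ne ?_ ?_
    · exact ((Nd.sc_le hn).mp (le_refl (t.sc hn i))) |>.elim
        (fun h1 h => ⟨h1.le, h.1⟩)
    · intro e
      have : t.α = nx hn t.α := congrArg Nd.α e
      exact absurd this (lt_nx hn _).ne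
  wf C hC := by
    obtain ⟨t₀, ht₀⟩ := hC
    have hne : (Nd.α '' C).Nonempty := ⟨_, t₀, ht₀, rfl⟩
    obtain ⟨t, ht, hte⟩ := WellFounded.min_mem (wellFounded_lt (α := Ω)) (Nd.α '' C) hne
    refine ⟨t, ht, fun s hs hst => ?_⟩
    have h1 := Nd.lt_alpha hst
    rw [hte] at h1
    exact WellFounded.not_lt_min (wellFounded_lt (α := Ω)) (Nd.α '' C) ⟨s, hs, rfl⟩ h1
  cnt t := by
    have h1 : (Iic t.α).Countable := by
      rw [← Iio_insert]
      exact (hc t.α).insert _
    refine Set.MapsTo.countable_of_injOn (f := Nd.α) (t := Iic t.α) (fun s hs => hs.1) ?_ h1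
    intro s hs s' hs' e
    refine Nd.ext' e (fun γ hγ => ?_)
    rw [hs.2 γ hγ, hs'.2 γ (by rw [← e]; exact hγ)]
  chain s u t hs hu := by
    rcases le_total s.α u.α with h | h
    · left
      exact ⟨h, fun γ hγ => by rw [hs.2 γ hγ, hu.2 γ (hγ.trans_le h)]⟩
    · right
      exact ⟨h, fun γ hγ => by rw [hu.2 γ hγ, hs.2 γ (hγ.trans_le h)]⟩
  meet s t := by
    have hn : ∀ β : Ω, ∃ γ, β < γ := fun β => by obtain ⟨γ, h⟩ := hb (fun _ => β); exact ⟨γ, h 0⟩
    by_cases hd : ∃ γ, γ < s.α ∧ γ < t.α ∧ s.f γ ≠ t.f γ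
    · right; right
      set D : Set Ω := {γ | γ < s.α ∧ γ < t.α ∧ s.f γ ≠ t.f γ} with hD
      have hmem := WellFounded.min_mem (wellFounded_lt (α := Ω)) D hd
      have hmin : ∀ γ, γ < WellFounded.min (wellFounded_lt (α := Ω)) D hd → γ ∉ D := by
        intro γ h1 h2
        exact WellFounded.not_lt_min (wellFounded_lt (α := Ω)) D h2 h1
      set γ₀ := WellFounded.min (wellFounded_lt (α := Ω)) D hd
      obtain ⟨h1, h2, h3⟩ := hmem
      refine ⟨cutAt s.f γ₀, s.f γ₀, t.f γ₀, h3, ?_, ?_⟩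
      · rw [Nd.sc_le hn]
        refine ⟨h1, fun γ hγ => ?_, rfl⟩
        simp only [cutAt] at hγ ⊢
        rw [if_pos hγ]
      · rw [Nd.sc_le hn]
        refine ⟨h2, fun γ hγ => ?_, rfl⟩
        simp only [cutAt] at hγ ⊢
        rw [if_pos hγ]
        by_contra hne
        exact hmin γ hγ ⟨hγ.trans h1, hγ.trans h2, hne⟩
    · push Not at hd
      rcases le_total s.α t.α with h | h
      · left
        exact ⟨h, fun γ hγ => hd γ hγ (hγ.trans_le h)⟩
      · right; left
        exact ⟨h, fun γ hγ => (hd γ (hγ.trans_le h) hγ).symm⟩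
  ub p hp := by
    classical
    obtain ⟨β, hβ⟩ := hb (fun n => (p n).α)
    refine ⟨⟨fun γ => if h : ∃ n, γ < (p n).α then (p h.choose).f γ else 0, β, ?_⟩, ?_⟩
    · intro γ hγ
      rw [dif_neg]
      rintro ⟨n, hn⟩
      exact absurd (hn.trans (hβ n)) (not_lt.mpr hγ)
    · intro n
      refine ⟨(hβ n).le, ?_⟩
      intro γ hγ
      have hex : ∃ n, γ < (p n).α := ⟨n, hγ⟩
      simp only [dif_pos hex]
      have h1 := hex.choose_spec
      rcases le_total n hex.choose with h | h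
      · exact (hp h).2 γ hγ
      · exact ((hp h).2 γ h1).symm
  sub s t h := (Nd.G_le hc h).1
  inf s t h := by
    have hα := Nd.lt_alpha h
    have h1 := Nd.G_sc_le hc h.le hα
    set i := t.f s.α
    have h2 : (cs s.G (2 * i) \ s.G.A).Infinite := by
      have h := (cs_inf s.G (2 * i)).sdiff
        (s.G.fin.subset (fun k hk => ⟨hk.2, cs_sub _ _ hk.1⟩) :
          (cs s.G (2 * i) ∩ s.G.A).Finite)
      refine h.mono ?_
      rintro k ⟨h4, h5⟩
      exact ⟨h4, fun h6 => h5 ⟨h4, h6⟩⟩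
    have h3 : ((cs s.G (2 * i) \ s.G.A) \ ((s.G.sc i).A \ t.G.A)).Infinite := h2.sdiff h1.1
    refine h3.mono ?_
    rintro k ⟨⟨h4, h5⟩, h6⟩
    refine ⟨?_, h5⟩
    by_contra h7
    exact h6 ⟨Or.inr h4, h7⟩
  ad t i j hij r r' hr hr' := by
    have hn : ∀ β : Ω, ∃ γ, β < γ := fun β => by obtain ⟨γ, h⟩ := hb (fun _ => β); exact ⟨γ, h 0⟩
    obtain ⟨a1, a2, a3⟩ := (Nd.sc_le hn).mp hr
    obtain ⟨b1, b2, b3⟩ := (Nd.sc_le hn).mp hr'
    have h1 := Nd.G_sc_le hc (s := t) (t := r) ⟨a1.le, a2⟩ a1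
    have h2 := Nd.G_sc_le hc (s := t) (t := r') ⟨b1.le, b2⟩ b1
    rw [a3] at h1
    rw [b3] at h2
    refine (h1.2.2.union h2.2.2).subset ?_
    rintro k ⟨⟨c1, c2⟩, d1, d2⟩
    by_cases e1 : k ∈ (t.G.sc i).A ∪ (t.G.sc i).B
    · by_cases e2 : k ∈ (t.G.sc j).A ∪ (t.G.sc j).B
      · exfalso
        have e1' : k ∈ cs t.G (2 * i) ∨ k ∈ cs t.G (2 * i + 1) := by
          rcases e1 with (e | e) | e
          · exact absurd e c2
          · exact Or.inl e
          · exact Or.inr e
        have e2' : k ∈ cs t.G (2 * j) ∨ k ∈ cs t.G (2 * j + 1) := by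
          rcases e2 with (e | e) | e
          · exact absurd e c2
          · exact Or.inl e
          · exact Or.inr e
        rcases e1' with e1' | e1' <;> rcases e2' with e2' | e2'
        · exact Set.disjoint_left.mp (cs_disj t.G (by omega)) e1' e2'
        · exact Set.disjoint_left.mp (cs_disj t.G (by omega)) e1' e2'
        · exact Set.disjoint_left.mp (cs_disj t.G (by omega)) e1' e2'
        · exact Set.disjoint_left.mp (cs_disj t.G (by omega)) e1' e2'
      · right
        exact ⟨⟨d1, fun h => e2 (Or.inl h)⟩, fun h => e2 (Or.inr h)⟩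
    · left
      exact ⟨⟨c1, fun h => e1 (Or.inl h)⟩, fun h => e1 (Or.inr h)⟩
  root := ⟨fun _ => 0, bt, fun _ _ => rfl⟩
  root_le t := ⟨hbt _, fun γ hγ => absurd hγ (not_lt.mpr (hbt γ))⟩
  A_root := by
    have : (Nd.G (⟨fun _ => 0, bt, fun _ _ => rfl⟩ : Nd Ω)) = PP.bot :=
      GG_bot _ _ (fun β hβ => absurd hβ (not_lt.mpr (hbt β)))
    rw [this]
    rfl

end Tree

end TR

open TR in
/-- there is a tree as needed -/
theorem exists_gtree : ∃ T : Type, Nonempty (GTree T) := by
  obtain ⟨Ω, _, _, hc, hb, bt, hbt⟩ := exists_Om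
  exact ⟨Nd Ω, ⟨mkTree hc hb bt hbt⟩⟩

end Pool.Agent.Helper11.GT
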