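import Pool.Agent.Helper11.GT.FIN
import Pool.Agent.Helper11.GT.TREE
import Pool.Agent.Helper11.GT.ASP2

/-!
# The theorem: an Asplund space that injects into `c_0` without a Gateaux smooth norm
-/

set_option autoImplicit false

open Set Filter Topology

namespace Pool.Agent.Helper11.GT

section inj

variable {X : Type} [NormedAddCommGroup X] [NormedSpace ℝ X] (i : X →ₗᵢ[ℝ] E)

/-- the evaluation functionals, scaled -/
noncomputable def evl (n : ℕ) : X →L[ℝ] ℝ :=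
  ((n : ℝ) + 1)⁻¹ • ((BoundedContinuousFunction.evalCLM ℝ n).comp i.toContinuousLinearMap)

lemma evl_apply (n : ℕ) (x : X) : evl i n x = ((n : ℝ) + 1)⁻¹ * (i x) n := rfl

lemma norm_evl_le (n : ℕ) : ‖evl i n‖ ≤ 1 := by
  refine ContinuousLinearMap.opNorm_le_bound _ zero_le_one (fun x => ?_)
  rw [evl_apply, norm_mul]
  have h1 : ‖((n : ℝ) + 1)⁻¹‖ ≤ 1 := by
    rw [Real.norm_eq_abs, abs_of_nonneg (by positivity)]
    apply inv_le_one_of_one_le₀
    have : (0 : ℝ) ≤ n := Nat.cast_nonneg n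
    linarith
  have h2 : ‖(i x) n‖ ≤ ‖x‖ := by
    rw [← i.norm_map x]
    exact (i x).norm_coe_le_norm n
  exact mul_le_mul h1 h2 (norm_nonneg _) zero_le_one

lemma tendsto_evl (x : X) : Tendsto (fun n => evl i n x) cofinite (𝓝 0) := by
  rw [Nat.cofinite_eq_atTop]
  have h1 : Tendsto (fun n : ℕ => ((n : ℝ) + 1)⁻¹ * ‖x‖) atTop (𝓝 (0 * ‖x‖)) := by
    refine Tendsto.mul_const _ ?_
    have := tendsto_one_div_add_atTop_nhds_zero_nat (𝕜 := ℝ)
    simpa [one_div] using this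
  rw [zero_mul] at h1
  refine squeeze_zero_norm (fun n => ?_) h1
  rw [evl_apply, norm_mul, Real.norm_eq_abs, abs_of_nonneg (by positivity)]
  refine mul_le_mul_of_nonneg_left ?_ (by positivity)
  rw [← i.norm_map x]
  exact (i x).norm_coe_le_norm n

lemma evl_total (x : X) (h : ∀ n, evl i n x = 0) : x = 0 := by
  have h0 : i x = 0 := by
    ext n
    have h1 := h n
    rw [evl_apply] at h1
    have h2 : ((n : ℝ) + 1)⁻¹ ≠ 0 := by positivity
    have h3 := (mul_eq_zero.1 h1).resolve_left h2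
    rw [h3]; rfl
  exact i.injective (h0.trans (map_zero i).symm)

end inj

/-- the renorming statement fails for any isometric copy of `XX T` -/
theorem key (T : Type) [GTree T] (X : Type) [NormedAddCommGroup X] [NormedSpace ℝ X]
    (i : X →ₗᵢ[ℝ] E) (hs : ∀ y ∈ XX T, ∃ x, i x = y)
    (N₀ : X → ℝ) (hcC : ∃ c C : ℝ, 0 < c ∧ ∀ x : X, c * ‖x‖ ≤ N₀ x ∧ N₀ x ≤ C * ‖x‖)
    (hadd : ∀ x y : X, N₀ (x + y) ≤ N₀ x + N₀ y)
    (hsmul : ∀ (a : ℝ) (x : X), N₀ (a • x) = |a| * N₀ x)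
    (hdiff : ∀ x : X, x ≠ 0 → ∃ φ : X →L[ℝ] ℝ,
      ∀ h : X, HasDerivAt (fun t : ℝ => N₀ (x + t • h)) (φ h) 0) : False := by
  obtain ⟨c, C, hc, hcC⟩ := hcC
  -- the norm on `E`
  set N : E → ℝ := fun y => N₀ (Function.invFun i y) with hN
  have hNX : ∀ x : X, N (i x) = N₀ x := by
    intro x
    show N₀ (Function.invFun i (i x)) = N₀ x
    rw [Function.leftInverse_invFun i.injective x]
  have hEq : EqN T N c C := by
    refine ⟨hc, ?_, ?_, ?_, ?_⟩
    · intro y hy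
      obtain ⟨x, rfl⟩ := hs y hy
      rw [hNX, i.norm_map]
      exact (hcC x).1
    · intro y hy
      obtain ⟨x, rfl⟩ := hs y hy
      rw [hNX, i.norm_map]
      exact (hcC x).2
    · intro y hy y' hy'
      obtain ⟨x, rfl⟩ := hs y hy
      obtain ⟨x', rfl⟩ := hs y' hy'
      rw [← map_add, hNX, hNX, hNX]
      exact hadd x x'
    · intro a y hy
      obtain ⟨x, rfl⟩ := hs y hy
      rw [← map_smul, hNX, hNX]
      exact hsmul a x
  refine not_smooth hEq ?_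
  intro z hz hz0
  obtain ⟨z', rfl⟩ := hs z hz
  have hz0' : z' ≠ 0 := by
    intro h0
    exact hz0 (by rw [h0, map_zero])
  obtain ⟨φ, hφ⟩ := hdiff z' hz0'
  -- extend the derivative to `E`
  obtain ⟨ξ, hξ⟩ : ∃ ξ : E →L[ℝ] ℝ, ∀ x : X, ξ (i x) = φ x := by
    let e : X ≃ₗᵢ[ℝ] (LinearMap.range i.toLinearMap) := i.equivRange
    obtain ⟨ξ, hξ, _⟩ := exists_extension_norm_eq (LinearMap.range i.toLinearMap)
      (φ.comp (e.symm.toContinuousLinearEquiv : (LinearMap.range i.toLinearMap) →L[ℝ] X))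
    refine ⟨ξ, fun x => ?_⟩
    have h1 := hξ (e x)
    have h2 : ((e x : LinearMap.range i.toLinearMap) : E) = i x := rfl
    rw [h2] at h1
    rw [h1]
    show φ (e.symm (e x)) = φ x
    rw [e.symm_apply_apply]
  refine ⟨ξ, fun x hx => ?_⟩
  obtain ⟨x', rfl⟩ := hs x hx
  rw [hξ]
  refine (hφ x').congr_of_eventuallyEq (Eventually.of_forall (fun r => ?_))
  show N (i z' + r • i x') = N₀ (z' + r • x')
  rw [← hNX, map_add, map_smul]

theorem main :
    ¬ (∀ (X : Type) [NormedAddCommGroup X] [NormedSpace ℝ X] [CompleteSpace X],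
      (∀ Y : Submodule ℝ X, TopologicalSpace.SeparableSpace ↥Y →
          TopologicalSpace.SeparableSpace (↥Y →L[ℝ] ℝ)) →
      (∃ (Γ : Type) (f : Γ → (X →L[ℝ] ℝ)),
          (∃ C : ℝ, ∀ γ, ‖f γ‖ ≤ C) ∧
          (∀ x : X, Filter.Tendsto (fun γ => f γ x) Filter.cofinite (nhds 0)) ∧
          (∀ x : X, (∀ γ, f γ x = 0) → x = 0)) →
      ∃ N : X → ℝ,
        (∃ c C : ℝ, 0 < c ∧ ∀ x : X, c * ‖x‖ ≤ N x ∧ N x ≤ C * ‖x‖) ∧
        (∀ x y : X, N (x + y) ≤ N x + N y) ∧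
        (∀ (a : ℝ) (x : X), N (a • x) = |a| * N x) ∧
        ∀ x : X, x ≠ 0 → ∃ φ : X →L[ℝ] ℝ,
          ∀ h : X, HasDerivAt (fun t : ℝ => N (x + t • h)) (φ h) 0) := by
  intro H
  obtain ⟨T, ⟨instT⟩⟩ := exists_gtree
  have hk : ∀ (X : Type) [NormedAddCommGroup X] [NormedSpace ℝ X] [CompleteSpace X]
      (i : X →ₗᵢ[ℝ] E) (_ : ∀ x, i x ∈ XX T) (_ : ∀ y ∈ XX T, ∃ x, i x = y), False := by
    intro X _ _ _ i hi hs
    obtain ⟨N₀, h1, h2, h3, h4⟩ := H X (fun Y hY => asplund T X i hi Y hY)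
      ⟨ℕ, evl i, ⟨1, norm_evl_le i⟩, tendsto_evl i, evl_total i⟩
    exact key T X i hs N₀ h1 h2 h3 h4
  have hcomp : CompleteSpace (XX T) := (isClosed_XX (T := T)).completeSpace_coe
  exact hk (XX T) (XX T).subtypeₗᵢ (fun x => x.2) (fun y hy => ⟨⟨y, hy⟩, rfl⟩)

end Pool.Agent.Helper11.GT
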